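import Pool.Agent.MP_93f6c7_pr.Shift

/-! The random objects of the main lemma and their Markov structure. -/

set_option autoImplicit false
set_option linter.unusedSectionVars false
set_option linter.unusedVariables false
open MeasureTheory Function
open scoped Classical

namespace Pool.Agent.MP_93f6c7_pr

variable {V : Type} [MeasurableSpace V] [DiscreteMeasurableSpace V] [Countable V]
  {G : SimpleGraph V} [G.LocallyFinite] {Δ : ℕ}

section combinators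
variable {Z : Type} [MeasurableSpace Z] {T : (G ≃g G) → Z → Z}

/-- Measurable invariant natural number valued function. -/
def IN (T : (G ≃g G) → Z → Z) (κ : Z → V → ℕ) : Prop :=
  ∀ Q : ℕ → Prop, IP T (fun z v => Q (κ z v))

lemma IN.of_lt {κ : Z → V → ℕ} (h : ∀ j, IP T (fun z v => j < κ z v)) : IN T κ := by
  intro Q
  have := IP.exists (a := T) (E := fun j z v => (((j = 0) ∨ j - 1 < κ z v) ∧ ¬ j < κ z v) ∧ Q j)
    fun j => (((IP.const _).or (h _)).and (h j).not).and (IP.const _)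
  convert this using 3 with z v
  constructor
  · intro hq; exact ⟨κ z v, ⟨by omega, lt_irrefl _⟩, hq⟩
  · rintro ⟨j, h1, h2⟩
    have : j = κ z v := by omega
    rwa [← this]

variable {f g mu : Z → V → V} {Lv F : Z → V → Prop} {κ : Z → V → ℕ}
  {s t : Z → Fin Δ → V → V}

lemma IP.pp (hf : EM T f) (hg : EM T g) (L : ℕ) (hL : IP T Lv) (hκ : IN T κ) :
    IP T (fun z => PP (f z) (g z) L (Lv z) (κ z)) :=
  IP.exists fun j => (IP.const _).and ((hL.comp (hf.back hg j)).and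
    ((hκ (fun n => j < n)).comp (hf.back hg j)))

lemma IP.out (hf : EM T f) (hg : EM T g) (L : ℕ) (hL : IP T Lv) (hκ : IN T κ) (hm : EM T mu) :
    IP T (fun z => Out (f z) (g z) L (Lv z) (κ z) (mu z)) :=
  (IP.pp hf hg L hL hκ).and ((IP.pp hf hg L hL hκ).comp hm).not

lemma EM.muL (hm : EM T mu) (hL : IP T Lv) : EM T (fun z => muL (mu z) (Lv z)) :=
  EM.ite (hL.or (hL.comp hm)) hm EM.id

lemma IP.src (hs : EC T s) (a b : Fin Δ) (L : ℕ) (hm : EM T mu) :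
    IP T (fun z => Src (s z) a b L (mu z)) :=
  (IP.fix hm).not.and ((IP.fix (hs.em b)).and (((IP.fix (hs.em a)).comp hm).and
    (IP.free (hs.em a) (hs.em b) _)))

lemma EC.shiftC {a b : Fin Δ} {L : ℕ} (hs : EC T s) (ht : EC T t) (hm : EM T mu) (hL : IP T Lv)
    (hF : IP T F) (hκ : IN T κ) (hab : a ≠ b)
    (hok : ∀ z, ShiftOK G (s z) a b L (mu z) (Lv z) (F z))
    (hc : ∀ z, Compat G (s z) (t z) a b) :
    EC T (fun z => shiftC a b L (mu z) (Lv z) (F z) (κ z) (s z) (t z)) :=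
  (ht.flipC hab (hF.or (IP.pp (hs.em a) (hs.em b) L hL hκ))).colourC a (hm.muL hL)
    (fun z => muL_invol (hok z).inv _)
    fun z v hv => ((hc z).unc _ _ ((hok z).muL_unc hv)).flipC hab _

lemma IP.win (hs : EC T s) (a b α : Fin Δ) (L W : ℕ) (hL : IP T Lv) (hκ : IN T κ) :
    IP T (fun z => Win (s z) a b α L W (Lv z) (κ z)) :=
  IP.exists fun j => (IP.const _).and ((hL.comp ((hs.em a).back (hs.em b) j)).and
    (((hκ (fun n => n < j)).comp ((hs.em a).back (hs.em b) j)).and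
    (((hκ (fun n => j ≤ n + W)).comp ((hs.em a).back (hs.em b) j)).and (IP.const _))))

lemma IN.newPos (hs : EC T s) (a b α : Fin Δ) (W : ℕ) (hκ : IN T κ) (hF : IP T F) :
    IN T (fun z => newPos (s z) a b α W (κ z) (F z)) := by
  have hG : ∀ j, IP T (fun z v => κ z v < j ∧ j ≤ κ z v + W ∧ alt b a j = α ∧
      F z (walk (s z a) (s z b) j v)) := fun j =>
    (hκ (fun n => n < j)).and ((hκ (fun n => j ≤ n + W)).and ((IP.const _).and
      (hF.comp ((hs.em a).walk (hs.em b) j))))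
  refine IN.of_lt fun j => ?_
  simp only [Pool.Agent.MP_93f6c7_pr.newPos, lt_pick]
  refine IP.and (IP.forall fun i => ?_) ((IP.exists hG).or (hκ (fun n => j < n)))
  by_cases hi : i ≤ j
  · simpa only [hi, true_imp_iff] using (hG i).not
  · simpa only [hi, false_imp_iff] using IP.const (a := T) True

lemma IP.bad (hf : EM T f) (hg : EM T g) (L W : ℕ) (hL : IP T Lv) (hκ : IN T κ) (hF : IP T F) :
    IP T (fun z => Bad (f z) (g z) L W (Lv z) (κ z) (F z)) :=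
  IP.exists fun j => ((IP.const _).and ((hL.comp (hf.back hg j)).and
    (((hκ (fun n => n ≤ j + 1)).comp (hf.back hg j)).and
      ((hκ (fun n => j ≤ n + W)).comp (hf.back hg j))))).and
    (IP.exists fun j' => (IP.const _).and (((hκ (fun n => n ≤ j' + 1)).comp (hf.back hg j)).and
      (((hκ (fun n => j' ≤ n + W)).comp (hf.back hg j)).and
        (hF.comp ((hf.walk hg j').comp (hf.back hg j))))))

end combinators

/-- The random position on the track. -/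
noncomputable def pos (L : ℕ) (y : Y V) (v : V) : ℕ := ⌊16 * (L : ℝ) * (y (v, 1) : ℝ)⌋₊

lemma in_pos (L : ℕ) : IN (G := G) act (pos L) := by
  refine IN.of_lt fun j => ⟨measurable_pi_lambda _ fun v => ?_, fun _ _ _ => Iff.rfl⟩
  have : Measurable fun y : Y V => pos L y v :=
    Nat.measurable_floor.comp (measurable_const.mul (meas_lab _))
  exact (Measurable.of_discrete (f := fun n : ℕ => j < n)).comp this

/-- The data of the main lemma. -/
structure Setup (G : SimpleGraph V) (Δ : ℕ) where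
  c : FC G Δ
  mu : Y V → V → V
  a : Fin Δ
  b : Fin Δ
  γ : Fin Δ
  α : Fin Δ
  β : Fin Δ
  l : List (Fin Δ)
  L : ℕ
  W : ℕ
  R : ℕ
  m : ℕ
  θ : ℝ
  q : ℝ
  ps : ℝ
  hmu : EI (G := G) act mu
  hunc : ∀ x v, mu x v ≠ v → Unc G (c.σ x) v (mu x v)
  ab : a ≠ b
  hα : α = a ∨ α = b
  hl : ∀ p, p ∈ γ :: l ↔ p ≠ a ∧ p ≠ b
  hγl : γ ∉ l
  nodup : l.Nodup

namespace Setup

variable (S : Setup G Δ)

lemma γa : S.γ ≠ S.a := ((S.hl S.γ).1 (by simp)).1
lemma γb : S.γ ≠ S.b := ((S.hl S.γ).1 (by simp)).2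
lemma len : S.l.length ≤ Δ := by simpa using S.nodup.length_le_card

/-- Sources. -/
def Sr (x : Y V) : V → Prop := Src (S.c.σ x) S.a S.b S.L (S.mu x)
/-- The set where `a` and `b` are exchanged, with radius `R`. -/
def FR (R : ℕ) (z : Y V × Y V) : V → Prop := RF (S.c.σ z.1 S.a) (S.c.σ z.1 S.b) S.θ S.q R 0 z.2
/-- Positions. -/
noncomputable def k (z : Y V × Y V) : V → ℕ := pos S.L z.2
/-- Live sources. -/
def Lv (z : Y V × Y V) (v : V) : Prop :=
  S.Sr z.1 v ∧ ¬ S.FR (S.R + S.L) z v ∧ ¬ S.FR S.R z (S.mu z.1 v) ∧ 2 ≤ S.k z v ∧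
    S.k z v + S.W ≤ S.L
/-- The colouring after the exchanges of the other colours. -/
noncomputable def τ (z : Y V × Y V) : Fin Δ → V → V := seqF S.γ S.θ S.q S.R z.2 S.l (S.c.σ z.1)
/-- The intermediate colour class `α`. -/
noncomputable def A (z : Y V × Y V) : V → V :=
  shiftC S.a S.b S.L (S.mu z.1) (S.Lv z) (S.FR S.R z) (S.k z) (S.c.σ z.1) (S.c.σ z.1) S.α
/-- The new colour class `γ`. -/
noncomputable def C (z : Y V × Y V) : V → V := S.τ z S.γ
/-- Windows. -/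
def Wn (z : Y V × Y V) : V → Prop := Win (S.c.σ z.1) S.a S.b S.α S.L S.W (S.Lv z) (S.k z)
/-- Runners. -/
def Rn (x : Y V) (v : V) : Prop := S.c.σ x S.α v = v ∧ ∃ u, Unc G (S.c.σ x) v u ∧ S.c.σ x S.β u = u
/-- Active runners. -/
def Act (z : Y V × Y V) (v : V) : Prop := S.Rn z.1 v ∧ (z.2 (v, 2) : ℝ) < S.ps
/-- Arrivals. -/
def Ar (t : ℕ) (z : Y V × Y V) : V → Prop := Arr (S.A z) (S.C z) (S.Wn z) (S.Act z) t
/-- Vertices reached by an active runner. -/
def Hit (z : Y V × Y V) (v : V) : Prop := ∃ t, t < S.m ∧ S.Ar t z v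
/-- Final positions. -/
noncomputable def k' (z : Y V × Y V) : V → ℕ :=
  newPos (S.c.σ z.1) S.a S.b S.α S.W (S.k z) (S.Hit z)
/-- The final colouring. -/
noncomputable def fin (z : Y V × Y V) : Fin Δ → V → V :=
  shiftC S.a S.b S.L (S.mu z.1) (S.Lv z) (S.FR S.R z) (S.k' z) (S.c.σ z.1) (S.τ z)
/-- Conflicts. -/
def Bd' (z : Y V × Y V) : V → Prop :=
  Bad (S.c.σ z.1 S.a) (S.c.σ z.1 S.b) S.L S.W (S.Lv z) (S.k z) (S.Hit z)

lemma ok (z : Y V × Y V) :
    ShiftOK G (S.c.σ z.1) S.a S.b S.L (S.mu z.1) (S.Lv z) (S.FR S.R z) :=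
  ⟨S.c.proper _, S.ab, S.hmu.inv _, S.hunc _, fun v hv => hv.1,
    fun v hv j hj hF => hv.2.1 ((Ball.walk ((S.c.proper _).inv _) ((S.c.proper _).inv _) hF).mono
      (by omega)), fun v hv => hv.2.2.1⟩

lemma ec_σ : EC (G := G) act2 (fun z => S.c.σ z.1) := S.c.ec.fst
lemma ec_τ : EC (G := G) act2 S.τ :=
  S.ec_σ.seqF measurable_snd (fun _ _ => rfl) _ _ _ S.hγl

lemma a_not : S.a ∉ S.γ :: S.l := fun h => ((S.hl _).1 h).1 rfl
lemma b_not : S.b ∉ S.γ :: S.l := fun h => ((S.hl _).1 h).2 rfl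

lemma compat {o : V} (hF : FlipStmt G Δ o) (z : Y V × Y V) :
    Compat G (S.c.σ z.1) (S.τ z) S.a S.b :=
  ⟨S.ec_τ.proper z,
    hF.seq_other _ _ _ _ _ _ _ _ S.γa.symm fun h => S.a_not (List.mem_cons_of_mem _ h),
    hF.seq_other _ _ _ _ _ _ _ _ S.γb.symm fun h => S.b_not (List.mem_cons_of_mem _ h),
    hF.seq_unc _ _ _ _ _ _ _ S.hγl⟩

lemma ip_Sr : IP (G := G) act S.Sr := IP.src S.c.ec _ _ _ S.hmu.toEM
lemma ip_FR (R : ℕ) : IP (G := G) act2 (S.FR R) :=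
  IP.rf (S.ec_σ.em _) (S.ec_σ.em _) measurable_snd (fun _ _ => rfl) _ _ _ _
lemma in_k : IN (G := G) act2 S.k := fun Q => (in_pos S.L Q).snd
lemma ip_Lv : IP (G := G) act2 S.Lv :=
  S.ip_Sr.fst.and ((S.ip_FR _).not.and (((S.ip_FR _).comp S.hmu.toEM.fst).not.and
    ((S.in_k (fun n => 2 ≤ n)).and (S.in_k (fun n => n + S.W ≤ S.L)))))
lemma ei_A : EI (G := G) act2 S.A :=
  (EC.shiftC S.ec_σ S.ec_σ S.hmu.toEM.fst S.ip_Lv (S.ip_FR _) S.in_k S.ab S.ok
    fun z => Compat.refl (S.c.proper _)).ei S.α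
lemma ei_C : EI (G := G) act2 S.C := S.ec_τ.ei S.γ
lemma ip_Wn : IP (G := G) act2 S.Wn := IP.win S.ec_σ _ _ _ _ _ S.ip_Lv S.in_k
lemma ip_Rn : IP (G := G) act S.Rn := IP.dn S.c.ec _ _
lemma ip_Act : IP (G := G) act2 S.Act := S.ip_Rn.fst.and (IP.lab 2 S.ps).snd
lemma ip_Ar (t : ℕ) : IP (G := G) act2 (S.Ar t) :=
  IP.arr S.ei_A.toEM S.ei_C.toEM S.ip_Wn S.ip_Act t
lemma ip_Hit : IP (G := G) act2 S.Hit := IP.exists fun t => (IP.const _).and (S.ip_Ar t)
lemma in_k' : IN (G := G) act2 S.k' := IN.newPos S.ec_σ _ _ _ _ S.in_k S.ip_Hit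
lemma ec_fin {o : V} (hF : FlipStmt G Δ o) : EC (G := G) act2 S.fin :=
  EC.shiftC S.ec_σ S.ec_τ S.hmu.toEM.fst S.ip_Lv (S.ip_FR _) S.in_k' S.ab S.ok (S.compat hF)
lemma ip_Bd' : IP (G := G) act2 S.Bd' :=
  IP.bad (S.ec_σ.em _) (S.ec_σ.em _) _ _ S.ip_Lv S.in_k S.ip_Hit

lemma k_range (z : Y V × Y V) (v : V) (hv : S.Lv z v) : 2 ≤ S.k z v ∧ S.k z v + S.W ≤ S.L :=
  hv.2.2.2

lemma k'_range (z : Y V × Y V) (v : V) (hv : S.Lv z v) : 2 ≤ S.k' z v ∧ S.k' z v ≤ S.L := by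
  have h1 := S.k_range z v hv
  have h2 : S.k z v ≤ S.k' z v ∧ S.k' z v ≤ S.k z v + S.W := newPos_range v
  omega

/-! ### Locality -/

/-- `D` is closed under the `a b` edges and the matching. -/
structure ClosedA (x : Y V) (D : Set V) : Prop where
  ha : ∀ v ∈ D, S.c.σ x S.a v ∈ D
  hb : ∀ v ∈ D, S.c.σ x S.b v ∈ D
  hm : ∀ v ∈ D, S.mu x v ∈ D

variable {S}
variable {x y y' : Y V} {D : Set V}

lemma ClosedA.la (h : S.ClosedA x D) : Loc id D (S.c.σ x S.a) (S.c.σ x S.a) :=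
  ⟨h.ha, fun _ _ => rfl⟩
lemma ClosedA.lb (h : S.ClosedA x D) : Loc id D (S.c.σ x S.b) (S.c.σ x S.b) :=
  ⟨h.hb, fun _ _ => rfl⟩
lemma ClosedA.back (h : S.ClosedA x D) (j : ℕ) {v : V} (hv : v ∈ D) :
    back (S.c.σ x S.a) (S.c.σ x S.b) j v ∈ D := (h.la.back h.lb j).mem v hv
lemma ClosedA.walk (h : S.ClosedA x D) (j : ℕ) {v : V} (hv : v ∈ D) :
    walk (S.c.σ x S.a) (S.c.σ x S.b) j v ∈ D := (h.la.walk h.lb j).mem v hv

lemma ClosedA.FR (h : S.ClosedA x D) (h0 : ∀ v ∈ D, y' (v, 0) = y (v, 0)) (R : ℕ) {v : V}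
    (hv : v ∈ D) : S.FR R (x, y') v ↔ S.FR R (x, y) v := Loc.rf h.la h.lb h0 R hv

lemma k_congr {v : V} (h1 : y' (v, 1) = y (v, 1)) : S.k (x, y') v = S.k (x, y) v := by
  simp only [k, pos, h1]

lemma ClosedA.Lv (h : S.ClosedA x D) (h0 : ∀ v ∈ D, y' (v, 0) = y (v, 0))
    (h1 : ∀ v ∈ D, y' (v, 1) = y (v, 1)) {v : V} (hv : v ∈ D) :
    S.Lv (x, y') v ↔ S.Lv (x, y) v := by
  unfold Setup.Lv
  rw [h.FR h0 _ hv, h.FR h0 _ (h.hm v hv), k_congr (h1 v hv)]

lemma ClosedA.A (h : S.ClosedA x D) (h0 : ∀ v ∈ D, y' (v, 0) = y (v, 0))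
    (h1 : ∀ v ∈ D, y' (v, 1) = y (v, 1)) : Loc id D (S.A (x, y')) (S.A (x, y)) := by
  have hF : ∀ v ∈ D, (S.FR S.R (x, y') v ∨
      PP (S.c.σ x S.a) (S.c.σ x S.b) S.L (S.Lv (x, y')) (S.k (x, y')) v) ↔
      (S.FR S.R (x, y) (id v) ∨
      PP (S.c.σ x S.a) (S.c.σ x S.b) S.L (S.Lv (x, y)) (S.k (x, y)) (id v)) := by
    intro v hv
    refine or_congr (h.FR h0 _ hv) (exists_congr fun j => and_congr Iff.rfl ?_)
    rw [h.Lv h0 h1 (h.back j hv), k_congr (h1 _ (h.back j hv))]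
    rfl
  have hM : Loc id D (muL (S.mu x) (S.Lv (x, y'))) (muL (S.mu x) (S.Lv (x, y))) := by
    refine ⟨fun v hv => ?_, fun v hv => ?_⟩
    · unfold muL; split_ifs
      · exact h.hm v hv
      · exact hv
    · simp only [muL, id, h.Lv h0 h1 hv, h.Lv h0 h1 (h.hm v hv)]
  unfold Setup.A shiftC
  rcases S.hα with e | e <;> rw [e]
  · simp only [colourC_self, flipC_left]
    exact Loc.col1 injective_id (Loc.flip1 h.la h.lb hF) hM
  · simp only [colourC_other S.ab.symm, flipC_right S.ab]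
    exact Loc.flip1 h.lb h.la hF

lemma ClosedA.Wn (h : S.ClosedA x D) (h0 : ∀ v ∈ D, y' (v, 0) = y (v, 0))
    (h1 : ∀ v ∈ D, y' (v, 1) = y (v, 1)) {v : V} (hv : v ∈ D) :
    S.Wn (x, y') v ↔ S.Wn (x, y) v := by
  refine exists_congr fun j => and_congr Iff.rfl ?_
  simp only
  rw [h.Lv h0 h1 (h.back j hv), k_congr (h1 _ (h.back j hv))]

variable (S)

/-- Edges whose colour is neither `a` nor `b`. -/
def ClB (x : Y V) (v w : V) : Prop := ∃ p, p ≠ S.a ∧ p ≠ S.b ∧ S.c.σ x p v = w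
/-- The side of `z` behind the uncoloured and the `a b` edges. -/
def SA (x : Y V) (z : V) : V → Prop := Side G z (fun w => ¬ S.ClB x z w)
/-- The side of `z` behind the other edges. -/
def SB (x : Y V) (z : V) : V → Prop := Side G z (S.ClB x z)
/-- The labels on the first side. -/
def ΩA (x : Y V) (z : V) : Set (V × ℕ) := {i | S.SA x z i.1 ∨ (i.1 = z ∧ i.2 < 3)}
/-- The labels on the second side. -/
def ΩB (x : Y V) (z : V) : Set (V × ℕ) := {i | S.SB x z i.1 ∨ (i.1 = z ∧ 3 ≤ i.2)}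

variable {S}

lemma ClB.symm {v w : V} (h : S.ClB x v w) : S.ClB x w v := by
  obtain ⟨p, h1, h2, h3⟩ := h
  exact ⟨p, h1, h2, by rw [← h3, (S.c.proper x).inv]⟩

lemma not_clB {v : V} {p : Fin Δ} (hp : p = S.a ∨ p = S.b) (h : S.c.σ x p v ≠ v) :
    ¬ S.ClB x v (S.c.σ x p v) := by
  rintro ⟨p', h1, h2, h3⟩
  refine (S.c.proper x).disj p p' v ?_ h h3.symm
  rcases hp with rfl | rfl
  · exact h1.symm
  · exact h2.symm

lemma not_clB_mu {v : V} (h : S.mu x v ≠ v) : ¬ S.ClB x v (S.mu x v) := by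
  rintro ⟨p', _, _, h3⟩
  exact (S.hunc x v h).2 p' h3

lemma side_step {z v w : V} {P : V → Prop} (hv : Side G z P v ∨ v = z) (e : w = v ∨
    (G.Adj v w ∧ (v = z → P w))) : Side G z P w ∨ w = z := by
  rcases e with rfl | ⟨e1, e2⟩
  · exact hv
  · by_cases hw : w = z
    · exact Or.inr hw
    · rcases hv with hv | rfl
      · exact Or.inl (hv.step e1 hw)
      · exact Or.inl (Side.base e1 (e2 rfl))

lemma closedA_DA (x : Y V) (z : V) : S.ClosedA x {v | S.SA x z v ∨ v = z} := by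
  have key : ∀ p, p = S.a ∨ p = S.b → ∀ v ∈ {v | S.SA x z v ∨ v = z},
      S.c.σ x p v ∈ {v | S.SA x z v ∨ v = z} := by
    intro p hp v hv
    refine side_step hv ?_
    by_cases h : S.c.σ x p v = v
    · exact Or.inl h
    · exact Or.inr ⟨(S.c.proper x).adj p v h, fun e => e ▸ not_clB hp h⟩
  refine ⟨key _ (Or.inl rfl), key _ (Or.inr rfl), fun v hv => side_step hv ?_⟩
  by_cases h : S.mu x v = v
  · exact Or.inl h
  · exact Or.inr ⟨S.hmu.adj x v h, fun e => e ▸ not_clB_mu h⟩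

lemma closedB_DB (x : Y V) (z : V) (p : Fin Δ) (hp : p ∈ S.γ :: S.l) :
    Loc id {v | S.SB x z v ∨ v = z} (S.c.σ x p) (S.c.σ x p) := by
  refine ⟨fun v hv => side_step hv ?_, fun _ _ => rfl⟩
  by_cases h : S.c.σ x p v = v
  · exact Or.inl h
  · exact Or.inr ⟨(S.c.proper x).adj p v h,
      fun e => e ▸ ⟨p, ((S.hl p).1 hp).1, ((S.hl p).1 hp).2, rfl⟩⟩

lemma agree_A {z : V} (h : ∀ i ∈ S.ΩA x z, y i = y' i) {n : ℕ} (hn : n < 3) :
    ∀ v ∈ {v | S.SA x z v ∨ v = z}, y (v, n) = y' (v, n) :=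
  fun v hv => h (v, n) (hv.imp id fun e => ⟨e, hn⟩)

lemma SA_SB (hG : G.IsAcyclic) {z v : V} (h1 : S.SA x z v) (h2 : S.SB x z v) : False :=
  Side.disj hG (fun _ h => not_not.2 |>.mt fun hh => hh (by simpa using h)) h2 h1

lemma ΩB_subset (hG : G.IsAcyclic) {z w : V} (h1 : S.SA x z w) (h2 : S.SA x w z) :
    S.ΩB x w ⊆ S.ΩA x z := by
  rintro i (hi | hi)
  · exact Or.inl (Side.subset h1 (fun h => SA_SB hG h2 h) hi)
  · exact Or.inl (hi.1 ▸ h1)

lemma A_class {v : V} (h : S.A (x, y) v ≠ v) : ¬ S.ClB x v (S.A (x, y) v) := by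
  rcases (S.ok (x, y)).shift_cases (κ := S.k (x, y)) S.hα v with e | e | e | e
  · exact absurd e h
  all_goals
    have e' : S.A (x, y) v = _ := e
    rw [e'] at h ⊢
  · exact not_clB (Or.inl rfl) h
  · exact not_clB (Or.inr rfl) h
  · exact not_clB_mu h

variable (S)

lemma markov (hG : G.IsAcyclic) {o : V} (hF : FlipStmt G Δ o) :
    Markov G S.A S.C S.Wn S.Act S.ΩA S.ΩB := by
  refine ⟨S.ei_A, S.ei_C, S.ip_Wn, S.ip_Act, fun x v => ?_, fun x v y y' h => ?_,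
    fun x v y y' h => ?_, fun x v y y' h => ?_, fun x v y y' h => ?_, fun x v y y' h => ?_,
    fun x y v h => ?_, fun x y v h => ?_⟩
  · rw [Set.disjoint_left]
    rintro i (h1 | h1) (h2 | h2)
    · exact SA_SB hG h1 h2
    · exact h1.ne h2.1
    · exact h2.ne h1.1
    · omega
  · exact (hF.seq_loc S.γ S.θ S.q S.R y' y S.l _ _ {w | S.SB x v w ∨ w = v} S.hγl
      (closedB_DB x v) (fun w hw n hn => h (w, n) (hw.imp id fun e => ⟨e, hn⟩)) S.γ
      (by simp)).eq v (Or.inr rfl)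
  · exact ((closedA_DA x v).A (agree_A h (by norm_num)) (agree_A h (by norm_num))).eq v
      (Or.inr rfl)
  · exact propext ((closedA_DA x v).Wn (agree_A h (by norm_num)) (agree_A h (by norm_num))
      (Or.inr rfl))
  · have hl := (closedA_DA x v).A (agree_A h (by norm_num)) (agree_A h (by norm_num))
    have e : S.A (x, y) v = S.A (x, y') v := hl.eq v (Or.inr rfl)
    show S.Wn (x, y) (S.A (x, y) v) = S.Wn (x, y') (S.A (x, y') v)
    rw [← e]
    exact propext ((closedA_DA x v).Wn (agree_A h (by norm_num)) (agree_A h (by norm_num))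
      (hl.mem v (Or.inr rfl)))
  · show S.Act (x, y) v = S.Act (x, y') v
    unfold Act
    simp only [h (v, 2) (Or.inr ⟨rfl, by norm_num⟩)]
  · have hadj := S.ei_C.adj _ _ h
    have hcl : S.ClB x v (S.C (x, y) v) := by
      rcases hF.seq_cases S.γ S.θ S.q S.R y S.l (S.c.σ x) S.hγl v with e | ⟨p, hp, e⟩
      · exact absurd e h
      · exact ⟨p, ((S.hl p).1 hp).1, ((S.hl p).1 hp).2, e.symm⟩
    have h1 : S.SB x v (S.C (x, y) v) := Side.base hadj hcl
    rintro i (hi | hi)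
    · exact Or.inl (Side.subset h1 (fun hh => Side.of_adj hG
        (P := fun w => ¬ S.ClB x (S.C (x, y) v) w) hh hadj.symm hcl.symm) hi)
    · exact Or.inl (hi.1 ▸ h1)
  · have hadj := S.ei_A.adj _ _ h
    have hcl := A_class h
    exact ΩB_subset hG (Side.base hadj hcl) (Side.base hadj.symm fun hh => hcl hh.symm)

end Setup

end Pool.Agent.MP_93f6c7_pr
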