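import Mathlib

/-!
# Factor of iid edge colourings of the regular tree: definitions

A (not necessarily complete) proper edge colouring is stored as a family of involutions
`σ p : V → V`, one for each colour `p`: `σ p v` is the other end of the edge of colour `p` at `v`,
and `σ p v = v` when colour `p` is missing at `v` (a hole).
-/

set_option autoImplicit false
open MeasureTheory
open scoped Classical

namespace Pool.Agent.MP_93f6c7_pr

/-- The label space: countably many uniform labels at each vertex. -/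
abbrev Y (V : Type) : Type := V × ℕ → unitInterval

/-- The product measure on the label space. -/
noncomputable def nu (V : Type) : Measure (Y V) :=
  Measure.infinitePi (fun _ : V × ℕ => (volume : Measure unitInterval))

instance nu_prob (V : Type) : IsProbabilityMeasure (nu V) := by
  unfold nu; infer_instance

variable {V : Type}

/-- The action of a graph automorphism on labels. -/
def act {G : SimpleGraph V} (φ : G ≃g G) (y : Y V) : Y V := fun i => y (φ i.1, i.2)

/-- Reindexing of the labels at each vertex. -/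
def reix (j : ℕ → ℕ) (y : Y V) : Y V := fun i => y (i.1, j i.2)

/-- The probability of an event, as a real number. -/
noncomputable def Pr {Z : Type} [MeasurableSpace Z] (μ : Measure Z) (E : Z → Prop) : ℝ :=
  μ.real {z | E z}

/-- Regular tree of degree at least three. -/
structure RT (G : SimpleGraph V) [G.LocallyFinite] (Δ : ℕ) : Prop where
  tree : G.IsTree
  reg : ∀ v, G.degree v = Δ
  three : 3 ≤ Δ

/-- Every edge can be reversed by an automorphism. -/
def HasSwaps (G : SimpleGraph V) : Prop :=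
  ∀ u w, G.Adj u w → ∃ φ : G ≃g G, φ u = w ∧ φ w = u

/-- Spectral gap for bounded equivariant functions of the labels. -/
def HasGap (G : SimpleGraph V) [G.LocallyFinite] (o : V) : Prop :=
  ∀ (H : Y V → V → ℝ) (g : Y V → ℝ) (B : ℝ), (∀ v, Measurable (fun y => H y v)) →
    Measurable g → (∀ y v, |H y v| ≤ B) → (∀ y, |g y| ≤ B) →
    (∀ (φ : G ≃g G) y v, H (act φ y) v = H y (φ v)) →
    ∫ y, (H y o - ∫ x, H x o ∂(nu V)) ^ 2 ∂(nu V) ≤
      6 * ∑ w ∈ G.neighborFinset o, ∫ y, (H y w - g y) ^ 2 ∂(nu V)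

/-- The alternating walk `v, f v, g (f v), ...`. -/
def walk (f g : V → V) : ℕ → V → V
  | 0, v => v
  | n + 1, v => walk g f n (f v)

/-- The first `n` steps of the alternating walk all move. -/
def Free (f g : V → V) : ℕ → V → Prop
  | 0, _ => True
  | n + 1, v => f v ≠ v ∧ Free g f n (f v)

/-- Proper edge colouring of a subset of the edges. -/
structure Proper (G : SimpleGraph V) {Δ : ℕ} (σ : Fin Δ → V → V) : Prop where
  inv : ∀ p, Function.Involutive (σ p)
  adj : ∀ p v, σ p v ≠ v → G.Adj v (σ p v)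
  disj : ∀ p q v, p ≠ q → σ p v ≠ v → σ p v ≠ σ q v

/-- The edge `v w` is uncoloured. -/
def Unc (G : SimpleGraph V) {Δ : ℕ} (σ : Fin Δ → V → V) (v w : V) : Prop :=
  G.Adj v w ∧ ∀ p, σ p v ≠ w

/-- A factor of iid proper colouring of a subset of the edges. -/
structure FC [MeasurableSpace V] (G : SimpleGraph V) (Δ : ℕ) where
  σ : Y V → Fin Δ → V → V
  meas : Measurable σ
  proper : ∀ y, Proper G (σ y)
  eqv : ∀ (φ : G ≃g G) y p v, φ (σ (act φ y) p v) = σ y p (φ v)

variable [MeasurableSpace V] {G : SimpleGraph V} {Δ : ℕ}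

/-- Expected number of holes at the root. -/
noncomputable def FC.hol (c : FC G Δ) (o : V) : ℝ :=
  ∑ p : Fin Δ, Pr (nu V) (fun y => c.σ y p o = o)

/-- `c'` differs from (a reindexed copy of) `c` at the root with probability at most `ε`. -/
def FC.Near (c c' : FC G Δ) (o : V) (ε : ℝ) : Prop :=
  ∃ j : ℕ → ℕ, Function.Injective j ∧
    Pr (nu V) (fun y => ∃ p, c'.σ y p o ≠ c.σ (reix j y) p o) ≤ ε

/-- The root misses `α` and has an uncoloured edge to a vertex missing `β`. -/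
noncomputable def FC.Dn (c : FC G Δ) (o : V) (α β : Fin Δ) : ℝ :=
  Pr (nu V) (fun y => c.σ y α o = o ∧ ∃ u, Unc G (c.σ y) o u ∧ c.σ y β u = u)

/-- As `Dn`, and the `γ α` alternating path from the root has fewer than `l` edges. -/
noncomputable def FC.Sh (c : FC G Δ) (o : V) (α γ β : Fin Δ) (l : ℕ) : ℝ :=
  Pr (nu V) (fun y => c.σ y α o = o ∧ ¬ Free (c.σ y γ) (c.σ y α) l o ∧
    ∃ u, Unc G (c.σ y) o u ∧ c.σ y β u = u)

/-- As `Dn b a`, and the `a b` alternating path from the root has at least `l` edges. -/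
noncomputable def FC.Lg (c : FC G Δ) (o : V) (a b : Fin Δ) (l : ℕ) : ℝ :=
  Pr (nu V) (fun y => c.σ y b o = o ∧ Free (c.σ y a) (c.σ y b) l o ∧
    ∃ u, Unc G (c.σ y) o u ∧ c.σ y a u = u)

/-- The main probabilistic lemma. -/
def RunStmt (G : SimpleGraph V) (Δ : ℕ) (o : V) : Prop :=
  ∀ δ : ℝ, 0 < δ → ∃ κ : ℝ, 0 < κ ∧ ∃ (C : ℝ) (N₀ : ℕ), ∀ N : ℕ, N₀ ≤ N → ∀ e : ℝ, 0 < e →
    e ≤ 1 / (N : ℝ) ^ 8 → ∃ L l : ℕ, (L : ℝ) * e ≤ C / N ∧ (l : ℝ) * e ≤ C / N ∧
      ∀ (c : FC G Δ) (a b γ α β : Fin Δ), a ≠ b → γ ≠ a → γ ≠ b → (α = a ∨ α = b) →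
        c.hol o ≤ e → δ * e ≤ c.Lg o a b L → δ * e ≤ c.Dn o α β →
        ∃ c' : FC G Δ, c.Near c' o (C / N) ∧ c'.hol o ≤ c.hol o + C / N * e ∧
          κ * e ≤ c'.Sh o α γ β l ∧ c.Dn o b a / 2 ≤ c'.Dn o b a

/-- One improvement step. -/
def ImproveStmt (G : SimpleGraph V) (Δ : ℕ) (o : V) : Prop :=
  ∃ κ : ℝ, 0 < κ ∧
    (∀ c : FC G Δ, ∃ c' : FC G Δ, c.Near c' o 1 ∧ c'.hol o ≤ (1 - κ) * c.hol o) ∧
    ∃ (C : ℝ) (N₀ : ℕ), ∀ N : ℕ, N₀ ≤ N → ∀ c : FC G Δ, c.hol o ≤ 1 / (N : ℝ) ^ 9 →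
      ∃ c' : FC G Δ, c.Near c' o (C / N) ∧ c'.hol o ≤ (1 - κ) * c.hol o

end Pool.Agent.MP_93f6c7_pr
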