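import Pool.Agent.MP_93f6c7_pr.Defs

set_option autoImplicit false
open MeasureTheory Filter Topology
open scoped Classical

namespace Pool.Agent.MP_93f6c7_pr

namespace Fin'

theorem exists_seq {A : Type} (R : A → A → ℝ → Prop) (h : A → ℝ) (h0 : ∀ c, 0 ≤ h c) (c0 : A)
    {κ : ℝ} (hκ : 0 < κ) (H1 : ∀ c, ∃ c', R c c' 1 ∧ h c' ≤ (1 - κ) * h c) (C : ℝ) (N₀ : ℕ)
    (H2 : ∀ N : ℕ, N₀ ≤ N → ∀ c, h c ≤ 1 / (N : ℝ) ^ 9 →
      ∃ c', R c c' (C / N) ∧ h c' ≤ (1 - κ) * h c) :
    ∃ (c : ℕ → A) (ε : ℕ → ℝ), Summable ε ∧ Summable (fun n => h (c n)) ∧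
      ∀ n, R (c n) (c (n + 1)) (ε n) := by
  set θ : ℝ := 1 - min κ (1 / 2) with hθ
  have hθ0 : 0 < θ := by have := min_le_right κ (1 / 2); linarith
  have hθ1 : θ < 1 := by have := lt_min hκ (by norm_num : (0 : ℝ) < 1 / 2); linarith
  have hθκ : 1 - κ ≤ θ := by have := min_le_left κ (1 / 2); linarith
  have ht : Tendsto (fun n : ℕ => h c0 / θ * (((n + 1 : ℕ) : ℝ) ^ 18 * θ ^ (n + 1))) atTop
      (𝓝 (h c0 / θ * 0)) :=
    ((tendsto_pow_const_mul_const_pow_of_abs_lt_one 18 (r := θ)
      (abs_lt.2 ⟨by linarith, hθ1⟩)).comp (tendsto_add_atTop_nat 1)).const_mul _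
  rw [mul_zero] at ht
  obtain ⟨n0, hn0⟩ := eventually_atTop.1
    ((ht.eventually (gt_mem_nhds one_pos)).and (eventually_ge_atTop N₀))
  set ε : ℕ → ℝ := fun n => if n < n0 then 1 else C / (((n + 1) ^ 2 : ℕ) : ℝ) with hε
  have step : ∀ (n : ℕ) (c : A), h c ≤ h c0 * θ ^ n →
      ∃ c', R c c' (ε n) ∧ h c' ≤ h c0 * θ ^ (n + 1) := by
    intro n c hc
    have key : ∀ c', h c' ≤ (1 - κ) * h c → h c' ≤ h c0 * θ ^ (n + 1) := fun c' hc' => by
      have e1 : (1 - κ) * h c ≤ θ * h c := mul_le_mul_of_nonneg_right hθκ (h0 c)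
      have e2 : θ * h c ≤ θ * (h c0 * θ ^ n) := mul_le_mul_of_nonneg_left hc hθ0.le
      rw [pow_succ]; linarith
    by_cases hn : n < n0
    · obtain ⟨c', h1, h2⟩ := H1 c
      exact ⟨c', by simpa [hε, hn] using h1, key c' h2⟩
    · obtain ⟨h3, h4⟩ := hn0 n (not_lt.1 hn)
      obtain ⟨c', h1, h2⟩ := H2 ((n + 1) ^ 2) (by nlinarith) c (by
        refine hc.trans ?_
        rw [le_div_iff₀ (by positivity)]
        refine le_trans (le_of_eq ?_) h3.le
        push_cast
        field_simp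
        ring)
      exact ⟨c', by simpa only [hε, hn, if_false] using h1, key c' h2⟩
  choose f hf1 hf2 using step
  let u : (n : ℕ) → {c : A // h c ≤ h c0 * θ ^ n} := fun n =>
    Nat.rec ⟨c0, by simp⟩ (fun n c => ⟨f n c.1 c.2, hf2 n c.1 c.2⟩) n
  refine ⟨fun n => (u n).1, ε, ?_, ?_, fun n => hf1 n (u n).1 (u n).2⟩
  · rw [← summable_nat_add_iff n0]
    have : Summable fun n : ℕ => C * (1 / ((n + (n0 + 1) : ℕ) : ℝ) ^ 2) :=
      ((summable_nat_add_iff (n0 + 1)).2 (Real.summable_one_div_nat_pow.2 one_lt_two)).mul_left C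
    refine this.congr fun n => ?_
    simp only [hε, not_lt.2 (Nat.le_add_left n0 n), if_false]
    push_cast
    ring
  · exact Summable.of_nonneg_of_le (fun n => h0 _) (fun n => (u n).2)
      ((summable_geometric_of_lt_one hθ0.le hθ1).mul_left _)

theorem exists_J (j : ℕ → ℕ → ℕ) (hj : ∀ n, Function.Injective (j n)) :
    ∃ J : ℕ → ℕ → ℕ × ℕ, (∀ n, Function.Injective (J n)) ∧ ∀ n m, J (n + 1) (j n m) = J n m := by
  let J : ℕ → ℕ → ℕ × ℕ := fun n => Nat.rec (fun m => (0, m))
    (fun n J => Function.extend (j n) J fun m => (n + 1, m)) n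
  have hJ : ∀ n, J (n + 1) = Function.extend (j n) (J n) fun m => (n + 1, m) := fun n => rfl
  have key : ∀ n, Function.Injective (J n) ∧ ∀ m, (J n m).1 ≤ n := by
    intro n
    induction n with
    | zero => exact ⟨fun a b hab => (Prod.ext_iff.1 hab).2, fun m => le_rfl⟩
    | succ n ih =>
      have hv : ∀ m, (∃ m', j n m' = m ∧ J (n + 1) m = J n m') ∨ J (n + 1) m = (n + 1, m) := by
        intro m
        by_cases hm : ∃ m', j n m' = m
        · obtain ⟨m', rfl⟩ := hm
          exact Or.inl ⟨m', rfl, by rw [hJ, (hj n).extend_apply]⟩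
        · exact Or.inr (by rw [hJ, Function.extend_apply' _ _ _ hm])
      constructor
      · intro a b hab
        rcases hv a with ⟨a', rfl, ha⟩ | ha <;> rcases hv b with ⟨b', rfl, hb⟩ | hb <;>
          rw [ha, hb] at hab
        · rw [ih.1 hab]
        · have := ih.2 a'; rw [hab] at this; simp at this
        · have := ih.2 b'; rw [← hab] at this; simp at this
        · exact (Prod.ext_iff.1 hab).2
      · intro m
        rcases hv m with ⟨m', -, ha⟩ | ha <;> rw [ha]
        exact (ih.2 m').trans (Nat.le_succ n)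
  exact ⟨J, fun n => (key n).1, fun n m => by rw [hJ, (hj n).extend_apply]⟩

/-- The product measure on single labels. -/
noncomputable def mu (V : Type) : Measure (V → unitInterval) :=
  Measure.infinitePi (fun _ : V => (volume : Measure unitInterval))

theorem mp_r (V : Type) {g : unitInterval → ℕ × ℕ → unitInterval} (hg : Measurable g)
    (hg' : volume.map g = Measure.infinitePi fun _ : ℕ × ℕ => (volume : Measure unitInterval))
    {J : ℕ → ℕ × ℕ} (hJ : Function.Injective J) :
    MeasurePreserving (fun (x : V → unitInterval) (i : V × ℕ) => g (x i.1) (J i.2)) (mu V)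
      (nu V) := by
  have h1 : MeasurePreserving (fun (x : V → unitInterval) (v : V) => g (x v)) (mu V)
      (Measure.infinitePi fun _ : V =>
        Measure.infinitePi fun _ : ℕ × ℕ => (volume : Measure unitInterval)) :=
    ⟨by fun_prop, by
      rw [mu, Measure.infinitePi_map_pi (f := fun _ : V => g) _ fun _ => hg]
      simp only [hg']⟩
  have h2 : MeasurePreserving (MeasurableEquiv.curry V (ℕ × ℕ) unitInterval).symm
      (Measure.infinitePi fun _ : V =>
        Measure.infinitePi fun _ : ℕ × ℕ => (volume : Measure unitInterval))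
      (Measure.infinitePi fun _ : V × (ℕ × ℕ) => (volume : Measure unitInterval)) :=
    ⟨by fun_prop, Measure.infinitePi_map_curry_symm fun _ _ => volume⟩
  have h3 : MeasurePreserving
      (fun (z : V × (ℕ × ℕ) → unitInterval) (i : V × ℕ) => z (i.1, J i.2))
      (Measure.infinitePi fun _ : V × (ℕ × ℕ) => (volume : Measure unitInterval)) (nu V) :=
    ⟨by fun_prop, Measure.map_infinitePi_infinitePi_of_inj (f := fun i : V × ℕ => (i.1, J i.2))
      fun a b hab => Prod.ext (Prod.ext_iff.1 hab).1 (hJ (Prod.ext_iff.1 hab).2)⟩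
  exact (h3.comp h2).comp h1

theorem mp_perm {V : Type} {φ : V → V} (hφ : Function.Injective φ) :
    MeasurePreserving (fun (x : V → unitInterval) (i : V) => x (φ i)) (mu V) (mu V) :=
  ⟨by fun_prop, Measure.map_infinitePi_infinitePi_of_inj hφ⟩

theorem ae_eventually_not {Z W : Type} [MeasurableSpace Z] [MeasurableSpace W] {μ : Measure Z}
    {ν : Measure W} [IsFiniteMeasure ν] {r : ℕ → Z → W} (hr : ∀ n, MeasurePreserving (r n) μ ν)
    (E : ℕ → W → Prop) {ε : ℕ → ℝ} (hε : Summable ε) (hE : ∀ n, Pr ν (E n) ≤ ε n) :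
    ∀ᵐ x ∂μ, ∀ᶠ n in atTop, ¬ E n (r n x) := by
  refine ae_eventually_notMem (s := fun n => r n ⁻¹' {y | E n y}) (ne_top_of_le_ne_top
    (b := ∑' n, ENNReal.ofReal (ε n)) ?_ (ENNReal.tsum_le_tsum fun n => ?_))
  · rw [← ENNReal.ofReal_tsum_of_nonneg (fun n => le_trans measureReal_nonneg (hE n)) hε]
    exact ENNReal.ofReal_ne_top
  · refine ((hr n).measure_preimage_le _).trans ?_
    rw [← ofReal_measureReal (measure_ne_top ν _)]
    exact ENNReal.ofReal_le_ofReal (hE n)

theorem exists_iso {V : Type} {G : SimpleGraph V} (hs : HasSwaps G) {u v : V} (w : G.Walk u v) :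
    ∃ φ : G ≃g G, φ u = v := by
  induction w with
  | nil => exact ⟨SimpleGraph.Iso.refl, rfl⟩
  | cons h p ih =>
    obtain ⟨φ, hφ⟩ := ih
    obtain ⟨ψ, hψ, -⟩ := hs _ _ h
    exact ⟨ψ.trans φ, by simp [hψ, hφ]⟩

theorem countable_of_connected {V : Type} {G : SimpleGraph V} [G.LocallyFinite]
    (hc : G.Connected) : Countable V := by
  obtain ⟨o⟩ := hc.nonempty
  have hB : ∀ (n : ℕ) (u : V), {v | ∃ w : G.Walk u v, w.length = n}.Countable := by
    intro n
    induction n with
    | zero =>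
      intro u
      refine (Set.countable_singleton u).mono ?_
      rintro v ⟨w, hw⟩
      exact (SimpleGraph.Walk.eq_of_length_eq_zero hw).symm
    | succ n ih =>
      intro u
      refine ((G.neighborSet u).toFinite.countable.biUnion fun v _ => ih v).mono ?_
      rintro v ⟨w, hw⟩
      cases w with
      | nil => simp at hw
      | cons h p => exact Set.mem_biUnion h ⟨p, by simpa using hw⟩
  rw [← Set.countable_univ_iff]
  refine (Set.countable_iUnion fun n => hB n o).mono fun v _ => ?_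
  obtain ⟨w⟩ := hc o v
  exact Set.mem_iUnion.2 ⟨_, w, rfl⟩

/-- A chosen element satisfying a predicate, if there is one. -/
noncomputable def pick {B : Type} (b : B) (P : B → Prop) : B := if h : ∃ p, P p then h.choose else b

theorem pick_spec {B : Type} (b : B) {P : B → Prop} (h : ∃ p, P p) : P (pick b P) := by
  rw [pick, dif_pos h]; exact h.choose_spec

section Limit

variable {V : Type} {G : SimpleGraph V} {Δ : ℕ}

/-- Colour `p` is eventually on the pair `e`. -/
def Q (t : ℕ → Fin Δ → V → V) (e : Sym2 V) (p : Fin Δ) : Prop :=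
  ∃ u v, e = s(u, v) ∧ ∃ N, ∀ n, N ≤ n → t n p u = v

/-- The table at `v` stabilises and has no hole. -/
def GoodAt (t : ℕ → Fin Δ → V → V) (v : V) : Prop :=
  (∀ᶠ n in atTop, ¬ ∃ p, t (n + 1) p v ≠ t n p v) ∧ ∀ᶠ n in atTop, ¬ ∃ p, t n p v = v

theorem Q_map (φ : G ≃g G) {t t' : ℕ → Fin Δ → V → V} (h : ∀ n p v, φ (t' n p v) = t n p (φ v))
    (e : Sym2 V) : Q t' e = Q t (Sym2.map φ e) := by
  funext p
  apply propext
  constructor
  · rintro ⟨u, v, rfl, N, hN⟩
    exact ⟨φ u, φ v, by simp, N, fun n hn => by rw [← h, hN n hn]⟩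
  · rintro ⟨u, v, he, N, hN⟩
    refine ⟨φ.symm u, φ.symm v, ?_, N, fun n hn => ?_⟩
    · have : Sym2.map φ.symm (Sym2.map φ e) = e := by
        rw [Sym2.map_map]; simp
      rw [← this, he]; simp
    · apply φ.injective
      rw [h]; simpa using hN n hn

theorem GoodAt.map (φ : G ≃g G) {t t' : ℕ → Fin Δ → V → V}
    (h : ∀ n p v, φ (t' n p v) = t n p (φ v)) {v : V} (hv : GoodAt t' v) : GoodAt t (φ v) := by
  constructor
  · filter_upwards [hv.1] with n hn
    rintro ⟨p, hp⟩
    exact hn ⟨p, fun e => hp (by rw [← h, ← h, e])⟩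
  · filter_upwards [hv.2] with n hn
    rintro ⟨p, hp⟩
    exact hn ⟨p, φ.injective (by rw [h]; exact hp)⟩

theorem Q.ev {t : ℕ → Fin Δ → V → V} (ht : ∀ n, Proper G (t n)) {u v : V} {p : Fin Δ}
    (h : Q t s(u, v) p) : ∀ᶠ n in atTop, t n p u = v := by
  obtain ⟨a, b, he, N, hN⟩ := h
  filter_upwards [eventually_ge_atTop N] with n hn
  rcases Sym2.eq_iff.1 he with ⟨rfl, rfl⟩ | ⟨rfl, rfl⟩
  · exact hN n hn
  · rw [← hN n hn]; exact (ht n).inv p _

theorem GoodAt.exists_Q [G.LocallyFinite] {t : ℕ → Fin Δ → V → V} (ht : ∀ n, Proper G (t n))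
    {u v : V} (hd : G.degree u = Δ) (hu : GoodAt t u) (huv : G.Adj u v) : ∃ p, Q t s(u, v) p := by
  obtain ⟨N, hN⟩ := eventually_atTop.1 (hu.1.and hu.2)
  have h1 : ∀ n, N ≤ n → ∀ p, t n p u = t N p u := by
    intro n hn
    induction n, hn using Nat.le_induction with
    | base => exact fun _ => rfl
    | succ n hn ih =>
      intro p
      rw [← ih p]
      by_contra hc
      exact (hN n hn).1 ⟨p, hc⟩
  have h2 : ∀ p, t N p u ≠ u := fun p hp => (hN N le_rfl).2 ⟨p, hp⟩
  let f : Fin Δ → G.neighborSet u := fun p => ⟨t N p u, (ht N).adj p u (h2 p)⟩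
  have hf : Function.Injective f := fun p q hpq => by
    by_contra hc
    exact (ht N).disj p q u hc (h2 p) (congrArg Subtype.val hpq)
  have hb : Function.Bijective f := (Fintype.bijective_iff_injective_and_card f).2
    ⟨hf, by rw [Fintype.card_fin, SimpleGraph.card_neighborSet_eq_degree, hd]⟩
  obtain ⟨p, hp⟩ := hb.2 ⟨v, huv⟩
  exact ⟨p, u, v, rfl, N, fun n hn => (h1 n hn p).trans (congrArg Subtype.val hp)⟩

end Limit

theorem hol_nonneg {V : Type} [MeasurableSpace V] {G : SimpleGraph V} {Δ : ℕ} (c : FC G Δ)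
    (o : V) : 0 ≤ c.hol o := Finset.sum_nonneg fun _ _ => measureReal_nonneg

theorem Pr_hole_le {V : Type} [MeasurableSpace V] {G : SimpleGraph V} {Δ : ℕ} (c : FC G Δ)
    (o : V) : Pr (nu V) (fun y => ∃ p, c.σ y p o = o) ≤ c.hol o := by
  have : {y | ∃ p, c.σ y p o = o} = ⋃ p, {y | c.σ y p o = o} := by ext y; simp
  rw [Pr, this]
  exact measureReal_iUnion_fintype_le _

/-- The empty colouring. -/
def empty {V : Type} [MeasurableSpace V] (G : SimpleGraph V) (Δ : ℕ) : FC G Δ where
  σ := fun _ _ v => v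
  meas := measurable_const
  proper := fun _ => ⟨fun _ _ => rfl, fun _ _ h => (h rfl).elim, fun _ _ _ _ h => (h rfl).elim⟩
  eqv := fun _ _ _ _ => rfl

theorem main {V : Type} [MeasurableSpace V] [DiscreteMeasurableSpace V] [Countable V]
    {G : SimpleGraph V} [G.LocallyFinite] {Δ : ℕ} (hG : RT G Δ) (hs : HasSwaps G) (o : V)
    (hI : ImproveStmt G Δ o) :
    ∃ F : (V → unitInterval) → (Sym2 V → Fin Δ),
      Measurable F ∧
      (∀ (φ : G ≃g G) (x : V → unitInterval) (e : Sym2 V),
        F (fun i : V => x (φ i)) e = F x (Sym2.map φ e)) ∧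
      ∀ᵐ x ∂(mu V), ∀ u v w : V, G.Adj u v → G.Adj u w → v ≠ w → F x s(u, v) ≠ F x s(u, w) := by
  obtain ⟨κ, hκ, H1, C, N₀, H2⟩ := hI
  obtain ⟨c, ε, hε, hh, hc⟩ := exists_seq (fun (c c' : FC G Δ) ε => c.Near c' o ε)
    (fun c => c.hol o) (fun c => hol_nonneg c o) (empty G Δ) hκ H1 C N₀ H2
  choose j hj hj' using hc
  obtain ⟨J, hJ, hJj⟩ := exists_J j hj
  obtain ⟨g, hg, hg'⟩ := Measure.exists_measurable_map_eq
    (Measure.infinitePi fun _ : ℕ × ℕ => (volume : Measure unitInterval))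
  let r : ℕ → (V → unitInterval) → Y V := fun n x i => g (x i.1) (J n i.2)
  have hr : ∀ n, MeasurePreserving (r n) (mu V) (nu V) := fun n => mp_r V hg hg' (hJ n)
  have hre : ∀ n x, reix (j n) (r (n + 1) x) = r n x := fun n x => by
    funext i
    simp only [reix, r, hJj]
  let t : (V → unitInterval) → ℕ → Fin Δ → V → V := fun x n => (c n).σ (r n x)
  have hte : ∀ (φ : G ≃g G) (x : V → unitInterval) n p v,
      φ (t (fun i => x (φ i)) n p v) = t x n p (φ v) := fun φ x n p v =>
    (c n).eqv φ (r n x) p v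
  have htp : ∀ x n, Proper G (t x n) := fun x n => (c n).proper _
  have htm : ∀ n p u, Measurable fun x => t x n p u := fun n p u =>
    (measurable_pi_apply u).comp ((measurable_pi_apply p).comp
      ((c n).meas.comp (hr n).measurable))
  have go : ∀ᵐ x ∂(mu V), GoodAt (t x) o := by
    have h1 := ae_eventually_not (fun n => hr (n + 1))
      (fun n y => ∃ p, (c (n + 1)).σ y p o ≠ (c n).σ (reix (j n) y) p o) hε hj'
    have h2 := ae_eventually_not hr (fun n y => ∃ p, (c n).σ y p o = o) hh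
      fun n => Pr_hole_le (c n) o
    filter_upwards [h1, h2] with x hx1 hx2
    refine ⟨?_, hx2⟩
    simpa only [hre] using hx1
  have ga : ∀ᵐ x ∂(mu V), ∀ v, GoodAt (t x) v := by
    rw [ae_all_iff]
    intro v
    obtain ⟨w⟩ := hG.tree.connected o v
    obtain ⟨φ, rfl⟩ := exists_iso hs w
    filter_upwards [(mp_perm (φ := φ) φ.injective).quasiMeasurePreserving.ae go] with x hx
    exact hx.map φ (hte φ x)
  let b : Fin Δ := ⟨0, by have := hG.three; omega⟩
  refine ⟨fun x e => pick b (Q (t x) e), ?_, fun φ x e => ?_, ?_⟩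
  · refine measurable_pi_lambda _ fun e => ?_
    refine (Measurable.of_discrete (f := pick b)).comp (measurable_pi_lambda _ fun p => ?_)
    exact Measurable.exists fun u => Measurable.exists fun v => measurable_const.and
      (Measurable.exists fun N => Measurable.forall fun n => measurable_const.imp
        ((htm n p u).eq_const v))
  · exact congrArg (pick b) (Q_map φ (hte φ x) e)
  · filter_upwards [ga] with x hx u v w huv huw hvw he
    have h1 := pick_spec b ((hx u).exists_Q (htp x) (hG.reg u) huv)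
    have h2 := pick_spec b ((hx u).exists_Q (htp x) (hG.reg u) huw)
    rw [← he] at h2
    obtain ⟨n, hn1, hn2⟩ := ((h1.ev (htp x)).and (h2.ev (htp x))).exists
    exact hvw (hn1.symm.trans hn2)

end Fin'

theorem final_of_improve
    (H : ∀ (V : Type) [MeasurableSpace V] [DiscreteMeasurableSpace V] [Countable V]
      (G : SimpleGraph V) [G.LocallyFinite] (Δ : ℕ), RT G Δ →
        HasSwaps G ∧ ∀ o : V, ImproveStmt G Δ o) :
    ∀ (Δ : ℕ), 3 ≤ Δ → ∀ (V : Type) (G : SimpleGraph V), G.IsTree →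
      (∀ v : V, (G.neighborSet v).ncard = Δ) →
      ∃ F : (V → unitInterval) → (Sym2 V → Fin Δ),
        Measurable F ∧
        (∀ (φ : G ≃g G) (x : V → unitInterval) (e : Sym2 V),
          F (fun i : V => x ((⇑φ) i)) e = F x (Sym2.map (⇑φ) e)) ∧
        ∀ᵐ x ∂(Measure.infinitePi (fun _ : V => (volume : Measure unitInterval))),
          ∀ u v w : V, G.Adj u v → G.Adj u w → v ≠ w →
            F x s(u, v) ≠ F x s(u, w) := by
  intro Δ hΔ V G hT hd
  letI : G.LocallyFinite := fun v =>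
    (Set.finite_of_ncard_ne_zero (by rw [hd v]; omega)).fintype
  letI : MeasurableSpace V := ⊤
  haveI : DiscreteMeasurableSpace V := ⟨fun _ => trivial⟩
  haveI : Countable V := Fin'.countable_of_connected hT.connected
  have hG : RT G Δ := ⟨hT, fun v => by
    rw [← hd v, ← SimpleGraph.card_neighborSet_eq_degree, Set.ncard_eq_toFinset_card',
      Set.toFinset_card], hΔ⟩
  obtain ⟨o⟩ := hT.connected.nonempty
  obtain ⟨hs, hI⟩ := H V G Δ hG
  exact Fin'.main hG hs o (hI o)

end Pool.Agent.MP_93f6c7_pr
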