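import Pool.Agent.MP_93f6c7_pr.Label

/-! Basic operations on colourings: Kempe flips on a vertex set, colouring a matching. -/

set_option autoImplicit false
set_option linter.unusedSectionVars false
set_option linter.unusedVariables false
open MeasureTheory Function
open scoped Classical

namespace Pool.Agent.MP_93f6c7_pr

variable {V : Type} {G : SimpleGraph V} {Δ : ℕ}

/-- New first matching after exchanging `f` and `g` inside `F`; edges leaving `F` are removed. -/
noncomputable def flip1 (F : V → Prop) (f g : V → V) (v : V) : V :=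
  if F v then (if F (g v) then g v else v) else (if F (f v) then v else f v)

/-- Exchange the colours `a` and `b` inside `F`, uncolour the `a b` edges leaving `F`. -/
noncomputable def flipC (F : V → Prop) (a b : Fin Δ) (σ : Fin Δ → V → V) : Fin Δ → V → V :=
  fun p => if p = a then flip1 F (σ a) (σ b) else if p = b then flip1 F (σ b) (σ a) else σ p

/-- Add to the matching `f` the edges of `m` whose ends are both free. -/
noncomputable def col1 (f m : V → V) (v : V) : V :=
  if m v ≠ v ∧ f v = v ∧ f (m v) = m v then m v else f v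

/-- Colour with `a` the edges of the matching `m` whose ends both miss `a`. -/
noncomputable def colourC (a : Fin Δ) (m : V → V) (σ : Fin Δ → V → V) : Fin Δ → V → V :=
  fun p => if p = a then col1 (σ a) m else σ p

/-- Number of holes at a vertex. -/
noncomputable def holes (σ : Fin Δ → V → V) (v : V) : ℝ := ∑ p : Fin Δ, ind (σ p v = v)

/-- The `f` edge at `v` leaves or enters `F`. -/
def Bd (F : V → Prop) (f : V → V) (v : V) : Prop := ¬ (F v ↔ F (f v))

variable {F : V → Prop} {f g m : V → V} {v w : V} {a b p : Fin Δ} {σ : Fin Δ → V → V}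

lemma flip1_in (h : F v) (h' : F (g v)) : flip1 F f g v = g v := by simp [flip1, h, h']
lemma flip1_out (h : ¬ F v) (h' : ¬ F (f v)) : flip1 F f g v = f v := by simp [flip1, h, h']
lemma flip1_in' (h : F v) (h' : ¬ F (g v)) : flip1 F f g v = v := by simp [flip1, h, h']
lemma flip1_out' (h : ¬ F v) (h' : F (f v)) : flip1 F f g v = v := by simp [flip1, h, h']

lemma flip1_cases (F : V → Prop) (f g : V → V) (v : V) :
    flip1 F f g v = v ∨ (F v ∧ F (g v) ∧ flip1 F f g v = g v) ∨
      (¬ F v ∧ ¬ F (f v) ∧ flip1 F f g v = f v) := by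
  by_cases h : F v
  · by_cases h' : F (g v)
    · exact Or.inr (Or.inl ⟨h, h', flip1_in h h'⟩)
    · exact Or.inl (flip1_in' h h')
  · by_cases h' : F (f v)
    · exact Or.inl (flip1_out' h h')
    · exact Or.inr (Or.inr ⟨h, h', flip1_out h h'⟩)

lemma flip1_invol (hf : Involutive f) (hg : Involutive g) : Involutive (flip1 F f g) := by
  intro v
  rcases flip1_cases F f g v with h | ⟨h1, h2, h⟩ | ⟨h1, h2, h⟩
  · rw [h, h]
  · rw [h, flip1_in h2 (by rw [hg]; exact h1), hg]
  · rw [h, flip1_out h2 (by rw [hf]; exact h1), hf]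

lemma flipC_left : flipC F a b σ a = flip1 F (σ a) (σ b) := by simp [flipC]
lemma flipC_right (hab : a ≠ b) : flipC F a b σ b = flip1 F (σ b) (σ a) := by
  simp [flipC, hab.symm]
lemma flipC_other (ha : p ≠ a) (hb : p ≠ b) : flipC F a b σ p = σ p := by simp [flipC, ha, hb]

lemma flipC_cases (hab : a ≠ b) (F : V → Prop) (σ : Fin Δ → V → V) (p : Fin Δ) (v : V) :
    flipC F a b σ p v = v ∨
      flipC F a b σ p v = σ (if F v then Equiv.swap a b p else p) v := by
  by_cases ha : p = a
  · subst ha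
    rw [flipC_left]
    rcases flip1_cases F (σ p) (σ b) v with h | ⟨h1, _, h⟩ | ⟨h1, _, h⟩
    · exact Or.inl h
    · right; rw [h, if_pos h1, Equiv.swap_apply_left]
    · right; rw [h, if_neg h1]
  by_cases hb : p = b
  · subst hb
    rw [flipC_right hab]
    rcases flip1_cases F (σ p) (σ a) v with h | ⟨h1, _, h⟩ | ⟨h1, _, h⟩
    · exact Or.inl h
    · right; rw [h, if_pos h1, Equiv.swap_apply_right]
    · right; rw [h, if_neg h1]
  · right
    rw [flipC_other ha hb, Equiv.swap_apply_of_ne_of_ne ha hb, ite_self]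

lemma Proper.flipC (h : Proper G σ) (hab : a ≠ b) (F : V → Prop) :
    Proper G (flipC F a b σ) := by
  refine ⟨fun p => ?_, fun p v hv => ?_, fun p q v hpq hv he => ?_⟩
  · by_cases ha : p = a
    · subst ha; rw [flipC_left]; exact flip1_invol (h.inv _) (h.inv _)
    by_cases hb : p = b
    · subst hb; rw [flipC_right hab]; exact flip1_invol (h.inv _) (h.inv _)
    · rw [flipC_other ha hb]; exact h.inv p
  · rcases flipC_cases hab F σ p v with e | e
    · exact absurd e hv
    · rw [e] at hv ⊢; exact h.adj _ _ hv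
  · rcases flipC_cases hab F σ p v with e | e
    · exact hv e
    rcases flipC_cases hab F σ q v with e' | e'
    · exact hv (he.trans e')
    rw [e] at hv
    rw [e, e'] at he
    refine h.disj _ _ v ?_ hv he
    split_ifs
    · exact fun hh => hpq ((Equiv.swap a b).injective hh)
    · exact hpq

lemma Unc.flipC (h : Unc G σ v w) (hab : a ≠ b) (F : V → Prop) : Unc G (flipC F a b σ) v w := by
  refine ⟨h.1, fun p => ?_⟩
  rcases flipC_cases hab F σ p v with e | e <;> rw [e]
  · exact h.1.ne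
  · exact h.2 _

lemma Unc.symm (hσ : Proper G σ) (h : Unc G σ v w) : Unc G σ w v :=
  ⟨h.1.symm, fun p e => h.2 p (by rw [← e, hσ.inv])⟩

lemma flipC_eq (hab : a ≠ b) (h : ¬ F v) (ha : ¬ F (σ a v)) (hb : ¬ F (σ b v)) (p : Fin Δ) :
    flipC F a b σ p v = σ p v := by
  by_cases hpa : p = a
  · subst hpa; rw [flipC_left, flip1_out h ha]
  by_cases hpb : p = b
  · subst hpb; rw [flipC_right hab, flip1_out h hb]
  · rw [flipC_other hpa hpb]

/-- Holes outside `F` remain holes. -/
lemma flipC_hole (hab : a ≠ b) (h : ¬ F v) (hp : σ p v = v) : flipC F a b σ p v = v := by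
  rcases flipC_cases hab F σ p v with e | e
  · exact e
  · rw [e, if_neg h, hp]

lemma flip1_holes (F : V → Prop) (f g : V → V) (v : V) :
    ind (flip1 F f g v = v) + ind (flip1 F g f v = v) ≤
      ind (f v = v) + ind (g v = v) + ind (Bd F f v) + ind (Bd F g v) := by
  have n1 := ind_nonneg (f v = v)
  have n2 := ind_nonneg (g v = v)
  have l1 := ind_le_one (flip1 F f g v = v)
  have l2 := ind_le_one (flip1 F g f v = v)
  have n3 := ind_nonneg (Bd F f v)
  have n4 := ind_nonneg (Bd F g v)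
  by_cases h : F v <;> by_cases h1 : F (f v) <;> by_cases h2 : F (g v) <;>
    simp only [flip1, h, h1, h2, if_true, if_false, Bd] at * <;>
    simp only [ind] at * <;> simp <;> linarith

lemma holes_split (hab : a ≠ b) (σ : Fin Δ → V → V) (v : V) :
    holes σ v = ind (σ a v = v) + ind (σ b v = v) +
      ∑ p ∈ (Finset.univ.erase a).erase b, ind (σ p v = v) := by
  unfold holes
  rw [← Finset.add_sum_erase _ _ (Finset.mem_univ a),
    ← Finset.add_sum_erase _ _ (show b ∈ Finset.univ.erase a by simp [hab.symm]), add_assoc]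

lemma holes_flipC (hab : a ≠ b) (F : V → Prop) (σ : Fin Δ → V → V) (v : V) :
    holes (flipC F a b σ) v ≤ holes σ v + ind (Bd F (σ a) v) + ind (Bd F (σ b) v) := by
  rw [holes_split hab, holes_split hab, flipC_left, flipC_right hab]
  have := flip1_holes F (σ a) (σ b) v
  have e : ∑ p ∈ (Finset.univ.erase a).erase b, ind (flipC F a b σ p v = v) =
      ∑ p ∈ (Finset.univ.erase a).erase b, ind (σ p v = v) := by
    refine Finset.sum_congr rfl fun p hp => ?_
    simp only [Finset.mem_erase] at hp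
    rw [flipC_other hp.2.1 hp.1]
  rw [e]; linarith

lemma holes_nonneg (σ : Fin Δ → V → V) (v : V) : 0 ≤ holes σ v :=
  Finset.sum_nonneg fun _ _ => ind_nonneg _

lemma ind_le_holes (σ : Fin Δ → V → V) (v : V) (p : Fin Δ) : ind (σ p v = v) ≤ holes σ v :=
  Finset.single_le_sum (f := fun p => ind (σ p v = v)) (fun _ _ => ind_nonneg _)
    (Finset.mem_univ p)

lemma col1_pos (h1 : m v ≠ v) (h2 : f v = v) (h3 : f (m v) = m v) : col1 f m v = m v :=
  if_pos ⟨h1, h2, h3⟩
lemma col1_neg (h : ¬ (m v ≠ v ∧ f v = v ∧ f (m v) = m v)) : col1 f m v = f v := if_neg h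
lemma col1_fix (h : m v = v) : col1 f m v = f v := col1_neg fun hh => hh.1 h

lemma col1_invol (hf : Involutive f) (hm : Involutive m) : Involutive (col1 f m) := by
  intro v
  by_cases h : m v ≠ v ∧ f v = v ∧ f (m v) = m v
  · rw [col1_pos h.1 h.2.1 h.2.2, col1_pos (by rw [hm]; exact h.1.symm) h.2.2
      (by rw [hm]; exact h.2.1), hm]
  · rw [col1_neg h]
    by_cases hv : f v = v
    · rw [hv, col1_neg h, hv]
    · rw [col1_neg, hf]
      rw [hf]
      exact fun hh => hv hh.2.1.symm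

lemma colourC_self : colourC a m σ a = col1 (σ a) m := by simp [colourC]
lemma colourC_other (h : p ≠ a) : colourC a m σ p = σ p := by simp [colourC, h]

lemma colourC_cases (a : Fin Δ) (m : V → V) (σ : Fin Δ → V → V) (p : Fin Δ) (v : V) :
    colourC a m σ p v = σ p v ∨
      (p = a ∧ m v ≠ v ∧ σ a v = v ∧ σ a (m v) = m v ∧ colourC a m σ p v = m v) := by
  by_cases hp : p = a
  · subst hp
    rw [colourC_self]
    by_cases h : m v ≠ v ∧ σ p v = v ∧ σ p (m v) = m v
    · exact Or.inr ⟨rfl, h.1, h.2.1, h.2.2, col1_pos h.1 h.2.1 h.2.2⟩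
    · exact Or.inl (col1_neg h)
  · exact Or.inl (by rw [colourC_other hp])

lemma colourC_fix (h : m v = v) (p : Fin Δ) : colourC a m σ p v = σ p v := by
  rcases colourC_cases a m σ p v with e | e
  · exact e
  · exact absurd h e.2.1

lemma Proper.colourC (h : Proper G σ) (a : Fin Δ) (hm : Involutive m)
    (hu : ∀ v, m v ≠ v → Unc G σ v (m v)) : Proper G (colourC a m σ) := by
  refine ⟨fun p => ?_, fun p v hv => ?_, fun p q v hpq hv he => ?_⟩
  · by_cases hp : p = a
    · subst hp; rw [colourC_self]; exact col1_invol (h.inv _) hm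
    · rw [colourC_other hp]; exact h.inv p
  · rcases colourC_cases a m σ p v with e | e
    · rw [e] at hv ⊢; exact h.adj _ _ hv
    · rw [e.2.2.2.2]; exact (hu v e.2.1).1
  · rcases colourC_cases a m σ p v with e | e <;> rcases colourC_cases a m σ q v with e' | e'
    · rw [e] at hv; rw [e, e'] at he; exact h.disj p q v hpq hv he
    · rw [e, e'.2.2.2.2] at he; exact (hu v e'.2.1).2 p he
    · rw [e.2.2.2.2, e'] at he; exact (hu v e.2.1).2 q he.symm
    · exact hpq (e.1.trans e'.1.symm)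

lemma Unc.colourC (h : Unc G σ v w) (hm : m v ≠ w) (a : Fin Δ) : Unc G (colourC a m σ) v w := by
  refine ⟨h.1, fun p => ?_⟩
  rcases colourC_cases a m σ p v with e | e
  · rw [e]; exact h.2 p
  · rw [e.2.2.2.2]; exact hm

lemma holes_colourC (a : Fin Δ) (m : V → V) (σ : Fin Δ → V → V) (v : V) :
    holes (colourC a m σ) v = holes σ v - ind (m v ≠ v ∧ σ a v = v ∧ σ a (m v) = m v) := by
  unfold holes
  rw [← Finset.add_sum_erase _ _ (Finset.mem_univ a), ← Finset.add_sum_erase _ _ (Finset.mem_univ a)]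
  have e : ∑ p ∈ Finset.univ.erase a, ind (colourC a m σ p v = v) =
      ∑ p ∈ Finset.univ.erase a, ind (σ p v = v) := by
    refine Finset.sum_congr rfl fun p hp => ?_
    rw [colourC_other (Finset.mem_erase.1 hp).1]
  rw [e, colourC_self]
  by_cases h : m v ≠ v ∧ σ a v = v ∧ σ a (m v) = m v
  · rw [col1_pos h.1 h.2.1 h.2.2, ind_neg h.1, ind_pos h.2.1, ind_pos h]; ring
  · rw [col1_neg h, ind_neg h]; ring

/-! ### Holes and uncoloured edges -/

lemma exists_unc [G.LocallyFinite] (h : RT G Δ) (hσ : Proper G σ) (hp : σ p v = v) :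
    ∃ w, Unc G σ v w := by
  by_contra hn
  push Not at hn
  have hsub : G.neighborFinset v ⊆ (Finset.univ.erase p).image fun q => σ q v := by
    intro w hw
    have hw' : G.Adj v w := by simpa using hw
    have := hn w
    unfold Unc at this
    push Not at this
    obtain ⟨q, hq⟩ := this hw'
    refine Finset.mem_image.2 ⟨q, ?_, hq⟩
    simp only [Finset.mem_erase, Finset.mem_univ, and_true]
    rintro rfl
    exact hw'.ne (hp.symm.trans hq)
  have h1 := Finset.card_le_card hsub
  have h2 := Finset.card_image_le (s := Finset.univ.erase p) (f := fun q => σ q v)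
  rw [SimpleGraph.card_neighborFinset_eq_degree, h.reg] at h1
  rw [Finset.card_erase_of_mem (Finset.mem_univ p), Finset.card_univ, Fintype.card_fin] at h2
  have := h.three
  omega

lemma exists_hole [G.LocallyFinite] (h : RT G Δ) (hσ : Proper G σ) (hu : Unc G σ v w) :
    ∃ p, σ p v = v := by
  by_contra hn
  push Not at hn
  have hmem : ∀ p ∈ (Finset.univ : Finset (Fin Δ)), σ p v ∈ (G.neighborFinset v).erase w := by
    intro p _
    simp [hu.2 p, hσ.adj p v (hn p)]
  have hinj : Set.InjOn (fun p => σ p v) (Finset.univ : Finset (Fin Δ)) := by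
    intro p _ q _ hpq
    by_contra hne
    exact hσ.disj p q v hne (hn p) hpq
  have h1 := Finset.card_le_card_of_injOn _ hmem hinj
  rw [Finset.card_erase_of_mem (by simpa using hu.1), SimpleGraph.card_neighborFinset_eq_degree,
    h.reg, Finset.card_univ, Fintype.card_fin] at h1
  have := h.three
  omega

/-! ### Neighbourhoods of marked vertices along alternating paths -/

/-- Some vertex satisfying `M` lies within distance `R` on the alternating path through `v`. -/
def Ball (f g : V → V) (R : ℕ) (M : V → Prop) (v : V) : Prop :=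
  ∃ i, i ≤ R ∧ ((Free f g i v ∧ M (walk f g i v)) ∨ (Free g f i v ∧ M (walk g f i v)))

variable {M : V → Prop} {R : ℕ}

lemma Ball.symm (h : Ball f g R M v) : Ball g f R M v := by
  obtain ⟨i, hi, h⟩ := h
  exact ⟨i, hi, h.symm⟩

lemma ball_comm : Ball f g R M v ↔ Ball g f R M v := ⟨Ball.symm, Ball.symm⟩

lemma Ball.mono {R' : ℕ} (h : Ball f g R M v) (hR : R ≤ R') : Ball f g R' M v := by
  obtain ⟨i, hi, h⟩ := h
  exact ⟨i, hi.trans hR, h⟩

lemma Ball.self (h : M v) : Ball f g R M v := ⟨0, Nat.zero_le _, Or.inl ⟨trivial, h⟩⟩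

lemma Ball.boundary (hf : Involutive f) (h : Ball f g R M v) (h' : ¬ Ball f g R M (f v)) :
    f v ≠ v ∧ Free g f R v ∧ M (walk g f R v) := by
  have hne : f v ≠ v := fun e => h' (by rwa [e])
  refine ⟨hne, ?_⟩
  have key : ∀ i, i ≤ R → Free g f i v → M (walk g f i v) →
      Free g f R v ∧ M (walk g f R v) := by
    intro i hi h1 h2
    rcases hi.eq_or_lt with rfl | hlt
    · exact ⟨h1, h2⟩
    · refine absurd ⟨i + 1, hlt, Or.inl ⟨⟨?_, ?_⟩, ?_⟩⟩ h'
      · rw [hf]; exact hne.symm
      · rw [hf]; exact h1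
      · rw [walk_succ, hf]; exact h2
  obtain ⟨i, hi, ⟨h1, h2⟩ | ⟨h1, h2⟩⟩ := h
  · cases i with
    | zero => exact key 0 hi trivial h2
    | succ i => exact absurd ⟨i, by omega, Or.inr ⟨h1.2, h2⟩⟩ h'
  · exact key i hi h1 h2

lemma Ball.step (hf : Involutive f) (h : Ball f g R M (f v)) : Ball f g (R + 1) M v := by
  by_contra hn
  have := (h.mono (Nat.le_succ R)).boundary hf (by rw [hf]; exact hn)
  have h2 := h.boundary hf (by rw [hf]; exact fun hh => hn (hh.mono (Nat.le_succ R)))
  rw [hf] at h2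
  exact hn ⟨R + 1, le_rfl, Or.inl ⟨⟨h2.1.symm, h2.2.1⟩, h2.2.2⟩⟩

lemma Ball.walk (hf : Involutive f) (hg : Involutive g) {j : ℕ}
    (h : Ball f g R M (walk f g j v)) : Ball f g (R + j) M v := by
  induction j generalizing f g v with
  | zero => exact h
  | succ j ih => exact ((ih hg hf h.symm).symm.step hf)

section loc
variable {φ : V → V} {D : Set V} {f' g' m' : V → V} {F' M' : V → Prop}

lemma Loc.flip1 (hf : Loc φ D f' f) (hg : Loc φ D g' g) (hF : ∀ v ∈ D, F' v ↔ F (φ v)) :
    Loc φ D (flip1 F' f' g') (flip1 F f g) := by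
  refine ⟨fun v hv => ?_, fun v hv => ?_⟩
  · rcases flip1_cases F' f' g' v with h | ⟨_, _, h⟩ | ⟨_, _, h⟩ <;> rw [h]
    · exact hv
    · exact hg.mem v hv
    · exact hf.mem v hv
  · unfold Pool.Agent.MP_93f6c7_pr.flip1
    rw [hF v hv, hF _ (hg.mem v hv), hF _ (hf.mem v hv), hf.eq v hv, hg.eq v hv]
    split_ifs
    · exact hg.eq v hv
    · rfl
    · rfl
    · exact hf.eq v hv

lemma Loc.col1 (hφ : Injective φ) (hf : Loc φ D f' f) (hm : Loc φ D m' m) :
    Loc φ D (col1 f' m') (col1 f m) := by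
  refine ⟨fun v hv => ?_, fun v hv => ?_⟩
  · unfold Pool.Agent.MP_93f6c7_pr.col1
    split_ifs
    · exact hm.mem v hv
    · exact hf.mem v hv
  · unfold Pool.Agent.MP_93f6c7_pr.col1
    have e : (m' v ≠ v ∧ f' v = v ∧ f' (m' v) = m' v) ↔
        (m (φ v) ≠ φ v ∧ f (φ v) = φ v ∧ f (m (φ v)) = m (φ v)) := by
      rw [Ne, Ne, hm.fix_iff hφ hv, hf.fix_iff hφ hv, hf.fix_iff hφ (hm.mem v hv), hm.eq v hv]
    by_cases h : m' v ≠ v ∧ f' v = v ∧ f' (m' v) = m' v
    · rw [if_pos h, if_pos (e.1 h)]; exact hm.eq v hv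
    · rw [if_neg h, if_neg (mt e.2 h)]; exact hf.eq v hv

lemma Loc.ball (hφ : Injective φ) (hf : Loc φ D f' f) (hg : Loc φ D g' g)
    (hM : ∀ v ∈ D, M' v ↔ M (φ v)) (R : ℕ) {v : V} (hv : v ∈ D) :
    Ball f' g' R M' v ↔ Ball f g R M (φ v) := by
  refine exists_congr fun i => and_congr Iff.rfl ?_
  rw [hf.free hφ hg i hv, hg.free hφ hf i hv, hM _ ((hf.walk hg i).mem v hv),
    hM _ ((hg.walk hf i).mem v hv), (hf.walk hg i).eq v hv, (hg.walk hf i).eq v hv]

end loc

/-! ### Random colourings on a space with an action -/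

section random
variable [MeasurableSpace V] [DiscreteMeasurableSpace V] [Countable V] [G.LocallyFinite]
  {Z : Type} [MeasurableSpace Z] {μ : Measure Z} [IsProbabilityMeasure μ]
  {T : (G ≃g G) → Z → Z}

/-- Measurable equivariant proper colouring. -/
structure EC (T : (G ≃g G) → Z → Z) (σ : Z → Fin Δ → V → V) : Prop where
  em : ∀ p, EM T (fun z => σ z p)
  proper : ∀ z, Proper G (σ z)

variable {s : Z → Fin Δ → V → V} {E : Z → V → Prop} {τ τ' : Z → V → V}

lemma EC.ei (h : EC T s) (p : Fin Δ) : EI T (fun z => s z p) :=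
  { h.em p with inv := fun z => (h.proper z).inv p, adj := fun z => (h.proper z).adj p }

lemma FC.ec (c : FC G Δ) : EC (G := G) act c.σ :=
  ⟨fun p => ⟨meas_at c.meas p, fun φ y v => c.eqv φ y p v⟩, c.proper⟩

lemma EM.flip1 (hE : IP T E) (h : EM T τ) (h' : EM T τ') :
    EM T (fun z => flip1 (E z) (τ z) (τ' z)) :=
  EM.ite hE (EM.ite (hE.comp h') h' EM.id) (EM.ite (hE.comp h) EM.id h)

lemma EM.col1 (h : EM T τ) (h' : EM T τ') : EM T (fun z => col1 (τ z) (τ' z)) :=
  EM.ite ((IP.fix h').not.and ((IP.fix h).and ((IP.fix h).comp h'))) h' h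

lemma EC.flipC (h : EC T s) (hab : a ≠ b) (hE : IP T E) :
    EC T (fun z => flipC (E z) a b (s z)) := by
  refine ⟨fun p => ?_, fun z => (h.proper z).flipC hab _⟩
  by_cases ha : p = a
  · subst ha; simp only [flipC_left]; exact EM.flip1 hE (h.em _) (h.em _)
  by_cases hb : p = b
  · subst hb; simp only [flipC_right hab]; exact EM.flip1 hE (h.em _) (h.em _)
  · simp only [flipC_other ha hb]; exact h.em p

lemma EC.colourC (h : EC T s) (a : Fin Δ) (hτ : EM T τ) (hi : ∀ z, Involutive (τ z))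
    (hu : ∀ z v, τ z v ≠ v → Unc G (s z) v (τ z v)) :
    EC T (fun z => colourC a (τ z) (s z)) := by
  refine ⟨fun p => ?_, fun z => (h.proper z).colourC a (hi z) (hu z)⟩
  by_cases ha : p = a
  · subst ha; simp only [colourC_self]; exact EM.col1 (h.em _) hτ
  · simp only [colourC_other ha]; exact h.em p

lemma IP.ball (hE : IP T E) (h : EM T τ) (h' : EM T τ') (R : ℕ) :
    IP T (fun z => Ball (τ z) (τ' z) R (E z)) :=
  IP.exists fun i => (IP.const _).and
    (((IP.free h h' i).and (hE.comp (h.walk h' i))).or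
      ((IP.free h' h i).and (hE.comp (h'.walk h i))))

lemma IP.bd (hE : IP T E) (h : EM T τ) : IP T (fun z => Bd (E z) (τ z)) :=
  ⟨measurable_pi_lambda _ fun v => ((hE.at v).iff ((hE.comp h).at v)).not,
    fun φ z v => not_congr (iff_congr (hE.inv φ z v) ((hE.comp h).inv φ z v))⟩

lemma IP.adj (h : EM T τ) (h' : EM T τ') : IP T (fun z v => G.Adj (τ z v) (τ' z v)) :=
  ⟨measurable_pi_lambda _ fun v => meas_rel G.Adj (meas_at h.meas v) (meas_at h'.meas v),
    fun φ z v => by rw [← h.eqv, ← h'.eqv, φ.map_adj_iff]⟩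

lemma IP.unc (h : EC T s) (hτ : EM T τ) : IP T (fun z v => Unc G (s z) v (τ z v)) :=
  (IP.adj EM.id hτ).and (IP.forall fun p => (IP.eq (h.em p) hτ).not)

/-- There is an uncoloured edge to a vertex satisfying `E`. -/
lemma IP.exUnc (h : EC T s) (hE : IP T E) :
    IP T (fun z v => ∃ u, Unc G (s z) v u ∧ E z u) := by
  refine ⟨measurable_pi_lambda _ fun v => Measurable.exists fun u => ?_, fun φ z v => ?_⟩
  · exact (measurable_const.and (Measurable.forall fun p =>
      meas_ne (meas_at (h.em p).meas v) measurable_const)).and (hE.at u)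
  · have key : ∀ u, Unc G (s (T φ z)) v u ↔ Unc G (s z) (φ v) (φ u) := fun u =>
      and_congr φ.map_adj_iff.symm (forall_congr' fun p => by
        rw [← (h.em p).eqv, Ne, Ne, φ.injective.eq_iff])
    constructor
    · rintro ⟨u, h1, h2⟩
      exact ⟨φ u, (key u).1 h1, (hE.inv φ z u).1 h2⟩
    · rintro ⟨u, h1, h2⟩
      obtain ⟨u, rfl⟩ := φ.surjective u
      exact ⟨u, (key u).2 h1, (hE.inv φ z u).2 h2⟩

lemma IF.holes (h : EC T s) : IF T (fun z => holes (s z)) :=
  IF.sum fun p _ => (IP.fix (h.em p)).ind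

lemma IP.changed {s' : Z → Fin Δ → V → V} (h : EC T s) (h' : EC T s') :
    IP T (fun z v => ∃ p, s' z p v ≠ s z p v) :=
  IP.exists fun p => (IP.eq (h'.em p) (h.em p)).not

lemma int_holes (h : EC T s) (o : V) :
    ∫ z, holes (s z) o ∂μ = ∑ p : Fin Δ, Pr μ (fun z => s z p o = o) := by
  unfold holes
  rw [int_sum fun p _ => BM.ind ((IP.fix (h.em p)).at o)]
  exact Finset.sum_congr rfl fun p _ => (Pr_eq ((IP.fix (h.em p)).at o)).symm

lemma FC.hol_eq (c : FC G Δ) (o : V) : c.hol o = ∫ y, holes (c.σ y) o ∂(nu V) :=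
  (int_holes c.ec o).symm

lemma FC.hol_nonneg (c : FC G Δ) (o : V) : 0 ≤ c.hol o :=
  Finset.sum_nonneg fun _ _ => Pr_nonneg _

/-! Pulling back along equivariant maps. -/

variable {Z' : Type} [MeasurableSpace Z'] {T' : (G ≃g G) → Z' → Z'} {r : Z' → Z}

lemma EM.pull (h : EM T τ) (hr : Measurable r) (he : ∀ φ z, r (T' φ z) = T φ (r z)) :
    EM T' (fun z => τ (r z)) := ⟨h.meas.comp hr, fun φ z v => by rw [he, h.eqv]⟩
lemma EI.pull (h : EI T τ) (hr : Measurable r) (he : ∀ φ z, r (T' φ z) = T φ (r z)) :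
    EI T' (fun z => τ (r z)) :=
  { h.toEM.pull hr he with inv := fun z => h.inv (r z), adj := fun z => h.adj (r z) }
lemma IP.pull (h : IP T E) (hr : Measurable r) (he : ∀ φ z, r (T' φ z) = T φ (r z)) :
    IP T' (fun z => E (r z)) := ⟨h.meas.comp hr, fun φ z v => by rw [he, h.inv]⟩
lemma IF.pull {f : Z → V → ℝ} (h : IF T f) (hr : Measurable r)
    (he : ∀ φ z, r (T' φ z) = T φ (r z)) : IF T' (fun z => f (r z)) := by
  obtain ⟨B, hB⟩ := h.bdd
  exact ⟨h.meas.comp hr, ⟨B, fun z => hB _⟩, fun φ z v => by rw [he, h.inv]⟩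
lemma EC.pull (h : EC T s) (hr : Measurable r) (he : ∀ φ z, r (T' φ z) = T φ (r z)) :
    EC T' (fun z => s (r z)) := ⟨fun p => (h.em p).pull hr he, fun z => h.proper (r z)⟩

lemma EM.fst {τ : Y V → V → V} (h : EM (G := G) act τ) : EM (G := G) act2 (fun z => τ z.1) :=
  h.pull measurable_fst fun _ _ => rfl
lemma EI.fst {τ : Y V → V → V} (h : EI (G := G) act τ) : EI (G := G) act2 (fun z => τ z.1) :=
  h.pull measurable_fst fun _ _ => rfl
lemma IP.fst {E : Y V → V → Prop} (h : IP (G := G) act E) : IP (G := G) act2 (fun z => E z.1) :=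
  h.pull measurable_fst fun _ _ => rfl
lemma IF.fst {f : Y V → V → ℝ} (h : IF (G := G) act f) : IF (G := G) act2 (fun z => f z.1) :=
  h.pull measurable_fst fun _ _ => rfl
lemma EC.fst {s : Y V → Fin Δ → V → V} (h : EC (G := G) act s) :
    EC (G := G) act2 (fun z => s z.1) := h.pull measurable_fst fun _ _ => rfl
lemma EM.snd {τ : Y V → V → V} (h : EM (G := G) act τ) : EM (G := G) act2 (fun z => τ z.2) :=
  h.pull measurable_snd fun _ _ => rfl
lemma EI.snd {τ : Y V → V → V} (h : EI (G := G) act τ) : EI (G := G) act2 (fun z => τ z.2) :=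
  h.pull measurable_snd fun _ _ => rfl
lemma IP.snd {E : Y V → V → Prop} (h : IP (G := G) act E) : IP (G := G) act2 (fun z => E z.2) :=
  h.pull measurable_snd fun _ _ => rfl

/-- The label `k` at a vertex is below `t`. -/
lemma IP.lab (k : ℕ) (t : ℝ) : IP (G := G) act (fun (y : Y V) v => (y (v, k) : ℝ) < t) :=
  ⟨measurable_pi_lambda _ fun v => meas_lab_lt _ t, fun _ _ _ => Iff.rfl⟩

/-- A colouring on pairs of labels gives a factor of iid colouring. -/
def FC.ofEC {s : Y V × Y V → Fin Δ → V → V} (h : EC (G := G) act2 s) : FC G Δ where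
  σ := fun y => s (split y)
  meas := measurable_pi_lambda _ fun p => (h.em p).meas.comp meas_split
  proper := fun y => h.proper _
  eqv := fun φ y p v => (h.em p).eqv φ (split y) v

variable {s2 : Y V × Y V → Fin Δ → V → V}

lemma FC.ofEC_hol (h : EC (G := G) act2 s2) (o : V) :
    (FC.ofEC h).hol o = ∫ z, holes (s2 z) o ∂((nu V).prod (nu V)) := by
  rw [FC.hol_eq]
  exact int_map split_mp ((IF.holes h).bm o).meas

lemma FC.ofEC_near (c : FC G Δ) (h : EC (G := G) act2 s2) (o : V) {ε : ℝ}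
    (hε : Pr ((nu V).prod (nu V)) (fun z => ∃ p, s2 z p o ≠ c.σ z.1 p o) ≤ ε) :
    c.Near (FC.ofEC h) o ε :=
  ⟨fun k => 2 * k, fun _ _ h => by simpa using h,
    (Pr_map split_mp ((IP.changed c.ec.fst h).at o)).trans_le hε⟩

lemma IP.dn (h : EC T s) (α β : Fin Δ) :
    IP T (fun z v => s z α v = v ∧ ∃ u, Unc G (s z) v u ∧ s z β u = u) :=
  (IP.fix (h.em α)).and (IP.exUnc h (IP.fix (h.em β)))

lemma IP.sh (h : EC T s) (α γ β : Fin Δ) (l : ℕ) :
    IP T (fun z v => s z α v = v ∧ ¬ Free (s z γ) (s z α) l v ∧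
      ∃ u, Unc G (s z) v u ∧ s z β u = u) :=
  (IP.fix (h.em α)).and ((IP.free (h.em γ) (h.em α) l).not.and (IP.exUnc h (IP.fix (h.em β))))

lemma IP.lg (h : EC T s) (a b : Fin Δ) (l : ℕ) :
    IP T (fun z v => s z b v = v ∧ Free (s z a) (s z b) l v ∧
      ∃ u, Unc G (s z) v u ∧ s z a u = u) :=
  (IP.fix (h.em b)).and ((IP.free (h.em a) (h.em b) l).and (IP.exUnc h (IP.fix (h.em a))))

lemma FC.ofEC_dn (h : EC (G := G) act2 s2) (o : V) (α β : Fin Δ) :
    (FC.ofEC h).Dn o α β = Pr ((nu V).prod (nu V))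
      (fun z => s2 z α o = o ∧ ∃ u, Unc G (s2 z) o u ∧ s2 z β u = u) :=
  Pr_map split_mp ((IP.dn h α β).at o)

lemma FC.ofEC_sh (h : EC (G := G) act2 s2) (o : V) (α γ β : Fin Δ) (l : ℕ) :
    (FC.ofEC h).Sh o α γ β l = Pr ((nu V).prod (nu V))
      (fun z => s2 z α o = o ∧ ¬ Free (s2 z γ) (s2 z α) l o ∧
        ∃ u, Unc G (s2 z) o u ∧ s2 z β u = u) :=
  Pr_map split_mp ((IP.sh h α γ β l).at o)

lemma FC.Near.refl (c : FC G Δ) (o : V) : c.Near c o 0 :=
  ⟨id, injective_id, (Pr_false fun _ ⟨_, hp⟩ => hp rfl).le⟩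

lemma FC.Near.mono {c c' : FC G Δ} {o : V} {ε ε' : ℝ} (h : c.Near c' o ε) (hε : ε ≤ ε') :
    c.Near c' o ε' := by
  obtain ⟨j, hj, h⟩ := h
  exact ⟨j, hj, h.trans hε⟩

lemma FC.Near.trans {c c' c'' : FC G Δ} {o : V} {ε ε' : ℝ} (h : c.Near c' o ε)
    (h' : c'.Near c'' o ε') : c.Near c'' o (ε + ε') := by
  obtain ⟨j, hj, h⟩ := h
  obtain ⟨j', hj', h'⟩ := h'
  refine ⟨j' ∘ j, hj'.comp hj, ?_⟩
  have hm : Measurable fun y => ∃ p, c'.σ y p o ≠ c.σ (reix j y) p o :=
    (IP.changed (c.ec.pull (T' := act) (meas_reix j) fun _ _ => rfl) c'.ec).at o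
  rw [← Pr_map (reix_mp hj') hm] at h
  refine le_trans (Pr_or_le fun y hy => ?_) (add_le_add h h')
  by_contra hn
  push Not at hn
  obtain ⟨p, hp⟩ := hy
  exact hp ((hn.2 p).trans (hn.1 p))

end random

end Pool.Agent.MP_93f6c7_pr
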