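import Pool.Agent.MP_93f6c7_pr.FlipProbA

/-! Estimates on successive random flips. -/

set_option autoImplicit false
set_option linter.unusedSectionVars false
set_option linter.unusedVariables false
open MeasureTheory Function
open scoped Classical

namespace Pool.Agent.MP_93f6c7_pr
namespace RFl

variable {V : Type} {G : SimpleGraph V} {Δ : ℕ}

/-- One stage of the sequence of flips. -/
noncomputable def st (γ x : Fin Δ) (θ q : ℝ) (R : ℕ) (y : Y V) (σ : Fin Δ → V → V) :
    Fin Δ → V → V := flipC (RF (σ γ) (σ x) θ q R (3 + x.val) y) γ x σ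

variable {γ : Fin Δ} {θ q : ℝ} {R : ℕ}

lemma seq_cons (y : Y V) (x : Fin Δ) (l : List (Fin Δ)) (σ : Fin Δ → V → V) :
    seqF γ θ q R y (x :: l) σ = seqF γ θ q R y l (st γ x θ q R y σ) := rfl

lemma st_congr {y y' : Y V} {x : Fin Δ} (h : ∀ v, y (v, 3 + x.val) = y' (v, 3 + x.val))
    (σ : Fin Δ → V → V) : st γ x θ q R y σ = st γ x θ q R y' σ := by
  unfold st
  rw [rf_congr _ _ _ _ _ _ h]

lemma seq_congr {y y' : Y V} {l : List (Fin Δ)}
    (h : ∀ x ∈ l, ∀ v, y (v, 3 + x.val) = y' (v, 3 + x.val)) (σ : Fin Δ → V → V) :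
    seqF γ θ q R y l σ = seqF γ θ q R y' l σ := by
  induction l generalizing σ with
  | nil => rfl
  | cons x l ih =>
    rw [seq_cons, seq_cons, st_congr (h x (by simp)), ih fun p hp => h p (by simp [hp])]

lemma seq_unc (y : Y V) {l : List (Fin Δ)} {σ : Fin Δ → V → V} (hl : γ ∉ l) {v w : V}
    (h : Unc G σ v w) : Unc G (seqF γ θ q R y l σ) v w := by
  induction l generalizing σ with
  | nil => exact h
  | cons x l ih =>
    simp only [List.mem_cons, not_or] at hl
    exact ih hl.2 (h.flipC hl.1 _)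

lemma seq_other (y : Y V) {l : List (Fin Δ)} (σ : Fin Δ → V → V) {p : Fin Δ} (h1 : p ≠ γ)
    (h2 : p ∉ l) : seqF γ θ q R y l σ p = σ p := by
  induction l generalizing σ with
  | nil => rfl
  | cons x l ih =>
    simp only [List.mem_cons, not_or] at h2
    rw [seq_cons, ih _ h2.2]
    exact flipC_other h1 h2.1

lemma seq_cases (y : Y V) {l : List (Fin Δ)} (σ : Fin Δ → V → V) (hl : γ ∉ l) (v : V) :
    seqF γ θ q R y l σ γ v = v ∨ ∃ p ∈ γ :: l, seqF γ θ q R y l σ γ v = σ p v := by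
  induction l generalizing σ with
  | nil => exact Or.inr ⟨γ, by simp, rfl⟩
  | cons x l ih =>
    simp only [List.mem_cons, not_or] at hl
    rw [seq_cons]
    rcases ih (st γ x θ q R y σ) hl.2 with e | ⟨p, hp, e⟩
    · exact Or.inl e
    rcases flipC_cases hl.1 (RF (σ γ) (σ x) θ q R (3 + x.val) y) σ p v with e' | e'
    · exact Or.inl (e.trans e')
    refine Or.inr ⟨_, ?_, e.trans e'⟩
    have hp' : p ∈ γ :: x :: l := by
      simp only [List.mem_cons] at hp ⊢
      tauto
    split_ifs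
    · rw [Equiv.swap_apply_def]
      split_ifs
      · simp
      · simp
      · exact hp'
    · exact hp'

variable [MeasurableSpace V] [DiscreteMeasurableSpace V] [Countable V] [G.LocallyFinite]

lemma seq_loc {y y' : Y V} {l : List (Fin Δ)} {σ σ' : Fin Δ → V → V} {D : Set V}
    {P : Fin Δ → Prop} (hl : γ ∉ l) (hγ : P γ) (hP : ∀ x ∈ l, P x)
    (h : ∀ p, P p → Loc id D (σ' p) (σ p)) (hy : ∀ v ∈ D, ∀ k, 3 ≤ k → y' (v, k) = y (v, k)) :
    ∀ p, P p → Loc id D (seqF γ θ q R y' l σ' p) (seqF γ θ q R y l σ p) := by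
  induction l generalizing σ σ' with
  | nil => exact h
  | cons x l ih =>
    simp only [List.mem_cons, not_or] at hl
    have hx := hP x (by simp)
    refine ih hl.2 (fun p hp => hP p (by simp [hp])) fun p hp => ?_
    have hF : ∀ v ∈ D, RF (σ' γ) (σ' x) θ q R (3 + x.val) y' v ↔
        RF (σ γ) (σ x) θ q R (3 + x.val) y (id v) := fun v hv =>
      Loc.rf (h γ hγ) (h x hx) (fun u hu => hy u hu _ (by omega)) R hv
    by_cases ha : p = γ
    · subst ha
      rw [flipC_left, flipC_left]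
      exact (h p hγ).flip1 (h x hx) hF
    by_cases hb : p = x
    · subst hb
      rw [flipC_right hl.1, flipC_right hl.1]
      exact (h p hx).flip1 (h γ hγ) hF
    · rw [flipC_other ha hb, flipC_other ha hb]
      exact h p hp

lemma meas_st {Z : Type} [MeasurableSpace Z] {s : Z → Fin Δ → V → V} (hs : Measurable s)
    {y : Z → Y V} (hy : Measurable y) (x : Fin Δ) :
    Measurable fun z => st γ x θ q R (y z) (s z) :=
  meas_flipC (meas_rf (meas_at hs γ) (meas_at hs x) hy θ q R _) hs γ x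

/-- The first stage is independent of the labels used by the later stages. -/
lemma Pr_stage {x : Fin Δ} {l : List (Fin Δ)} (hx : x ∉ l) (σ : Fin Δ → V → V)
    {E : (Fin Δ → V → V) × (Fin Δ → V → V) → Prop} (hE : Measurable E) :
    Measurable (fun z : Y V × Y V =>
      E (st γ x θ q R z.1 σ, seqF γ θ q R z.2 l (st γ x θ q R z.1 σ))) ∧
    Pr (nu V) (fun y => E (st γ x θ q R y σ, seqF γ θ q R y l (st γ x θ q R y σ))) =
      Pr ((nu V).prod (nu V)) (fun z =>
        E (st γ x θ q R z.1 σ, seqF γ θ q R z.2 l (st γ x θ q R z.1 σ))) := by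
  have h1 : Measurable fun z : Y V × Y V => st γ x θ q R z.1 σ :=
    meas_st measurable_const measurable_fst x
  have hm : Measurable (fun z : Y V × Y V =>
      E (st γ x θ q R z.1 σ, seqF γ θ q R z.2 l (st γ x θ q R z.1 σ))) :=
    hE.comp (h1.prodMk (meas_seqF h1 measurable_snd γ θ q R l))
  refine ⟨hm, Pr_freeze hm {i | i.2 = 3 + x.val} (fun y' y₁ y₂ hh => ?_) (fun y y₁ y₂ hh => ?_)⟩
  · simp only [st_congr (fun v => hh (v, 3 + x.val) rfl) σ]
  · have := seq_congr (γ := γ) (θ := θ) (q := q) (R := R) (y := y₁) (y' := y₂) (l := l)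
      (fun p hp v => hh (v, 3 + p.val) fun e => hx (by
        have e' : 3 + p.val = 3 + x.val := e
        have : p = x := Fin.ext (by omega)
        rwa [← this])) (st γ x θ q R y σ)
    simp only [this]

lemma meas_ev (p : Fin Δ) (v : V) : Measurable fun s : Fin Δ → V → V => s p v :=
  meas_at (meas_at measurable_id p) v

lemma seq_change (h0 : 0 ≤ θ) (h3 : q ≤ 1) (hR : 1 ≤ R) (h : θ * R = q) {l : List (Fin Δ)}
    (hl : γ ∉ l) (hn : l.Nodup) {σ : Fin Δ → V → V} (hσ : Proper G σ) (v : V) :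
    Pr (nu V) (fun y => ∃ p, seqF γ θ q R y l σ p v ≠ σ p v) ≤ 21 * q * l.length := by
  induction l generalizing σ with
  | nil => simpa using (Pr_false (μ := nu V) fun y ⟨p, hp⟩ => hp rfl).le
  | cons x l ih =>
    simp only [List.mem_cons, not_or] at hl
    rw [List.nodup_cons] at hn
    have hp := hσ.pair hl.1
    have e1 := Pr_or_le (μ := nu V) (E := fun y => ∃ p, seqF γ θ q R y (x :: l) σ p v ≠ σ p v)
      (E₁ := fun y => RF (σ γ) (σ x) θ q R (3 + x.val) y v ∨
        RF (σ γ) (σ x) θ q R (3 + x.val) y (σ γ v) ∨ RF (σ γ) (σ x) θ q R (3 + x.val) y (σ x v))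
      (E₂ := fun y => ∃ p, seqF γ θ q R y l (st γ x θ q R y σ) p v ≠ st γ x θ q R y σ p v)
      fun y ⟨p, hp⟩ => by
        by_contra hh
        simp only [not_or, not_exists, Ne, not_not] at hh
        exact hp ((hh.2 p).trans (flipC_eq hl.1 hh.1.1 hh.1.2.1 hh.1.2.2 p))
    have e2 := Pr_or_le (μ := nu V) (E := fun y => RF (σ γ) (σ x) θ q R (3 + x.val) y v ∨
        RF (σ γ) (σ x) θ q R (3 + x.val) y (σ γ v) ∨ RF (σ γ) (σ x) θ q R (3 + x.val) y (σ x v))
      fun y hy => hy
    have e3 := Pr_or_le (μ := nu V) (E := fun y =>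
        RF (σ γ) (σ x) θ q R (3 + x.val) y (σ γ v) ∨ RF (σ γ) (σ x) θ q R (3 + x.val) y (σ x v))
      fun y hy => hy
    have a1 := rf_le7 hp h0 h3 hR h (3 + x.val) v
    have a2 := rf_le7 hp h0 h3 hR h (3 + x.val) (σ γ v)
    have a3 := rf_le7 hp h0 h3 hR h (3 + x.val) (σ x v)
    obtain ⟨m1, m2⟩ := Pr_stage (γ := γ) (θ := θ) (q := q) (R := R) hn.1 σ
      (E := fun s => ∃ p, s.2 p v ≠ s.1 p v) (Measurable.exists fun p =>
        meas_ne ((meas_ev p v).comp measurable_snd) ((meas_ev p v).comp measurable_fst))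
    have e4 := Pr_prod_le_const (μ := nu V) (ν := nu V) m1 fun y =>
      ih hl.2 hn.2 (hσ.flipC hl.1 (RF (σ γ) (σ x) θ q R (3 + x.val) y))
    rw [← m2] at e4
    simp only [List.length_cons]
    push_cast
    linarith

lemma seq_stay (h0 : 0 ≤ θ) (h3 : q ≤ 1) (hR : 1 ≤ R) (h : θ * R = q) {l : List (Fin Δ)}
    (hl : γ ∉ l) (hn : l.Nodup) (hq : 42 * q * l.length ≤ 1) {σ : Fin Δ → V → V}
    (hσ : Proper G σ) (v : V) :
    1 / 2 ≤ Pr (nu V) (fun y => seqF γ θ q R y l σ γ v = σ γ v) := by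
  have e1 := seq_change h0 h3 hR h hl hn hσ v
  have e2 := one_sub_Pr_le (μ := nu V) (E := fun y => ∃ p, seqF γ θ q R y l σ p v ≠ σ p v)
    (E' := fun y => seqF γ θ q R y l σ γ v = σ γ v) fun y hy => by
      by_contra hh
      exact hy ⟨γ, hh⟩
  linarith

lemma seq_ge (hG : G.IsAcyclic) (h0 : 0 ≤ θ) (h3 : q ≤ 1) (hR : 1 ≤ R) (h : θ * R = q)
    {l : List (Fin Δ)} (hl : γ ∉ l) (hn : l.Nodup) (hq : 42 * q * l.length ≤ 1)
    {σ : Fin Δ → V → V} (hσ : Proper G σ) (v : V) {p : Fin Δ} (hp : p ∈ l) :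
    q / 4 ≤ Pr (nu V) (fun y => seqF γ θ q R y l σ γ v = σ p v) := by
  induction l generalizing σ with
  | nil => simp at hp
  | cons x l ih =>
    simp only [List.mem_cons, not_or] at hl
    rw [List.nodup_cons] at hn
    have hq0 : 0 ≤ q := h0.trans (theta_le h0 hR h)
    have hq' : 42 * q * l.length ≤ 1 := by
      simp only [List.length_cons] at hq
      push_cast at hq
      linarith
    obtain ⟨m1, m2⟩ := Pr_stage (γ := γ) (θ := θ) (q := q) (R := R) hn.1 σ
      (E := fun s => s.2 γ v = σ p v)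
      (meas_eq ((meas_ev γ v).comp measurable_snd) measurable_const)
    refine le_trans ?_ m2.ge
    rcases List.mem_cons.1 hp with rfl | hp'
    · have hm : Measurable fun y : Y V => RF (σ γ) (σ p) θ q R (3 + p.val) y :=
        meas_rf measurable_const measurable_const measurable_id θ q R _
      have e1 := Pr_prod_ge (μ := nu V) (ν := nu V) m1
        ((meas_at hm v).and (meas_at hm (σ p v))) (c := 1 / 2) fun y hy => by
          have := seq_stay h0 h3 hR h hl.2 hn.2 hq'
            (hσ.flipC hl.1 (RF (σ γ) (σ p) θ q R (3 + p.val) y)) v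
          rw [flipC_left, flip1_in hy.1 hy.2] at this
          exact this
      have e2 := rf_ge' hG (hσ.pair hl.1) h0 h3 hR h (3 + p.val) v
      linarith
    · have e1 := Pr_prod_ge (μ := nu V) (ν := nu V) m1 (A := fun _ => True) measurable_const
        (c := q / 4) fun y _ => by
          have := ih hl.2 hn.2 hq' (hσ.flipC hl.1 (RF (σ γ) (σ x) θ q R (3 + x.val) y)) hp'
          rw [flipC_other (show p ≠ γ from fun e => hl.2 (e ▸ hp'))
            (show p ≠ x from fun e => hn.1 (e ▸ hp'))] at this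
          exact this
      rw [Pr_true fun _ => trivial, mul_one] at e1
      exact e1

lemma seq_holes (hs : HasSwaps G) (o : V) {e : ℝ} (h0 : 0 ≤ θ) (h1 : θ ≤ 1) (h2 : 0 ≤ q)
    (h3 : q ≤ 1) (he : θ ≤ q * e) {l : List (Fin Δ)} (hl : γ ∉ l) (hn : l.Nodup)
    {s : Y V × Y V → Fin Δ → V → V} (h : EC (G := G) act2 s)
    (hd : ∀ x, DependsOn (fun y => s (x, y)) {i | ∀ p ∈ l, i.2 ≠ 3 + p.val}) :
    ∫ z, holes (seqF γ θ q R z.2 l (s z)) o ∂((nu V).prod (nu V)) + e ≤
      (1 + 4 * q) ^ l.length * (∫ z, holes (s z) o ∂((nu V).prod (nu V)) + e) := by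
  induction l generalizing s with
  | nil => simp [seqF]
  | cons x l ih =>
    simp only [List.mem_cons, not_or] at hl
    rw [List.nodup_cons] at hn
    have hF : IP (G := G) act2 (fun z => RF (s z γ) (s z x) θ q R (3 + x.val) z.2) :=
      IP.rf (h.em γ) (h.em x) measurable_snd (fun _ _ => rfl) θ q R _
    have h' : EC (G := G) act2 (fun z => st γ x θ q R z.2 (s z)) := h.flipC hl.1 hF
    have e1 := ih hl.2 hn.2 h' (fun z y y' hh => by
      have a1 : s (z, y) = s (z, y') := hd z fun i hi => hh i fun p hp => hi p (by simp [hp])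
      simp only [a1]
      refine st_congr (fun v => hh (v, 3 + x.val) fun p hp e => hn.1 ?_) _
      have e' : 3 + x.val = 3 + p.val := e
      have : x = p := Fin.ext (by omega)
      rwa [this])
    have hd' : ∀ z, DependsOn (fun y => s (z, y)) {i | i.2 ≠ 3 + x.val} := fun z y y' hh =>
      hd z fun i hi => hh i (hi x (by simp))
    have b1 := rf_bd hs o h hl.1 h0 h1 h2 h3 R hd' (Or.inl rfl)
    have b2 := rf_bd hs o h hl.1 h0 h1 h2 h3 R hd' (Or.inr rfl)
    have m1 := (IP.bd hF (h.em γ)).at o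
    have m2 := (IP.bd hF (h.em x)).at o
    have e2 := int_mono (μ := (nu V).prod (nu V)) ((IF.holes h').bm o)
      ((((IF.holes h).bm o).add (BM.ind m1)).add (BM.ind m2)) fun z => holes_flipC hl.1 _ _ o
    rw [int_add (((IF.holes h).bm o).add (BM.ind m1)) (BM.ind m2),
      int_add ((IF.holes h).bm o) (BM.ind m1), ← Pr_eq m1, ← Pr_eq m2] at e2
    refine e1.trans ?_
    rw [List.length_cons, pow_succ, mul_assoc]
    exact mul_le_mul_of_nonneg_left (by linarith) (by positivity)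

end RFl

theorem flipStmt {V : Type} [MeasurableSpace V] [DiscreteMeasurableSpace V] [Countable V]
    {G : SimpleGraph V} [G.LocallyFinite] {Δ : ℕ} (h : RT G Δ) (hs : HasSwaps G) (o : V) :
    FlipStmt G Δ o where
  rf_le := fun _ _ hp _ _ h0 h1 h2 h3 R k v => RFl.rf_le hp h0 h1 h2 h3 R k v
  rf_ge := fun _ _ hp _ _ h0 h3 _ hR he k v =>
    ⟨RFl.rf_ge h.tree.isAcyclic hp h0 h3 hR he k v, RFl.rf_ge' h.tree.isAcyclic hp h0 h3 hR he k v⟩
  rf_bd := fun c a b hab θ q h0 h1 h2 h3 R k p hp => by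
    have := RFl.rf_bd hs o c.ec.fst hab h0 h1 h2 h3 R (k := k) (fun _ _ _ _ => rfl) hp
    rwa [Imp.int_fst_holes] at this
  seq_unc := fun _ _ _ _ y _ _ hl _ _ hu => RFl.seq_unc y hl hu
  seq_other := fun _ _ _ _ y _ σ _ h1 h2 => RFl.seq_other y σ h1 h2
  seq_cases := fun _ _ _ _ y _ σ hl v => RFl.seq_cases y σ hl v
  seq_loc := fun γ _ _ _ _ _ l _ _ _ hl h1 hy =>
    RFl.seq_loc (P := fun p => p ∈ γ :: l) hl (by simp) (fun x hx => by simp [hx]) h1 hy
  seq_change := fun _ _ _ h0 h3 _ hR he _ hl hn _ hσ v => RFl.seq_change h0 h3 hR he hl hn hσ v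
  seq_ge := fun γ _ q h0 h3 _ hR he l hl hn hq σ hσ v p hp => by
    rcases List.mem_cons.1 hp with rfl | hp
    · have := RFl.seq_stay h0 h3 hR he hl hn hq hσ v
      linarith
    · exact RFl.seq_ge h.tree.isAcyclic h0 h3 hR he hl hn hq hσ v hp
  seq_holes := fun c γ θ q e h0 h2 h3 he h1 hc R l hl hn hq => by
    have e1 := RFl.seq_holes (R := R) hs o h0 h1 h2 h3 he hl hn c.ec.fst (fun _ _ _ _ => rfl)
    rw [Imp.int_fst_holes] at e1
    have e2 := RFl.pow_le_lin (t := 4 * q) (by linarith) (n := l.length) (by linarith)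
    have e3 := c.hol_nonneg o
    have e4 := mul_le_mul_of_nonneg_right e2 (show 0 ≤ c.hol o + e by linarith)
    have e5 := mul_le_mul_of_nonneg_left hc (show 0 ≤ 8 * q * l.length by positivity)
    linarith

end Pool.Agent.MP_93f6c7_pr
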