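import Pool.Agent.MP_93f6c7_pr.RunDefs
import Pool.Agent.MP_93f6c7_pr.ImproveA

/-! Estimates on a single random flip set. -/

set_option autoImplicit false
set_option linter.unusedSectionVars false
set_option linter.unusedVariables false
open MeasureTheory Function
open scoped Classical

namespace Pool.Agent.MP_93f6c7_pr
namespace RFl

variable {V : Type} {G : SimpleGraph V} {Δ : ℕ}

lemma mk_comm (f g : V → V) (θ q : ℝ) (k : ℕ) (y : Y V) :
    Mk f g θ q k y = Mk g f θ q k y := by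
  funext u
  unfold Mk
  rw [or_comm (a := f u = u)]

lemma rf_comm (f g : V → V) (θ q : ℝ) (R k : ℕ) (y : Y V) :
    RF f g θ q R k y = RF g f θ q R k y := by
  funext v
  unfold RF
  rw [mk_comm f g]
  exact propext ball_comm

lemma rf_congr (f g : V → V) (θ q : ℝ) (R k : ℕ) {y y' : Y V} (h : ∀ v, y (v, k) = y' (v, k)) :
    RF f g θ q R k y = RF f g θ q R k y' := by
  have : Mk f g θ q k y = Mk f g θ q k y' := by
    funext u
    unfold Mk
    rw [h u]
  unfold RF
  rw [this]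

lemma both {f g : V → V} {M : V → Prop} {R i : ℕ} {v : V} (h : Free f g i v) (hi : i ≤ R)
    (hM : M (walk f g i v)) (h1 : 1 ≤ i ∨ f v = v) :
    Ball f g R M v ∧ Ball f g R M (f v) := by
  have h0 : Ball f g R M v := ⟨i, hi, Or.inl ⟨h, hM⟩⟩
  refine ⟨h0, ?_⟩
  rcases h1 with h1 | h1
  · obtain ⟨j, rfl⟩ : ∃ j, i = j + 1 := ⟨i - 1, by omega⟩
    exact ⟨j, by omega, Or.inr ⟨h.2, hM⟩⟩
  · rwa [h1]

lemma exists_stop {f g : V → V} {R : ℕ} {v : V} (h : ¬ Free f g R v) :
    ∃ i, i < R ∧ Free f g i v ∧ alt f g i (walk f g i v) = walk f g i v := by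
  induction R with
  | zero => exact absurd trivial h
  | succ R ih =>
    by_cases h' : Free f g R v
    · refine ⟨R, Nat.lt_succ_self R, h', ?_⟩
      by_contra hn
      exact h ((free_succ' _ _ _ _).2 ⟨h', hn⟩)
    · obtain ⟨i, h1, h2⟩ := ih h'
      exact ⟨i, by omega, h2⟩

lemma pow_le_aux {θ q : ℝ} {R : ℕ} (h0 : 0 ≤ θ) (h1 : θ ≤ 1) (hq : q ≤ 1) (h : θ * R = q) :
    (1 - θ) ^ R ≤ 1 - q / 2 := by
  have hq0 : 0 ≤ q := by rw [← h]; positivity
  have e1 : 1 + (R : ℝ) * θ ≤ (1 + θ) ^ R := one_add_mul_le_pow (by linarith) R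
  have e2 : (1 - θ) ^ R * (1 + θ) ^ R ≤ 1 := by
    rw [← mul_pow]
    exact pow_le_one₀ (by nlinarith) (by nlinarith)
  have e3 : 0 ≤ (1 - θ) ^ R := pow_nonneg (by linarith) R
  have e4 : (1 - θ) ^ R * (1 + q) ≤ 1 := by
    refine le_trans (mul_le_mul_of_nonneg_left ?_ e3) e2
    linarith
  by_contra hn
  push Not at hn
  nlinarith

lemma pow_le_lin {t : ℝ} (ht : 0 ≤ t) {n : ℕ} (h : 2 * t * n ≤ 1) :
    (1 + t) ^ n ≤ 1 + 2 * t * n := by
  induction n with
  | zero => simp
  | succ n ih =>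
    push_cast at h ⊢
    have h' : 2 * t * n ≤ 1 := by nlinarith
    have := mul_le_mul_of_nonneg_right (ih h') (show 0 ≤ 1 + t by linarith)
    rw [pow_succ]
    nlinarith

variable [MeasurableSpace V] [DiscreteMeasurableSpace V] [Countable V] [G.LocallyFinite]

/-! ### Plain measurability -/

section meas
variable {Z : Type} [MeasurableSpace Z] {f g : Z → V → V} {M : Z → V → Prop}

lemma meas_walk (hf : Measurable f) (hg : Measurable g) (n : ℕ) :
    Measurable fun z => walk (f z) (g z) n := by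
  induction n generalizing f g with
  | zero => exact measurable_const
  | succ n ih =>
    exact measurable_pi_lambda _ fun v =>
      meas_app (f := fun z => walk (g z) (f z) n) (ih hg hf) (meas_at hf v)

lemma meas_free (hf : Measurable f) (hg : Measurable g) (n : ℕ) :
    Measurable fun z => Free (f z) (g z) n := by
  induction n generalizing f g with
  | zero => exact measurable_const
  | succ n ih =>
    exact measurable_pi_lambda _ fun v =>
      (meas_ne (meas_at hf v) measurable_const).and (meas_app (ih hg hf) (meas_at hf v))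

lemma meas_ball (hf : Measurable f) (hg : Measurable g) (hM : Measurable M) (R : ℕ) :
    Measurable fun z => Ball (f z) (g z) R (M z) :=
  measurable_pi_lambda _ fun v => Measurable.exists fun i => measurable_const.and
    (((meas_at (meas_free hf hg i) v).and (meas_app hM (meas_at (meas_walk hf hg i) v))).or
      ((meas_at (meas_free hg hf i) v).and (meas_app hM (meas_at (meas_walk hg hf i) v))))

lemma meas_rf (hf : Measurable f) (hg : Measurable g) {y : Z → Y V} (hy : Measurable y)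
    (θ q : ℝ) (R k : ℕ) : Measurable fun z => RF (f z) (g z) θ q R k (y z) :=
  meas_ball hf hg (measurable_pi_lambda _ fun v => ((meas_lab_lt (v, k) θ).comp hy).or
    (((meas_eq (meas_at hf v) measurable_const).or (meas_eq (meas_at hg v) measurable_const)).and
      ((meas_lab_lt (v, k) q).comp hy))) R

lemma meas_flip1 (hM : Measurable M) (hf : Measurable f) (hg : Measurable g) :
    Measurable fun z => flip1 (M z) (f z) (g z) :=
  measurable_pi_lambda _ fun v => meas_ite (meas_at hM v)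
    (meas_ite (meas_app hM (meas_at hg v)) (meas_at hg v) measurable_const)
    (meas_ite (meas_app hM (meas_at hf v)) measurable_const (meas_at hf v))

lemma meas_flipC {s : Z → Fin Δ → V → V} (hM : Measurable M) (hs : Measurable s)
    (a b : Fin Δ) : Measurable fun z => flipC (M z) a b (s z) := by
  refine measurable_pi_lambda _ fun p => ?_
  unfold flipC
  split_ifs
  · exact meas_flip1 hM (meas_at hs a) (meas_at hs b)
  · exact meas_flip1 hM (meas_at hs b) (meas_at hs a)
  · exact meas_at hs p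

lemma meas_seqF {s : Z → Fin Δ → V → V} (hs : Measurable s) {y : Z → Y V} (hy : Measurable y)
    (γ : Fin Δ) (θ q : ℝ) (R : ℕ) (l : List (Fin Δ)) :
    Measurable fun z => seqF γ θ q R (y z) l (s z) := by
  induction l generalizing s with
  | nil => exact hs
  | cons x l ih =>
    exact ih (meas_flipC (meas_rf (meas_at hs γ) (meas_at hs x) hy θ q R _) hs γ x)

end meas

lemma rf_le {f g : V → V} (hp : Pair G f g) {θ q : ℝ} (h0 : 0 ≤ θ) (h1 : θ ≤ 1) (h2 : 0 ≤ q)
    (h3 : q ≤ 1) (R k : ℕ) (v : V) :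
    Pr (nu V) (fun y => RF f g θ q R k y v) ≤ 2 * (R + 1) * θ + 3 * q := by
  obtain ⟨B, b1, -, b3⟩ := Imp.exists_three hp.inv1 hp.inv2 v
  refine le_trans (Pr_or_le (E₁ := fun y => ∃ i ∈ Finset.range (R + 1),
    (y (walk f g i v, k) : ℝ) < θ ∨ (y (walk g f i v, k) : ℝ) < θ)
    (E₂ := fun y => ∃ w ∈ B, (y (w, k) : ℝ) < q) fun y hy => ?_) (add_le_add ?_ ?_)
  · by_cases hA : ∃ i ∈ Finset.range (R + 1),
        (y (walk f g i v, k) : ℝ) < θ ∨ (y (walk g f i v, k) : ℝ) < θ
    · exact Or.inl hA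
    right
    have hb : Ball f g R (fun u => (f u = u ∨ g u = u) ∧ (y (u, k) : ℝ) < q) v := by
      obtain ⟨i, hi, ⟨a1, a2 | a2⟩ | ⟨a1, a2 | a2⟩⟩ := hy
      · exact absurd ⟨i, Finset.mem_range.2 (by omega), Or.inl a2⟩ hA
      · exact ⟨i, hi, Or.inl ⟨a1, a2⟩⟩
      · exact absurd ⟨i, Finset.mem_range.2 (by omega), Or.inr a2⟩ hA
      · exact ⟨i, hi, Or.inr ⟨a1, a2⟩⟩
    obtain ⟨w, hw, hM⟩ := b3 _ R (fun u hu => hu.1) hb
    exact ⟨w, hw, hM.2⟩
  · refine le_trans (Pr_le_sum fun y hy => hy) ?_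
    refine le_trans (Finset.sum_le_sum (g := fun _ => 2 * θ) fun i _ => ?_) ?_
    · refine le_trans (Pr_or_le fun y hy => hy) ?_
      rw [Pr_lab_lt _ h0 h1, Pr_lab_lt _ h0 h1]
      linarith
    · rw [Finset.sum_const, Finset.card_range, nsmul_eq_mul]
      push_cast
      exact le_of_eq (by ring)
  · refine le_trans (Pr_le_sum fun y hy => hy) ?_
    rw [Finset.sum_congr rfl fun w _ => Pr_lab_lt (w, k) h2 h3, Finset.sum_const, nsmul_eq_mul]
    exact mul_le_mul_of_nonneg_right (by exact_mod_cast b1) h2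

lemma theta_le {θ q : ℝ} (h0 : 0 ≤ θ) {R : ℕ} (hR : 1 ≤ R) (h : θ * R = q) : θ ≤ q := by
  have : (1 : ℝ) ≤ R := by exact_mod_cast hR
  nlinarith

lemma rf_le7 {f g : V → V} (hp : Pair G f g) {θ q : ℝ} (h0 : 0 ≤ θ) (h3 : q ≤ 1) {R : ℕ}
    (hR : 1 ≤ R) (h : θ * R = q) (k : ℕ) (v : V) :
    Pr (nu V) (fun y => RF f g θ q R k y v) ≤ 7 * q := by
  have h1 := theta_le h0 hR h
  have := rf_le hp h0 (h1.trans h3) (h0.trans h1) h3 R k v
  linarith

lemma rf_ge (hG : G.IsAcyclic) {f g : V → V} (hp : Pair G f g) {θ q : ℝ} (h0 : 0 ≤ θ)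
    (h3 : q ≤ 1) {R : ℕ} (hR : 1 ≤ R) (h : θ * R = q) (k : ℕ) (v : V) :
    q / 2 ≤ Pr (nu V) (fun y => RF f g θ q R k y v ∧ RF f g θ q R k y (f v)) := by
  have h1 := theta_le h0 hR h
  by_cases hf : Free f g R v
  · let s : Finset (V × ℕ) := (Finset.range R).image fun i => (walk f g (i + 1) v, k)
    have hc : s.card = R := by
      rw [Finset.card_image_of_injOn, Finset.card_range]
      intro i hi j hj hij
      simp only [Finset.coe_range, Set.mem_Iio, Prod.mk.injEq, and_true] at hi hj hij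
      by_contra hne
      rcases lt_or_gt_of_ne hne with hl | hl
      · exact hp.walk_inj hG hf (show i + 1 < j + 1 by omega) (by omega) hij.symm
      · exact hp.walk_inj hG hf (show j + 1 < i + 1 by omega) (by omega) hij
    have hb := Pr_box s (fun _ u => ¬ (u : ℝ) < θ) fun _ => (meas_unit_lt θ).not
    rw [Pr_not (meas_unit_lt θ), Pr_unit_lt h0 (h1.trans h3), Finset.prod_const, hc] at hb
    have h4 := pow_le_aux h0 (h1.trans h3) h3 h
    have h5 := one_sub_Pr_le (μ := nu V) (E := fun y => ∀ i ∈ s, ¬ (y i : ℝ) < θ)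
      (E' := fun y => RF f g θ q R k y v ∧ RF f g θ q R k y (f v)) fun y hy => by
        push Not at hy
        obtain ⟨i, hi, hy⟩ := hy
        obtain ⟨j, hj, rfl⟩ := Finset.mem_image.1 hi
        have hj' := Finset.mem_range.1 hj
        exact both (hf.mono (show j + 1 ≤ R by omega)) (by omega) (Or.inl hy) (Or.inl (by omega))
    linarith
  · obtain ⟨i, hi, a1, a2⟩ := exists_stop hf
    have hend : f (walk f g i v) = walk f g i v ∨ g (walk f g i v) = walk f g i v := by
      rcases alt_cases f g i with e | e <;> rw [e.1] at a2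
      · exact Or.inl a2
      · exact Or.inr a2
    have h4 := Pr_lab_lt (walk f g i v, k) (h0.trans h1) h3
    have h5 := Pr_mono (μ := nu V) (E := fun y => (y (walk f g i v, k) : ℝ) < q)
      (E' := fun y => RF f g θ q R k y v ∧ RF f g θ q R k y (f v)) fun y hy => by
        refine both a1 hi.le (Or.inr ⟨hend, hy⟩) ?_
        rcases Nat.eq_zero_or_pos i with rfl | hpos
        · exact Or.inr a2
        · exact Or.inl hpos
    linarith

lemma rf_ge' (hG : G.IsAcyclic) {f g : V → V} (hp : Pair G f g) {θ q : ℝ} (h0 : 0 ≤ θ)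
    (h3 : q ≤ 1) {R : ℕ} (hR : 1 ≤ R) (h : θ * R = q) (k : ℕ) (v : V) :
    q / 2 ≤ Pr (nu V) (fun y => RF f g θ q R k y v ∧ RF f g θ q R k y (g v)) := by
  simp only [rf_comm f g]
  exact rf_ge hG hp.symm h0 h3 hR h k v

/-- A fresh label is independent of an event that does not look at its slice. -/
lemma Pr_fresh {E : Y V × Y V → Prop} (hE : Measurable E) {k : ℕ}
    (hd : ∀ x, DependsOn (fun y => E (x, y)) {i | i.2 ≠ k}) (o : V) {q : ℝ} (h2 : 0 ≤ q)
    (h3 : q ≤ 1) :
    Pr ((nu V).prod (nu V)) (fun z => E z ∧ (z.2 (o, k) : ℝ) < q) =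
      q * Pr ((nu V).prod (nu V)) E := by
  have hm : Measurable fun z : Y V × Y V => E z ∧ (z.2 (o, k) : ℝ) < q :=
    hE.and ((meas_lab_lt (o, k) q).comp measurable_snd)
  rw [Pr_prod hm, Pr_prod hE, ← integral_const_mul]
  congr 1; funext x
  have := Pr_indep (E := fun y => E (x, y)) (F := fun y => (y (o, k) : ℝ) < q)
    (hE.comp measurable_prodMk_left) (meas_lab_lt (o, k) q) (hd x) (D' := {i | i.2 = k})
    (fun y y' hh => by simp only [hh (o, k) rfl])
    (Set.disjoint_left.2 fun i h1 h2 => h1 h2)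
  rw [Pr_lab_lt _ h2 h3, mul_comm] at this
  exact this

lemma rf_bd1 (hs : HasSwaps G) (o : V) {f g : Y V × Y V → V → V} (hf : EI (G := G) act2 f)
    (hg : EI (G := G) act2 g) {θ q : ℝ} (h0 : 0 ≤ θ) (h1 : θ ≤ 1) (h2 : 0 ≤ q) (h3 : q ≤ 1)
    (R : ℕ) {k : ℕ} (df : ∀ x, DependsOn (fun y => f (x, y)) {i | i.2 ≠ k})
    (dg : ∀ x, DependsOn (fun y => g (x, y)) {i | i.2 ≠ k}) :
    Pr ((nu V).prod (nu V)) (fun z => Bd (RF (f z) (g z) θ q R k z.2) (f z) o) ≤
      2 * θ + 2 * q * Pr ((nu V).prod (nu V)) (fun z => f z o = o ∨ g z o = o) := by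
  have hH : IP (G := G) act2 (fun z v => f z v = v ∨ g z v = v) :=
    (IP.fix hf.toEM).or (IP.fix hg.toEM)
  have hM : IP (G := G) act2 (fun z => Mk (f z) (g z) θ q k z.2) :=
    (IP.lab k θ).snd.or (hH.and (IP.lab k q).snd)
  have e1 := Pr_mtp_walk (μ := (nu V).prod (nu V)) hs act2_mp hM hg hf R o
  have e2 := Pr_mtp_walk (μ := (nu V).prod (nu V)) hs act2_mp hM hf hg (R + 1) o
  have e3 := Pr_or_le (μ := (nu V).prod (nu V))
    (E := fun z => Bd (RF (f z) (g z) θ q R k z.2) (f z) o)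
    (E₁ := fun z => Mk (f z) (g z) θ q k z.2 (walk (g z) (f z) R o))
    (E₂ := fun z => Mk (f z) (g z) θ q k z.2 (walk (f z) (g z) (R + 1) o)) fun z hz => by
      by_cases ha : RF (f z) (g z) θ q R k z.2 o
      · exact Or.inl (Ball.boundary (hf.inv z) ha fun hb => hz ⟨fun _ => hb, fun _ => ha⟩).2.2
      · have hb : RF (f z) (g z) θ q R k z.2 (f z o) := by
          by_contra hb
          exact hz ⟨fun h => absurd h ha, fun h => absurd h hb⟩
        exact Or.inr (Ball.boundary (hf.inv z) hb (by rw [hf.inv z]; exact ha)).2.2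
  have e4 := Pr_or_le (μ := (nu V).prod (nu V)) (E := fun z => Mk (f z) (g z) θ q k z.2 o)
    fun z hz => hz
  have e5 : Pr ((nu V).prod (nu V)) (fun z => (z.2 (o, k) : ℝ) < θ) = θ :=
    (Pr_map measurePreserving_snd (meas_lab_lt (o, k) θ)).trans (Pr_lab_lt _ h0 h1)
  have e6 := Pr_fresh (hH.at o) (k := k) (fun x y y' hh => by
    have a1 : f (x, y) = f (x, y') := df x hh
    have a2 : g (x, y) = g (x, y') := dg x hh
    simp only [a1, a2]) o h2 h3
  linarith

lemma Pr_two_le {s : Y V × Y V → Fin Δ → V → V} (h : EC (G := G) act2 s) (o : V) {a b : Fin Δ}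
    (hab : a ≠ b) : Pr ((nu V).prod (nu V)) (fun z => s z a o = o ∨ s z b o = o) ≤
      ∫ z, holes (s z) o ∂((nu V).prod (nu V)) := by
  have hm := ((IP.fix (h.em a)).or (IP.fix (h.em b))).at o
  rw [Pr_eq hm]
  refine int_mono (BM.ind hm) ((IF.holes h).bm o) fun z => (ind_or_le _ _).trans ?_
  rw [holes_split hab]
  exact le_add_of_nonneg_right (Finset.sum_nonneg fun _ _ => ind_nonneg _)

lemma rf_bd (hs : HasSwaps G) (o : V) {s : Y V × Y V → Fin Δ → V → V} (h : EC (G := G) act2 s)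
    {a b : Fin Δ} (hab : a ≠ b) {θ q : ℝ} (h0 : 0 ≤ θ) (h1 : θ ≤ 1) (h2 : 0 ≤ q) (h3 : q ≤ 1)
    (R : ℕ) {k : ℕ} (hd : ∀ x, DependsOn (fun y => s (x, y)) {i | i.2 ≠ k}) {p : Fin Δ}
    (hp : p = a ∨ p = b) :
    Pr ((nu V).prod (nu V)) (fun z => Bd (RF (s z a) (s z b) θ q R k z.2) (s z p) o) ≤
      2 * θ + 2 * q * ∫ z, holes (s z) o ∂((nu V).prod (nu V)) := by
  have dd : ∀ c x, DependsOn (fun y => s (x, y) c) {i | i.2 ≠ k} := fun c x y y' hh => by
    have : s (x, y) = s (x, y') := hd x hh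
    simp only [this]
  rcases hp with rfl | rfl
  · refine (rf_bd1 hs o (h.ei p) (h.ei b) h0 h1 h2 h3 R (dd p) (dd b)).trans ?_
    have := mul_le_mul_of_nonneg_left (Pr_two_le h o hab) h2
    linarith
  · simp only [fun z => rf_comm (s z a) (s z p)]
    refine (rf_bd1 hs o (h.ei p) (h.ei a) h0 h1 h2 h3 R (dd p) (dd a)).trans ?_
    have := mul_le_mul_of_nonneg_left (Pr_two_le h o hab.symm) h2
    linarith

end RFl
end Pool.Agent.MP_93f6c7_pr
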