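import Pool.Agent.MP_93f6c7_pr.Defs
import Pool.Agent.MP_93f6c7_pr.GapA

/-!
# Spectral gap for Bernoulli labels on a regular tree
-/

set_option autoImplicit false
open MeasureTheory Filter Topology
open scoped Classical

namespace Pool.Agent.MP_93f6c7_pr

namespace Gap

variable {V : Type}

/-- Bounded measurable functions of the labels. -/
def BM (V : Type) : Submodule ℝ (Y V → ℝ) where
  carrier := {f | Measurable f ∧ ∃ B, ∀ y, |f y| ≤ B}
  add_mem' := fun {f g} ⟨h1, B, h2⟩ ⟨h3, C, h4⟩ => ⟨h1.add h3, B + C, fun y =>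
    (abs_add_le _ _).trans (add_le_add (h2 y) (h4 y))⟩
  zero_mem' := ⟨measurable_const, 0, fun _ => by simp⟩
  smul_mem' := fun c f ⟨h1, B, h2⟩ => ⟨h1.const_mul c, |c| * B, fun y => by
    rw [Pi.smul_apply, smul_eq_mul, abs_mul]
    exact mul_le_mul_of_nonneg_left (h2 y) (abs_nonneg c)⟩

theorem integrable_of_bdd {Z : Type} [MeasurableSpace Z] {μ : Measure Z} [IsFiniteMeasure μ]
    {f : Z → ℝ} (h : Measurable f) {B : ℝ} (hB : ∀ y, |f y| ≤ B) : Integrable f μ :=
  Integrable.of_bound h.aestronglyMeasurable B (Eventually.of_forall hB)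

theorem BM.mul {f g : Y V → ℝ} (hf : f ∈ BM V) (hg : g ∈ BM V) : (fun y => f y * g y) ∈ BM V := by
  obtain ⟨h1, B, h2⟩ := hf
  obtain ⟨h3, C, h4⟩ := hg
  refine ⟨h1.mul h3, B * C, fun y => ?_⟩
  rw [abs_mul]
  exact mul_le_mul (h2 y) (h4 y) (abs_nonneg _) ((abs_nonneg _).trans (h2 y))

theorem BM.int {f : Y V → ℝ} (hf : f ∈ BM V) : Integrable f (nu V) :=
  let ⟨h1, _, h2⟩ := hf
  integrable_of_bdd h1 h2

/-- Labels from `y` on `T` and from `y'` elsewhere. -/
noncomputable def pw (T : Set (V × ℕ)) (y y' : Y V) : Y V := fun i => if i ∈ T then y i else y' i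

theorem pw_pw (T T' : Set (V × ℕ)) (y y' y'' : Y V) :
    pw T' (pw T y y') y'' = pw (T ∩ T') y (pw T' y' y'') := by
  ext i
  by_cases h : i ∈ T <;> by_cases h' : i ∈ T' <;> simp [pw, h, h']

theorem pw_same (T : Set (V × ℕ)) (y y' y'' : Y V) : pw T (pw T y y') y'' = pw T y y'' := by
  ext i
  by_cases h : i ∈ T <;> simp [pw, h]

theorem pw_empty (y y' : Y V) : pw ∅ y y' = y' := by
  ext i
  simp [pw]

theorem meas_pw (T : Set (V × ℕ)) : Measurable fun z : Y V × Y V => pw T z.1 z.2 := by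
  refine measurable_pi_lambda _ fun i => ?_
  by_cases h : i ∈ T <;> simp only [pw, h, if_true, if_false] <;> fun_prop

theorem mp_pw (T : Set (V × ℕ)) :
    MeasurePreserving (fun z : Y V × Y V => pw T z.1 z.2) ((nu V).prod (nu V)) (nu V) := by
  refine ⟨meas_pw T, Measure.eq_infinitePi _ fun s t ht => ?_⟩
  rw [Measure.map_apply (meas_pw T) (MeasurableSet.pi s.countable_toSet fun i _ => ht i)]
  have : (fun z : Y V × Y V => pw T z.1 z.2) ⁻¹' Set.pi s t =
      Set.pi (s.filter (· ∈ T)) t ×ˢ Set.pi (s.filter (· ∉ T)) t := by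
    ext z
    simp only [Set.mem_preimage, Set.mem_pi, Finset.mem_coe, Set.mem_prod, Finset.mem_filter]
    constructor
    · intro h
      exact ⟨fun i hi => by simpa [pw, hi.2] using h i hi.1,
        fun i hi => by simpa [pw, hi.2] using h i hi.1⟩
    · intro h i hi
      by_cases h1 : i ∈ T
      · simpa [pw, h1] using h.1 i ⟨hi, h1⟩
      · simpa [pw, h1] using h.2 i ⟨hi, h1⟩
  rw [this, Measure.prod_prod, nu, Measure.infinitePi_pi _ fun i _ => ht i,
    Measure.infinitePi_pi _ fun i _ => ht i, Finset.prod_filter_mul_prod_filter_not]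

theorem integral_pw (T : Set (V × ℕ)) {f : Y V → ℝ} (hf : f ∈ BM V) :
    ∫ y, ∫ y', f (pw T y y') ∂(nu V) ∂(nu V) = ∫ y, f y ∂(nu V) := by
  obtain ⟨h1, B, h2⟩ := hf
  rw [← integral_prod (fun z : Y V × Y V => f (pw T z.1 z.2))
    (integrable_of_bdd (h1.comp (meas_pw T)) fun _ => h2 _), ← (mp_pw T).map_eq,
    integral_map (meas_pw T).aemeasurable h1.aestronglyMeasurable, (mp_pw T).map_eq]

theorem BM.comp_pw {f : Y V → ℝ} (hf : f ∈ BM V) (T : Set (V × ℕ)) (y : Y V) :
    (fun y' => f (pw T y y')) ∈ BM V :=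
  let ⟨h1, B, h2⟩ := hf
  ⟨h1.comp ((meas_pw T).comp measurable_prodMk_left), B, fun _ => h2 _⟩

theorem abs_P_le {f : Y V → ℝ} {B : ℝ} (h : ∀ y, |f y| ≤ B) (T : Set (V × ℕ)) (y : Y V) :
    |∫ y', f (pw T y y') ∂(nu V)| ≤ B := by
  simpa using norm_integral_le_of_norm_le_const (μ := nu V)
    (f := fun y' => f (pw T y y')) (C := B) (Eventually.of_forall fun _ => h _)

/-- Averaging over the coordinates outside `T`. -/
noncomputable def PT (T : Set (V × ℕ)) : BM V →ₗ[ℝ] BM V where
  toFun f := ⟨fun y => ∫ y', f.1 (pw T y y') ∂(nu V),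
    (StronglyMeasurable.integral_prod_right' (f := fun z : Y V × Y V => f.1 (pw T z.1 z.2))
      (f.2.1.comp (meas_pw T)).stronglyMeasurable).measurable,
    let ⟨B, h⟩ := f.2.2; ⟨B, abs_P_le h T⟩⟩
  map_add' f g := Subtype.ext (funext fun y => integral_add (BM.int (BM.comp_pw f.2 T y))
    (BM.int (BM.comp_pw g.2 T y)))
  map_smul' c _ := Subtype.ext (funext fun _ => integral_const_mul c _)

theorem PT_apply (T : Set (V × ℕ)) (f : BM V) (y : Y V) :
    (PT T f).1 y = ∫ y', f.1 (pw T y y') ∂(nu V) := rfl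

/-- The inner product. -/
noncomputable def ip : BM V →ₗ[ℝ] BM V →ₗ[ℝ] ℝ :=
  LinearMap.mk₂ ℝ (fun f g => ∫ y, f.1 y * g.1 y ∂(nu V))
    (fun f f' g => by
      rw [← integral_add (BM.int (BM.mul f.2 g.2)) (BM.int (BM.mul f'.2 g.2))]
      simp [add_mul])
    (fun c f g => by simp [mul_assoc, integral_const_mul])
    (fun f g g' => by
      rw [← integral_add (BM.int (BM.mul f.2 g.2)) (BM.int (BM.mul f.2 g'.2))]
      simp [mul_add])
    (fun c f g => by simp [mul_left_comm _ c, integral_const_mul])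

theorem ip_apply (f g : BM V) : ip f g = ∫ y, f.1 y * g.1 y ∂(nu V) := rfl

theorem ip_symm (f g : BM V) : ip f g = ip g f := by simp only [ip_apply, mul_comm]

theorem ip_PT (T : Set (V × ℕ)) (f g : BM V) : ip (PT T f) g = ip (PT T f) (PT T g) := by
  rw [ip_apply, ip_apply, ← integral_pw T (BM.mul (PT T f).2 g.2)]
  refine integral_congr_ae (Eventually.of_forall fun y => ?_)
  simp only [PT_apply, pw_same, integral_const_mul]

/-- The projections. -/
noncomputable def D (V : Type) : Proj (BM V) (V × ℕ) where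
  β := ip
  P := PT
  symm := ip_symm
  pos a := integral_nonneg fun _ => mul_self_nonneg _
  PP T T' a := Subtype.ext (funext fun y => by
    simp only [PT_apply]
    rw [← integral_pw T' (BM.comp_pw a.2 (T ∩ T') y)]
    simp only [pw_pw])
  adj T a b := by rw [ip_PT, ip_symm a, ip_PT T b a, ip_symm]

theorem abs_ip_le {a : BM V} {B : ℝ} (h : ∀ y, |a.1 y| ≤ B) (x : BM V) :
    |ip a x| ≤ B * ∫ y, ‖x.1 y‖ ∂(nu V) := by
  rw [← integral_const_mul, ip_apply, ← Real.norm_eq_abs]
  refine norm_integral_le_of_norm_le ((BM.int x.2).norm.const_mul B)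
    (Eventually.of_forall fun y => ?_)
  rw [norm_mul]
  exact mul_le_mul_of_nonneg_right (h y) (norm_nonneg _)

theorem tendsto_ip [Countable V] (a g : BM V) :
    Tendsto (fun U : Finset (V × ℕ) => ip (PT U a) g) atTop (𝓝 (ip a g)) := by
  obtain ⟨B, hB⟩ := a.2.2
  have hB0 : 0 ≤ B := (abs_nonneg _).trans (hB fun _ => 0)
  have key : ∀ c : BM V, Continuous c.1 →
      Tendsto (fun U : Finset (V × ℕ) => ip a (PT U c)) atTop (𝓝 (ip a c)) := by
    intro c hc
    obtain ⟨C, hC⟩ := c.2.2
    refine tendsto_integral_filter_of_dominated_convergence (fun _ => B * C)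
      (Eventually.of_forall fun U => (BM.int (BM.mul a.2 (PT U c).2)).aestronglyMeasurable)
      (Eventually.of_forall fun U => Eventually.of_forall fun y => ?_) (integrable_const _)
      (Eventually.of_forall fun y => Tendsto.const_mul _ ?_)
    · rw [norm_mul]
      exact mul_le_mul (hB y) (abs_P_le hC _ y) (norm_nonneg _) hB0
    · have h1 := tendsto_integral_filter_of_dominated_convergence (μ := nu V) (l := atTop)
        (F := fun (U : Finset (V × ℕ)) y' => c.1 (pw U y y'))
        (f := fun _ => c.1 y) (fun _ => C)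
        (Eventually.of_forall fun U => (BM.int (BM.comp_pw c.2 U y)).aestronglyMeasurable)
        (Eventually.of_forall fun U => Eventually.of_forall fun y' => hC _) (integrable_const _)
        (Eventually.of_forall fun y' => (hc.tendsto y).comp (tendsto_pi_nhds.2 fun i =>
          tendsto_const_nhds.congr' (by
            filter_upwards [eventually_ge_atTop {i}] with U hU
            have : i ∈ (U : Set (V × ℕ)) := hU (Finset.mem_singleton_self i)
            simp [pw, this])))
      simpa [PT_apply] using h1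
  refine Metric.tendsto_nhds.2 fun ε hε => ?_
  obtain ⟨c, hc, -⟩ := (BM.int g.2).exists_boundedContinuous_integral_sub_le
    (ε := ε / (3 * (B + 1))) (by positivity)
  let c' : BM V := ⟨c, c.continuous.measurable, ‖c‖, fun y => c.norm_coe_le_norm y⟩
  have h1 : B * ∫ y, ‖(g - c').1 y‖ ∂(nu V) ≤ ε / 3 := by
    refine (mul_le_mul_of_nonneg_left hc hB0).trans ?_
    rw [mul_div_assoc', div_le_div_iff₀ (by positivity) (by positivity)]
    nlinarith
  filter_upwards [Metric.tendsto_nhds.1 (key c' c.continuous) (ε / 3) (by positivity)] with U hU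
  have h2 := abs_le.1 ((abs_ip_le hB (g - c')).trans h1)
  have h3 := abs_le.1 ((abs_ip_le (a := PT U a) (abs_P_le hB _) (g - c')).trans h1)
  have h4 : ip (PT U a) c' = ip a (PT U c') := (D V).adj _ _ _
  rw [map_sub] at h2 h3
  rw [Real.dist_eq, abs_lt] at hU ⊢
  constructor <;> linarith [hU.1, hU.2, h2.1, h2.2, h3.1, h3.2]

variable {G : SimpleGraph V}

theorem meas_act (φ : G ≃g G) : Measurable (act φ : Y V → Y V) :=
  measurable_pi_lambda _ fun _ => measurable_pi_apply _

theorem mp_act (φ : G ≃g G) : MeasurePreserving (act φ) (nu V) (nu V) :=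
  ⟨meas_act φ, Measure.map_infinitePi_infinitePi_of_inj
    (P := fun _ : V × ℕ => (volume : Measure unitInterval)) (f := fun i : V × ℕ => (φ i.1, i.2))
    (φ.toEquiv.prodCongr (Equiv.refl ℕ)).injective⟩

theorem integral_act (φ : G ≃g G) {f : Y V → ℝ} (hf : Measurable f) :
    ∫ y, f (act φ y) ∂(nu V) = ∫ y, f y ∂(nu V) := by
  rw [← integral_map (meas_act φ).aemeasurable hf.aestronglyMeasurable, (mp_act φ).map_eq]

theorem ip_act (φ : G ≃g G) {a f : BM V} (h : ∀ y, a.1 y = f.1 (act φ y)) (T : Set (V × ℕ)) :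
    ip (PT T a) a = ip (PT ((φ.toEquiv.prodCongr (Equiv.refl ℕ)).symm '' T) f) f := by
  rw [ip_apply, ip_apply, ← integral_act φ (BM.mul (PT _ f).2 f.2).1]
  congr 1
  ext y
  rw [h, PT_apply, PT_apply, ← integral_act φ (BM.comp_pw f.2 _ (act φ y)).1]
  congr 2
  ext y'
  rw [h, Equiv.image_eq_preimage_symm]
  rfl

theorem dist_iso (hG : G.Connected) (φ : G ≃g G) (u v : V) : G.dist (φ u) (φ v) = G.dist u v := by
  have key : ∀ (ψ : G ≃g G) (u v : V), G.dist (ψ u) (ψ v) ≤ G.dist u v := fun ψ u v => by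
    obtain ⟨p, hp⟩ := hG.exists_walk_length_eq_dist u v
    simpa [hp] using SimpleGraph.dist_le (p.map ψ.toHom)
  refine le_antisymm (key φ u v) ?_
  simpa using key φ.symm (φ u) (φ v)

theorem eq_penultimate (hG : G.IsTree) {v o w : V} {q : G.Walk v o} (hq : q.IsPath)
    (hw : G.Adj o w) (h : G.dist v w < G.dist v o) : w = q.penultimate := by
  obtain ⟨p, hp, hp'⟩ := hG.connected.exists_path_of_dist v w
  refine hG.isAcyclic.eq_penultimate_of_adj_end hq hw
    (hG.isAcyclic.mem_support_of_ne_mem_support_of_adj_of_isPath hq hp hw fun ho => ?_)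
  have h1 := SimpleGraph.dist_le (p.takeUntil o ho)
  have h2 := p.length_takeUntil_le_length ho
  omega

end Gap

open Gap in
theorem hasGap {V : Type} [Countable V] {G : SimpleGraph V} [G.LocallyFinite] {Δ : ℕ}
    (h : RT G Δ) (hs : HasSwaps G) (o : V) : HasGap G o := by
  intro H g B hH hg hHB hgB heq
  set m := ∫ x, H x o ∂(nu V) with hm
  have hb : ∀ x : ℝ, |x| ≤ B → |x - m| ≤ B + |m| := fun x hx =>
    (abs_sub _ _).trans (add_le_add hx le_rfl)
  let a : V → BM V := fun w => ⟨fun y => H y w - m, (hH w).sub_const m, _, fun y => hb _ (hHB y w)⟩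
  let g' : BM V := ⟨fun y => g y - m, hg.sub_const m, _, fun y => hb _ (hgB y)⟩
  have hφ : ∀ w, ∃ φ : G ≃g G, G.Adj o w → φ o = w ∧ φ w = o := fun w => by
    by_cases hw : G.Adj o w
    · exact (hs o w hw).imp fun _ h _ => h
    · exact ⟨SimpleGraph.Iso.refl, fun h => absurd h hw⟩
  choose φ hφ using hφ
  have ha : ∀ w ∈ G.neighborFinset o, ∀ y, (a w).1 y = (a o).1 (act (φ w) y) := fun w hw y => by
    change H y w - m = H (act (φ w) y) o - m
    rw [heq, (hφ w (by simpa using hw)).1]
  have h0 : ∫ y, (a o).1 y ∂(nu V) = 0 := by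
    change ∫ y, H y o - m ∂(nu V) = 0
    rw [integral_sub (integrable_of_bdd (hH o) fun y => hHB y o) (integrable_const _)]
    simp [hm]
  have key := fun U => (D V).schur (G.neighborFinset o)
    (fun w => {j : V × ℕ | G.dist j.1 w < G.dist j.1 o}) (fun w hw w' hw' j h1 h2 => by
      obtain ⟨q, hq, -⟩ := h.tree.connected.exists_path_of_dist j.1 o
      rw [eq_penultimate h.tree hq (by simpa using hw) h1,
        eq_penultimate h.tree hq (by simpa using hw') h2])
    (fun w => ((φ w).toEquiv.prodCongr (Equiv.refl ℕ)).symm) (fun w hw j => by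
      have hw' : G.Adj o w := by simpa using hw
      have h1 := dist_iso h.tree.connected (φ w) ((φ w).symm j.1) w
      have h2 := dist_iso h.tree.connected (φ w) ((φ w).symm j.1) o
      have h3 := h.tree.dist_ne_of_adj j.1 hw'
      rw [RelIso.apply_symm_apply, (hφ w hw').2] at h1
      rw [RelIso.apply_symm_apply, (hφ w hw').1] at h2
      change G.dist ((φ w).symm j.1) w < G.dist ((φ w).symm j.1) o ↔
        ¬ G.dist j.1 w < G.dist j.1 o
      omega) a (a o) g' (fun w hw => Subtype.ext (funext fun y => by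
      change ∫ y', (a w).1 (pw ∅ y y') ∂(nu V) = 0
      simp only [pw_empty, ha w hw]
      rw [integral_act (φ w) (a o).2.1, h0])) (fun w hw T => ip_act (φ w) (ha w hw) T) U
  have lim := le_of_tendsto' ((tendsto_finsetSum (G.neighborFinset o)
    fun w _ => tendsto_ip (a w) g').const_mul 2) key
  rw [SimpleGraph.card_neighborFinset_eq_degree, h.reg] at lim
  have e1 : ∫ y, (H y o - m) ^ 2 ∂(nu V) = ip (a o) (a o) := by simp only [ip_apply, sq, a]
  have e2 : ∀ w ∈ G.neighborFinset o, ∫ y, (H y w - g y) ^ 2 ∂(nu V) =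
      ip (a o) (a o) + ip g' g' - 2 * ip (a w) g' := fun w hw => by
    have e3 : ip (a w) (a w) = ip (a o) (a o) := by
      simp only [ip_apply, ha w hw]
      exact integral_act (φ w) (BM.mul (a o).2 (a o).2).1
    have e4 : ∫ y, (H y w - g y) ^ 2 ∂(nu V) = ip (a w - g') (a w - g') := by
      rw [ip_apply]
      congr 1
      ext y
      change _ = (H y w - m - (g y - m)) * (H y w - m - (g y - m))
      ring
    rw [e4]
    simp only [map_sub, LinearMap.sub_apply]
    rw [e3, ip_symm g' (a w)]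
    ring
  rw [e1, Finset.sum_congr rfl e2, Finset.sum_sub_distrib, Finset.sum_const, ← Finset.mul_sum,
    SimpleGraph.card_neighborFinset_eq_degree, h.reg, nsmul_eq_mul]
  have p1 : 0 ≤ ip (a o) (a o) := (D V).pos _
  have p2 : 0 ≤ ip g' g' := (D V).pos _
  have p3 : (3 : ℝ) ≤ Δ := by exact_mod_cast h.three
  change 2 * ∑ w ∈ G.neighborFinset o, ip (a w) g' ≤
    (2 / 3 * Δ + 5 / 6) * (ip (a o) (a o) + ip g' g') at lim
  nlinarith

end Pool.Agent.MP_93f6c7_pr
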