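import Pool.Agent.MP_93f6c7_pr.RunDefs

/-! One-step operators of the killed chain: Markov property, adjoints, masses. -/

set_option autoImplicit false
set_option linter.unusedSectionVars false
set_option linter.unusedVariables false
open MeasureTheory Function
open scoped Classical

namespace Pool.Agent.MP_93f6c7_pr
namespace L2

variable {V : Type} [MeasurableSpace V] [DiscreteMeasurableSpace V] [Countable V]
  {G : SimpleGraph V} [G.LocallyFinite]

/-- The value of `F` after a surviving step along `τ`. -/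
noncomputable def Ker (τ : Y V × Y V → V → V) (P : Y V × Y V → V → Prop) (F : Y V → V → ℝ)
    (z : Y V × Y V) (v : V) : ℝ := ind (τ z v ≠ v ∧ P z (τ z v)) * F z.1 (τ z v)

/-- The one-step operator. -/
noncomputable def Op (τ : Y V × Y V → V → V) (P : Y V × Y V → V → Prop) (F : Y V → V → ℝ)
    (x : Y V) (v : V) : ℝ := ∫ y, Ker τ P F (x, y) v ∂(nu V)

variable {τ : Y V × Y V → V → V} {P : Y V × Y V → V → Prop} {F H : Y V → V → ℝ}

lemma if_integral {Φ : Y V × Y V → V → ℝ} (h : IF (G := G) act2 Φ) :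
    IF (G := G) act (fun x v => ∫ y, Φ (x, y) v ∂(nu V)) := by
  obtain ⟨B, hB⟩ := h.bdd
  refine ⟨measurable_pi_lambda _ fun v => ((h.bm v).integral (nu V)).meas, ⟨B, fun x v => ?_⟩,
    fun φ x v => ?_⟩
  · have := norm_integral_le_of_norm_le_const (μ := nu V) (f := fun y => Φ (x, y) v) (C := B)
      (Filter.Eventually.of_forall fun y => hB _ _)
    simpa using this
  · rw [← int_map (act_mp φ) (f := fun y => Φ (act φ x, y) v) ((h.bm v).left _).meas]
    congr 1
    funext y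
    exact h.inv φ (x, y) v

lemma if_ker (hτ : EI (G := G) act2 τ) (hP : IP (G := G) act2 P) (hF : IF (G := G) act F) :
    IF (G := G) act2 (Ker τ P F) :=
  (((IP.fix hτ.toEM).not.and (hP.comp hτ.toEM)).ind).mul (hF.fst.comp hτ.toEM)

lemma if_op (hτ : EI (G := G) act2 τ) (hP : IP (G := G) act2 P) (hF : IF (G := G) act F) :
    IF (G := G) act (Op τ P F) := if_integral (if_ker hτ hP hF)

lemma op_nonneg (hF : ∀ x v, 0 ≤ F x v) (x : Y V) (v : V) : 0 ≤ Op τ P F x v :=
  integral_nonneg fun _ => mul_nonneg (ind_nonneg _) (hF _ _)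

lemma op_le (hτ : EI (G := G) act2 τ) (hP : IP (G := G) act2 P) (hF : IF (G := G) act F)
    {c : ℝ} (hc : 0 ≤ c) (h : ∀ x v, F x v ≤ c) (x : Y V) (v : V) : Op τ P F x v ≤ c := by
  have := int_mono (μ := nu V) (((if_ker hτ hP hF).bm v).left x) (BM.const c) (fun y => by
    unfold Ker
    by_cases hh : τ (x, y) v ≠ v ∧ P (x, y) (τ (x, y) v)
    · rw [ind_pos hh, one_mul]; exact h _ _
    · rw [ind_neg hh, zero_mul]; exact hc)
  rwa [int_const] at this

lemma op_sum (hτ : EI (G := G) act2 τ) (hP : IP (G := G) act2 P) {Fs : ℕ → Y V → V → ℝ}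
    (hF : ∀ t, IF (G := G) act (Fs t)) (s : Finset ℕ) (x : Y V) (v : V) :
    Op τ P (fun x v => ∑ t ∈ s, Fs t x v) x v = ∑ t ∈ s, Op τ P (Fs t) x v := by
  unfold Op
  rw [← int_sum fun t _ => ((if_ker hτ hP (hF t)).bm v).left x]
  congr 1
  funext y
  unfold Ker
  rw [Finset.mul_sum]

lemma decomp {t v : V} (hadj : t ≠ v → G.Adj v t) (Q : V → Prop) (f : V → ℝ) :
    ind (t ≠ v ∧ Q t) * f t = ∑ w ∈ G.neighborFinset v, ind (t = w ∧ Q w) * f w := by
  by_cases h : t = v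
  · rw [ind_neg (fun hh => hh.1 h), zero_mul]
    refine (Finset.sum_eq_zero fun w hw => ?_).symm
    rw [ind_neg, zero_mul]
    rintro ⟨rfl, -⟩
    have : G.Adj v t := by simpa using hw
    exact this.ne h.symm
  · rw [Finset.sum_eq_single t]
    · congr 1
      exact ind_congr ⟨fun hh => ⟨rfl, hh.2⟩, fun hh => ⟨h, hh.2⟩⟩
    · intro w _ hw
      rw [ind_neg (fun hh => hw hh.1.symm), zero_mul]
    · intro hh
      exact absurd (by simpa using hadj h) hh

/-- Markov property. -/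
lemma markov (hτ : EI (G := G) act2 τ) (hP : IP (G := G) act2 P)
    {K : Y V × Y V → V → Prop} (hK : IP (G := G) act2 K) (x : Y V) (v : V)
    {D D' : V → Set (V × ℕ)} (hD : ∀ w, Disjoint (D w) (D' w))
    (h1 : ∀ w, DependsOn (fun y => τ (x, y) v = w ∧ P (x, y) w) (D w))
    (h2 : ∀ w, DependsOn (fun y => K (x, y) w) (D' w)) :
    Pr (nu V) (fun y => (τ (x, y) v ≠ v ∧ P (x, y) (τ (x, y) v)) ∧ K (x, y) (τ (x, y) v)) =
      Op τ P (fun x w => Pr (nu V) (fun y => K (x, y) w)) x v := by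
  have m0 : Measurable fun y => (τ (x, y) v ≠ v ∧ P (x, y) (τ (x, y) v)) ∧
      K (x, y) (τ (x, y) v) :=
    ((((IP.fix hτ.toEM).not.and (hP.comp hτ.toEM)).and (hK.comp hτ.toEM)).at v).comp
      measurable_prodMk_left
  have m1 : ∀ w, Measurable fun y => τ (x, y) v = w ∧ P (x, y) w := fun w =>
    (meas_eq ((meas_at hτ.meas v).comp measurable_prodMk_left) measurable_const).and
      ((hP.at w).comp measurable_prodMk_left)
  have m2 : ∀ w, Measurable fun y => K (x, y) w := fun w => (hK.at w).comp measurable_prodMk_left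
  rw [Pr_eq m0]
  unfold Op Ker
  have e1 : ∀ y, ind ((τ (x, y) v ≠ v ∧ P (x, y) (τ (x, y) v)) ∧ K (x, y) (τ (x, y) v)) =
      ∑ w ∈ G.neighborFinset v, ind (τ (x, y) v = w ∧ P (x, y) w) * ind (K (x, y) w) := fun y => by
    rw [ind_and]
    exact decomp (hτ.adj _ v) (P (x, y)) (fun w => ind (K (x, y) w))
  have e2 : ∀ y, ind (τ (x, y) v ≠ v ∧ P (x, y) (τ (x, y) v)) *
      Pr (nu V) (fun y' => K (x, y') (τ (x, y) v)) =
      ∑ w ∈ G.neighborFinset v, ind (τ (x, y) v = w ∧ P (x, y) w) *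
        Pr (nu V) (fun y' => K (x, y') w) := fun y =>
    decomp (hτ.adj _ v) (P (x, y)) (fun w => Pr (nu V) (fun y' => K (x, y') w))
  simp only [e1, e2]
  rw [int_sum fun w _ => (BM.ind (m1 w)).mul (BM.ind (m2 w)),
    int_sum fun w _ => (BM.ind (m1 w)).mul (BM.const _)]
  refine Finset.sum_congr rfl fun w _ => ?_
  rw [int_indep (BM.ind (m1 w)) (BM.ind (m2 w)) (fun _ _ hh => congrArg ind (h1 w hh))
    (fun _ _ hh => congrArg ind (h2 w hh)) (hD w), integral_mul_const, Pr_eq (m2 w)]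

/-- Adjoint formula. -/
lemma adjoint (hs : HasSwaps G) (hτ : EI (G := G) act2 τ) (hP : IP (G := G) act2 P)
    (hF : IF (G := G) act F) (hH : IF (G := G) act H) (o : V) :
    ∫ x, H x o * Op τ P F x o ∂(nu V) =
      ∫ z, ind (τ z o ≠ o ∧ P z o) * H z.1 (τ z o) * F z.1 o ∂((nu V).prod (nu V)) := by
  have hf : IF (G := G) act2 (fun z w => ind (τ z w ≠ w ∧ P z w) * H z.1 (τ z w) * F z.1 w) :=
    ((((IP.fix hτ.toEM).not.and hP).ind).mul (hH.fst.comp hτ.toEM)).mul hF.fst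
  rw [← int_mtp hs act2_mp hf hτ o, int_prod ((hf.comp hτ.toEM).bm o)]
  congr 1
  funext x
  unfold Op Ker
  rw [← integral_const_mul]
  congr 1
  funext y
  simp only [hτ.inv _ o]
  rw [ind_congr (show (o ≠ τ (x, y) o ∧ P (x, y) (τ (x, y) o)) ↔
    (τ (x, y) o ≠ o ∧ P (x, y) (τ (x, y) o)) from and_congr ne_comm Iff.rfl)]
  ring

lemma mass (hs : HasSwaps G) (hτ : EI (G := G) act2 τ) (hP : IP (G := G) act2 P)
    (hF : IF (G := G) act F) (o : V) :
    ∫ x, Op τ P F x o ∂(nu V) =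
      ∫ z, ind (τ z o ≠ o ∧ P z o) * F z.1 o ∂((nu V).prod (nu V)) := by
  have := adjoint hs hτ hP hF (IF.const 1) o
  simpa only [one_mul, mul_one] using this

lemma int_fst_ind {E : Y V × Y V → Prop} (hE : Measurable E) {f : Y V → ℝ} (hf : BM f) :
    ∫ z, ind (E z) * f z.1 ∂((nu V).prod (nu V)) =
      ∫ x, f x * Pr (nu V) (fun y => E (x, y)) ∂(nu V) := by
  rw [int_prod ((BM.ind hE).mul (hf.comp measurable_fst))]
  congr 1
  funext x
  rw [Pr_eq (E := fun y => E (x, y)) (hE.comp measurable_prodMk_left), ← integral_const_mul]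
  congr 1
  funext y
  exact mul_comm _ _

lemma int_fst {f : Y V → ℝ} (hf : BM f) :
    ∫ z, f z.1 ∂((nu V).prod (nu V)) = ∫ x, f x ∂(nu V) :=
  int_map measurePreserving_fst hf.meas

/-- Mass bound: the mass lost is at least the mass on any event `E` that kills the step. -/
lemma mass_le (hs : HasSwaps G) (hτ : EI (G := G) act2 τ) (hP : IP (G := G) act2 P)
    (hF : IF (G := G) act F) (h0 : ∀ x v, 0 ≤ F x v) (o : V) {E : Y V × Y V → Prop}
    (hE : Measurable E) (hk : ∀ z, E z → ¬ (τ z o ≠ o ∧ P z o)) :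
    ∫ x, Op τ P F x o ∂(nu V) ≤
      ∫ x, F x o ∂(nu V) - ∫ x, F x o * Pr (nu V) (fun y => E (x, y)) ∂(nu V) := by
  have b1 : BM fun z : Y V × Y V => F z.1 o := (hF.bm o).comp measurable_fst
  rw [mass hs hτ hP hF o, ← int_fst_ind hE (hF.bm o), ← int_fst (hF.bm o),
    ← int_sub b1 ((BM.ind hE).mul b1)]
  refine int_mono ((BM.ind (((IP.fix hτ.toEM).not.and hP).at o)).mul b1)
    (b1.sub ((BM.ind hE).mul b1)) fun z => ?_
  have := h0 z.1 o
  by_cases h : E z
  · rw [ind_neg (hk z h), ind_pos h]; linarith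
  · rw [ind_neg h]
    have := ind_le_one (τ z o ≠ o ∧ P z o)
    nlinarith

variable {A C : Y V × Y V → V → V} {Wn Act : Y V × Y V → V → Prop}
  {ΩA ΩB : Y V → V → Set (V × ℕ)}

/-- arrival probabilities -/
noncomputable def hh (A C : Y V × Y V → V → V) (Wn Act : Y V × Y V → V → Prop) (t : ℕ)
    (x : Y V) (v : V) : ℝ :=
  Pr (nu V) (fun y => Arr (A (x, y)) (C (x, y)) (Wn (x, y)) (Act (x, y)) t v)

/-- the `C` step -/
noncomputable abbrev Cop (C : Y V × Y V → V → V) := Op C (fun _ _ => True)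
/-- the `A` step -/
noncomputable abbrev Aop (A : Y V × Y V → V → V) (Wn : Y V × Y V → V → Prop) :=
  Op A (fun z v => ¬ Wn z v)

lemma if_hh (M : Markov G A C Wn Act ΩA ΩB) (t : ℕ) : IF (G := G) act (hh A C Wn Act t) :=
  IF.Pr (M.ip_arr t)

lemma depC' (M : Markov G A C Wn Act ΩA ΩB) (x : Y V) (v w : V) :
    DependsOn (fun y => C (x, y) v = w ∧ True) (ΩB x w) := by
  refine dep_of_imp fun y y' hy h => ⟨?_, trivial⟩
  have e : C (x, y) w = C (x, y') w := M.depC x w hy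
  have e1 : C (x, y) w = v := by rw [← h.1, M.eiC.inv]
  rw [← e1, e, M.eiC.inv]

lemma depA' (M : Markov G A C Wn Act ΩA ΩB) (x : Y V) (v w : V) :
    DependsOn (fun y => A (x, y) v = w ∧ ¬ Wn (x, y) w) (ΩA x w) := by
  refine dep_of_imp fun y y' hy h => ⟨?_, ?_⟩
  · have e : A (x, y) w = A (x, y') w := M.depA x w hy
    have e1 : A (x, y) w = v := by rw [← h.1, M.eiA.inv]
    rw [← e1, e, M.eiA.inv]
  · have e : Wn (x, y) w = Wn (x, y') w := M.depW x w hy
    rw [← e]; exact h.2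

lemma hh_zero (M : Markov G A C Wn Act ΩA ΩB) :
    hh A C Wn Act 0 = Cop C (fun x w => Pr (nu V) (fun y => Act (x, y) w)) := by
  funext x v
  refine Eq.trans ?_ (markov M.eiC (IP.const True) M.ipAct x v (fun w => (M.disj x w).symm)
    (depC' M x v) (M.depAct x))
  exact Pr_congr fun y => ⟨fun h => ⟨⟨h.1, trivial⟩, h.2⟩, fun h => ⟨h.1.1, h.2⟩⟩

lemma hh_succ (M : Markov G A C Wn Act ΩA ΩB) (t : ℕ) :
    hh A C Wn Act (t + 1) = Cop C (Aop A Wn (hh A C Wn Act t)) := by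
  have hB : IP (G := G) act2 (fun z w => (A z w ≠ w ∧ ¬ Wn z (A z w)) ∧
      Arr (A z) (C z) (Wn z) (Act z) t (A z w)) :=
    ((IP.fix M.eiA.toEM).not.and (M.ipW.not.comp M.eiA.toEM)).and ((M.ip_arr t).comp M.eiA.toEM)
  have e : Aop A Wn (hh A C Wn Act t) = fun x w => Pr (nu V) (fun y =>
      (A (x, y) w ≠ w ∧ ¬ Wn (x, y) (A (x, y) w)) ∧
        Arr (A (x, y)) (C (x, y)) (Wn (x, y)) (Act (x, y)) t (A (x, y) w)) := by
    funext x w
    exact (markov M.eiA M.ipW.not (M.ip_arr t) x w (M.disj x) (depA' M x w)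
      (M.arr_dep x t)).symm
  funext x v
  rw [e]
  refine Eq.trans ?_ (markov M.eiC (IP.const True) hB x v (fun w => (M.disj x w).symm)
    (depC' M x v) ?_)
  · exact Pr_congr fun y => ⟨fun h => ⟨⟨h.1, trivial⟩, ⟨h.2.1, h.2.2.1⟩, h.2.2.2⟩,
      fun h => ⟨h.1.1, h.2.1.1, h.2.1.2, h.2.2⟩⟩
  · intro w
    refine dep_of_imp fun y y' hy h => ?_
    obtain ⟨⟨h2, h3⟩, h4⟩ := h
    have e2 : A (x, y) w = A (x, y') w := M.depA x _ hy
    have e3 : Wn (x, y) (A (x, y) w) = Wn (x, y') (A (x, y') w) := M.depW' x _ hy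
    have e4 := M.arr_dep x t (A (x, y) w) fun i hi => hy i (M.nestA x y _ h2 hi)
    refine ⟨⟨e2 ▸ h2, e3 ▸ h3⟩, ?_⟩
    rw [← e2]; exact e4.mp h4

lemma hh_nonneg (t : ℕ) (x : Y V) (v : V) : 0 ≤ hh A C Wn Act t x v := Pr_nonneg _

lemma cop_mass (hs : HasSwaps G) (M : Markov G A C Wn Act ΩA ΩB) (hF : IF (G := G) act F)
    (h0 : ∀ x v, 0 ≤ F x v) (o : V) : ∫ x, Cop C F x o ∂(nu V) ≤ ∫ x, F x o ∂(nu V) := by
  have := mass_le hs M.eiC (IP.const True) hF h0 o (E := fun _ => False) measurable_const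
    (fun _ h => h.elim)
  simp only [Pr_false (μ := nu V) (E := fun _ => False) (fun _ h => h), mul_zero,
    integral_zero, sub_zero] at this
  exact this

lemma mass_zero (hs : HasSwaps G) (M : Markov G A C Wn Act ΩA ΩB) (o : V) :
    ∫ x, hh A C Wn Act 0 x o ∂(nu V) ≤ Pr ((nu V).prod (nu V)) (fun z => Act z o) := by
  rw [hh_zero M, Pr_prod (M.ipAct.at o)]
  exact cop_mass hs M (IF.Pr M.ipAct) (fun _ _ => Pr_nonneg _) o

lemma mass_succ (hs : HasSwaps G) (M : Markov G A C Wn Act ΩA ΩB) (o : V) (t : ℕ) :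
    ∫ x, hh A C Wn Act (t + 1) x o ∂(nu V) ≤ ∫ x, hh A C Wn Act t x o ∂(nu V) -
      ∫ x, hh A C Wn Act t x o * Pr (nu V) (fun y => Wn (x, y) o) ∂(nu V) := by
  rw [hh_succ M]
  refine (cop_mass hs M (if_op M.eiA M.ipW.not (if_hh M t))
    (op_nonneg (hh_nonneg t)) o).trans ?_
  exact mass_le hs M.eiA M.ipW.not (if_hh M t) (hh_nonneg t) o (M.ipW.at o)
    (fun z h hn => hn.2 h)

lemma occ_eq (m : ℕ) : occ A C Wn Act m = fun x v => ∑ t ∈ Finset.range m, hh A C Wn Act t x v :=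
  rfl

lemma claim2 (hs : HasSwaps G) (M : Markov G A C Wn Act ΩA ΩB) (o : V) (m : ℕ) :
    ∫ x, occ A C Wn Act m x o * Pr (nu V) (fun y => Wn (x, y) o) ∂(nu V) ≤
      Pr ((nu V).prod (nu V)) (fun z => Act z o) := by
  have key : ∫ x, occ A C Wn Act m x o * Pr (nu V) (fun y => Wn (x, y) o) ∂(nu V) +
      ∫ x, hh A C Wn Act m x o ∂(nu V) ≤ ∫ x, hh A C Wn Act 0 x o ∂(nu V) := by
    induction m with
    | zero => simp [occ]
    | succ m ih =>
      have e : ∫ x, occ A C Wn Act (m + 1) x o * Pr (nu V) (fun y => Wn (x, y) o) ∂(nu V) =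
          ∫ x, occ A C Wn Act m x o * Pr (nu V) (fun y => Wn (x, y) o) ∂(nu V) +
          ∫ x, hh A C Wn Act m x o * Pr (nu V) (fun y => Wn (x, y) o) ∂(nu V) := by
        rw [← int_add (((M.if_occ m).bm o).mul ((IF.Pr M.ipW).bm o))
          (((if_hh M m).bm o).mul ((IF.Pr M.ipW).bm o))]
        congr 1
        funext x
        simp only [occ_eq, Finset.sum_range_succ]
        ring
      have := mass_succ hs M o m
      linarith
  have h1 : 0 ≤ ∫ x, hh A C Wn Act m x o ∂(nu V) := integral_nonneg fun x => hh_nonneg m x o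
  have h2 := mass_zero hs M o
  linarith

lemma claim3 (hs : HasSwaps G) (M : Markov G A C Wn Act ΩA ΩB) (o : V) (m : ℕ) :
    (m : ℝ) * Pr ((nu V).prod (nu V)) (fun z => Arr (A z) (C z) (Wn z) (Act z) m o) ≤
      ∫ x, occ A C Wn Act m x o ∂(nu V) := by
  have anti : Antitone fun t => ∫ x, hh A C Wn Act t x o ∂(nu V) := by
    refine antitone_nat_of_succ_le fun t => ?_
    have h1 := mass_succ hs M o t
    have h2 : 0 ≤ ∫ x, hh A C Wn Act t x o * Pr (nu V) (fun y => Wn (x, y) o) ∂(nu V) :=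
      integral_nonneg fun x => mul_nonneg (hh_nonneg t x o) (Pr_nonneg _)
    linarith
  rw [Pr_prod ((M.ip_arr m).at o), occ_eq]
  simp only
  rw [int_sum fun t _ => (if_hh M t).bm o]
  have := Finset.card_nsmul_le_sum (Finset.range m) (fun t => ∫ x, hh A C Wn Act t x o ∂(nu V))
    (∫ x, hh A C Wn Act m x o ∂(nu V)) (fun t ht => anti (Finset.mem_range.1 ht).le)
  rw [Finset.card_range, nsmul_eq_mul] at this
  exact this

lemma occ_sub (M : Markov G A C Wn Act ΩA ΩB) (m : ℕ) (x : Y V) (v : V) :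
    occ A C Wn Act m x v - Cop C (Aop A Wn (occ A C Wn Act m)) x v ≤ hh A C Wn Act 0 x v := by
  have e1 : Aop A Wn (occ A C Wn Act m) =
      fun x v => ∑ t ∈ Finset.range m, Aop A Wn (hh A C Wn Act t) x v := by
    funext x v
    exact op_sum M.eiA M.ipW.not (if_hh M) _ x v
  have e2 : Cop C (Aop A Wn (occ A C Wn Act m)) x v =
      ∑ t ∈ Finset.range m, hh A C Wn Act (t + 1) x v := by
    rw [e1]
    refine (op_sum M.eiC (IP.const True) (fun t => if_op M.eiA M.ipW.not (if_hh M t)) _ x v).trans ?_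
    exact Finset.sum_congr rfl fun t _ => by rw [hh_succ M]
  have e3 := Finset.sum_range_succ' (fun t => hh A C Wn Act t x v) m
  have e4 := Finset.sum_range_succ (fun t => hh A C Wn Act t x v) m
  have e5 := hh_nonneg (A := A) (C := C) (Wn := Wn) (Act := Act) m x v
  rw [e2, occ_eq]
  simp only
  linarith

end L2
end Pool.Agent.MP_93f6c7_pr
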