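import Pool.Agent.MP_93f6c7_pr.Flip

/-! A random matching containing each edge with probability bounded below. -/

set_option autoImplicit false
set_option linter.unusedSectionVars false
set_option linter.unusedVariables false
open MeasureTheory Function
open scoped Classical

namespace Pool.Agent.MP_93f6c7_pr

variable {V : Type} {G : SimpleGraph V} {Δ : ℕ}

/-- Both ends of the edge are marked and all their other neighbours are unmarked. -/
def Sel (G : SimpleGraph V) (t : Y V) (v w : V) : Prop :=
  G.Adj v w ∧ (t (v, 0) : ℝ) < 1 / 2 ∧ (t (w, 0) : ℝ) < 1 / 2 ∧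
    (∀ z, G.Adj v z → z ≠ w → ¬ (t (z, 0) : ℝ) < 1 / 2) ∧
    (∀ z, G.Adj w z → z ≠ v → ¬ (t (z, 0) : ℝ) < 1 / 2)

/-- The matching formed by the selected edges. -/
noncomputable def mat (G : SimpleGraph V) (t : Y V) (v : V) : V :=
  if h : ∃ w, Sel G t v w then h.choose else v

variable {t : Y V} {v w : V}

lemma Sel.symm (h : Sel G t v w) : Sel G t w v :=
  ⟨h.1.symm, h.2.2.1, h.2.1, h.2.2.2.2, h.2.2.2.1⟩

lemma Sel.unique {w' : V} (h : Sel G t v w) (h' : Sel G t v w') : w = w' := by
  by_contra hne
  exact h'.2.2.2.1 w h.1 hne h.2.2.1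

lemma Sel.mat_eq (h : Sel G t v w) : mat G t v = w := by
  have hex : ∃ w, Sel G t v w := ⟨w, h⟩
  rw [mat, dif_pos hex]
  exact hex.choose_spec.unique h

lemma mat_cases (G : SimpleGraph V) (t : Y V) (v : V) :
    Sel G t v (mat G t v) ∨ (mat G t v = v ∧ ∀ w, ¬ Sel G t v w) := by
  by_cases h : ∃ w, Sel G t v w
  · obtain ⟨w, hw⟩ := h
    left; rw [hw.mat_eq]; exact hw
  · right; exact ⟨by rw [mat, dif_neg h], fun w hw => h ⟨w, hw⟩⟩

lemma mat_invol (G : SimpleGraph V) (t : Y V) : Involutive (mat G t) := by
  intro v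
  rcases mat_cases G t v with h | h
  · exact h.symm.mat_eq
  · rw [h.1, h.1]

lemma sel_act (φ : G ≃g G) (t : Y V) (v w : V) :
    Sel G (act φ t) v w ↔ Sel G t (φ v) (φ w) := by
  have key : ∀ v w : V, (∀ z, G.Adj v z → z ≠ w → ¬ (act φ t (z, 0) : ℝ) < 1 / 2) ↔
      (∀ z, G.Adj (φ v) z → z ≠ φ w → ¬ (t (z, 0) : ℝ) < 1 / 2) := by
    intro v w
    constructor
    · intro h z h1 h2
      obtain ⟨z, rfl⟩ := φ.surjective z
      exact h z (φ.map_adj_iff.1 h1) fun e => h2 (by rw [e])
    · intro h z h1 h2
      exact h (φ z) (φ.map_adj_iff.2 h1) fun e => h2 (φ.injective e)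
  unfold Sel
  rw [key, key, φ.map_adj_iff]
  rfl

variable [MeasurableSpace V] [DiscreteMeasurableSpace V] [Countable V] [G.LocallyFinite]

lemma meas_sel (v w : V) : Measurable fun t : Y V => Sel G t v w :=
  measurable_const.and ((meas_lab_lt _ _).and ((meas_lab_lt _ _).and
    ((Measurable.forall fun z => measurable_const.imp (measurable_const.imp
      (meas_lab_lt _ _).not)).and
    (Measurable.forall fun z => measurable_const.imp (measurable_const.imp
      (meas_lab_lt _ _).not)))))

lemma mat_ei : EI (G := G) act (mat G) := by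
  refine { meas := measurable_pi_lambda _ fun v => measurable_to_countable' fun w => ?_,
           eqv := fun φ t v => ?_, inv := mat_invol G, adj := fun t v h => ?_ }
  · have : (fun t => mat G t v) ⁻¹' {w} =
        {t | Sel G t v w ∨ (v = w ∧ ∀ w', ¬ Sel G t v w')} := by
      ext t
      simp only [Set.mem_preimage, Set.mem_singleton_iff, Set.mem_ofPred_eq]
      constructor
      · rintro rfl
        rcases mat_cases G t v with h | h
        · exact Or.inl h
        · exact Or.inr ⟨h.1.symm, h.2⟩
      · rintro (h | ⟨rfl, h⟩)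
        · exact h.mat_eq
        · rcases mat_cases G t v with h' | h'
          · exact absurd h' (h _)
          · exact h'.1
    rw [this]
    exact measurableSet_setOfPred.2 ((meas_sel v w).or (measurable_const.and
      (Measurable.forall fun w' => (meas_sel v w').not)))
  · rcases mat_cases G (act φ t) v with h | h
    · exact ((sel_act φ t _ _).1 h).mat_eq.symm
    · rw [h.1]
      rcases mat_cases G t (φ v) with h' | h'
      · obtain ⟨w, hw⟩ := φ.surjective (mat G t (φ v))
        rw [← hw] at h'
        exact absurd ((sel_act φ t _ _).2 h') (h.2 w)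
      · exact h'.1.symm
  · rcases mat_cases G t v with h' | h'
    · exact h'.1
    · exact absurd h'.1 h

lemma Pr_mat (h : RT G Δ) (hvw : G.Adj v w) :
    (1 / 2 : ℝ) ^ (2 * Δ) ≤ Pr (nu V) (fun t => mat G t v = w) := by
  have hΔ := h.three
  have := Pr_coins (V := V) 0 {v, w}
    ((G.neighborFinset v).erase w ∪ (G.neighborFinset w).erase v) ?_ (n := 2 * Δ) ?_
  · refine this.trans (Pr_mono fun t ht => Sel.mat_eq ⟨hvw, ht.1 v (by simp), ht.1 w (by simp),
      fun z h1 h2 => ht.2 z (by simp [h1, h2]), fun z h1 h2 => ht.2 z (by simp [h1, h2])⟩)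
  · simp
  · have h1 := Finset.card_union_le ((G.neighborFinset v).erase w) ((G.neighborFinset w).erase v)
    rw [Finset.card_erase_of_mem (by simpa using hvw),
      Finset.card_erase_of_mem (by simpa using hvw.symm),
      SimpleGraph.card_neighborFinset_eq_degree, SimpleGraph.card_neighborFinset_eq_degree,
      h.reg, h.reg] at h1
    have h2 : ({v, w} : Finset V).card ≤ 2 := Finset.card_le_two
    omega

end Pool.Agent.MP_93f6c7_pr
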