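import Pool.Agent.MP_93f6c7_pr.Walk

/-! Probability tools: indicators, bounded measurable functions, independence, mass transport. -/

set_option autoImplicit false
set_option linter.unusedSectionVars false
open MeasureTheory Function
open scoped Classical

namespace Pool.Agent.MP_93f6c7_pr

/-- Real indicator of a proposition. -/
noncomputable def ind (p : Prop) : ℝ := if p then 1 else 0

lemma ind_pos {p : Prop} (h : p) : ind p = 1 := if_pos h
lemma ind_neg {p : Prop} (h : ¬ p) : ind p = 0 := if_neg h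
lemma ind_nonneg (p : Prop) : 0 ≤ ind p := by unfold ind; split_ifs <;> norm_num
lemma ind_le_one (p : Prop) : ind p ≤ 1 := by unfold ind; split_ifs <;> norm_num
lemma abs_ind_le (p : Prop) : |ind p| ≤ 1 := by rw [abs_of_nonneg (ind_nonneg p)]; exact ind_le_one p
lemma ind_and (p q : Prop) : ind (p ∧ q) = ind p * ind q := by
  unfold ind; by_cases p <;> by_cases q <;> simp [*]
lemma ind_not (p : Prop) : ind (¬ p) = 1 - ind p := by
  unfold ind; by_cases p <;> simp [*]
lemma ind_congr {p q : Prop} (h : p ↔ q) : ind p = ind q := by rw [propext h]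
lemma ind_mono {p q : Prop} (h : p → q) : ind p ≤ ind q := by
  by_cases hp : p
  · rw [ind_pos hp, ind_pos (h hp)]
  · rw [ind_neg hp]; exact ind_nonneg q
lemma ind_or_le (p q : Prop) : ind (p ∨ q) ≤ ind p + ind q := by
  unfold ind; by_cases p <;> by_cases q <;> simp [*]
lemma ind_mul_self (p : Prop) : ind p * ind p = ind p := by
  unfold ind; by_cases p <;> simp [*]
lemma ind_le_sum {ι : Type} {s : Finset ι} {p : Prop} {q : ι → Prop} (h : p → ∃ i ∈ s, q i) :
    ind p ≤ ∑ i ∈ s, ind (q i) := by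
  by_cases hp : p
  · obtain ⟨i, hi, hq⟩ := h hp
    rw [ind_pos hp, ← ind_pos hq]
    exact Finset.single_le_sum (f := fun i => ind (q i)) (fun j _ => ind_nonneg _) hi
  · rw [ind_neg hp]; exact Finset.sum_nonneg fun j _ => ind_nonneg _
lemma sum_ind_le {ι : Type} {s : Finset ι} {p : Prop} {q : ι → Prop}
    (h : ∀ i ∈ s, q i → p) (hu : ∀ i ∈ s, ∀ j ∈ s, q i → q j → i = j) :
    ∑ i ∈ s, ind (q i) ≤ ind p := by
  by_cases hq : ∃ i ∈ s, q i
  · obtain ⟨i, hi, hqi⟩ := hq
    rw [Finset.sum_eq_single i, ind_pos hqi, ind_pos (h i hi hqi)]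
    · intro j hj hji
      exact ind_neg fun hqj => hji (hu j hj i hi hqj hqi)
    · intro h; exact absurd hi h
  · rw [Finset.sum_eq_zero fun i hi => ind_neg fun hqi => hq ⟨i, hi, hqi⟩]
    exact ind_nonneg _

section general
variable {Z Z' : Type} [MeasurableSpace Z] [MeasurableSpace Z']

lemma meas_ind {E : Z → Prop} (h : Measurable E) : Measurable fun z => ind (E z) := by
  unfold ind
  exact Measurable.ite (measurableSet_setOfPred.2 h) measurable_const measurable_const

lemma meas_ite {β : Type} [MeasurableSpace β] {E : Z → Prop} {f g : Z → β} (h : Measurable E)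
    (hf : Measurable f) (hg : Measurable g) [∀ z, Decidable (E z)] :
    Measurable fun z => if E z then f z else g z :=
  Measurable.ite (measurableSet_setOfPred.2 h) hf hg

lemma meas_app {V β : Type} [MeasurableSpace V] [DiscreteMeasurableSpace V] [Countable V]
    [MeasurableSpace β] {f : Z → V → β} {v : Z → V} (hf : Measurable f) (hv : Measurable v) :
    Measurable fun z => f z (v z) := by
  have : Measurable fun p : Z × V => f p.1 p.2 :=
    measurable_from_prod_countable_left fun v => (measurable_pi_apply v).comp hf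
  exact this.comp (measurable_id.prodMk hv)

lemma meas_at {ι β : Type} [MeasurableSpace β] {f : Z → ι → β} (hf : Measurable f) (v : ι) :
    Measurable fun z => f z v := (measurable_pi_apply v).comp hf

lemma meas_eq {V : Type} [MeasurableSpace V] [DiscreteMeasurableSpace V] [Countable V]
    {v w : Z → V} (hv : Measurable v) (hw : Measurable w) : Measurable fun z => v z = w z := by
  have : Measurable fun p : V × V => p.1 = p.2 := Measurable.of_discrete
  exact this.comp (hv.prodMk hw)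

lemma meas_ne {V : Type} [MeasurableSpace V] [DiscreteMeasurableSpace V] [Countable V]
    {v w : Z → V} (hv : Measurable v) (hw : Measurable w) : Measurable fun z => v z ≠ w z :=
  (meas_eq hv hw).not

lemma meas_rel {V : Type} [MeasurableSpace V] [DiscreteMeasurableSpace V] [Countable V]
    (r : V → V → Prop) {v w : Z → V} (hv : Measurable v) (hw : Measurable w) :
    Measurable fun z => r (v z) (w z) := by
  have : Measurable fun p : V × V => r p.1 p.2 := Measurable.of_discrete
  exact this.comp (hv.prodMk hw)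

lemma meas_le {v w : Z → ℝ} (hv : Measurable v) (hw : Measurable w) :
    Measurable fun z => v z ≤ w z := measurableSet_setOfPred.1 (measurableSet_le hv hw)

/-- Bounded measurable real functions. -/
structure BM (f : Z → ℝ) : Prop where
  meas : Measurable f
  bdd : ∃ B, ∀ z, |f z| ≤ B

lemma BM.integrable {f : Z → ℝ} (h : BM f) {μ : Measure Z} [IsFiniteMeasure μ] :
    Integrable f μ := by
  obtain ⟨B, hB⟩ := h.bdd
  exact Integrable.of_bound h.meas.aestronglyMeasurable B (Filter.Eventually.of_forall hB)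

lemma BM.const (c : ℝ) : BM (fun _ : Z => c) := ⟨measurable_const, |c|, fun _ => le_rfl⟩
lemma BM.ind {E : Z → Prop} (h : Measurable E) : BM (fun z => ind (E z)) :=
  ⟨meas_ind h, 1, fun _ => abs_ind_le _⟩
lemma BM.add {f g : Z → ℝ} (hf : BM f) (hg : BM g) : BM (fun z => f z + g z) := by
  obtain ⟨A, hA⟩ := hf.bdd; obtain ⟨B, hB⟩ := hg.bdd
  exact ⟨hf.meas.add hg.meas, A + B, fun z => (abs_add_le _ _).trans (add_le_add (hA z) (hB z))⟩
lemma BM.sub {f g : Z → ℝ} (hf : BM f) (hg : BM g) : BM (fun z => f z - g z) := by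
  obtain ⟨A, hA⟩ := hf.bdd; obtain ⟨B, hB⟩ := hg.bdd
  exact ⟨hf.meas.sub hg.meas, A + B, fun z => (abs_sub _ _).trans (add_le_add (hA z) (hB z))⟩
lemma BM.mul {f g : Z → ℝ} (hf : BM f) (hg : BM g) : BM (fun z => f z * g z) := by
  obtain ⟨A, hA⟩ := hf.bdd; obtain ⟨B, hB⟩ := hg.bdd
  refine ⟨hf.meas.mul hg.meas, A * B, fun z => ?_⟩
  rw [abs_mul]
  exact mul_le_mul (hA z) (hB z) (abs_nonneg _) ((abs_nonneg _).trans (hA z))
lemma BM.sq {f : Z → ℝ} (hf : BM f) : BM (fun z => f z ^ 2) := by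
  simpa only [pow_two] using hf.mul hf
lemma BM.sum {ι : Type} {s : Finset ι} {f : ι → Z → ℝ} (hf : ∀ i ∈ s, BM (f i)) :
    BM (fun z => ∑ i ∈ s, f i z) := by
  induction s using Finset.induction_on with
  | empty => simpa using BM.const (Z := Z) 0
  | insert i s hi ih =>
    simp only [Finset.sum_insert hi]
    exact (hf i (by simp)).add (ih fun j hj => hf j (by simp [hj]))
lemma BM.comp {f : Z → ℝ} (hf : BM f) {T : Z' → Z} (hT : Measurable T) : BM (fun z => f (T z)) := by
  obtain ⟨A, hA⟩ := hf.bdd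
  exact ⟨hf.meas.comp hT, A, fun z => hA _⟩
lemma BM.left {f : Z × Z' → ℝ} (hf : BM f) (z : Z) : BM (fun y => f (z, y)) :=
  hf.comp measurable_prodMk_left
lemma BM.integral {f : Z × Z' → ℝ} (hf : BM f) (ν : Measure Z') [IsProbabilityMeasure ν] :
    BM (fun z => ∫ y, f (z, y) ∂ν) := by
  obtain ⟨A, hA⟩ := hf.bdd
  refine ⟨(hf.meas.stronglyMeasurable.integral_prod_right' (ν := ν)).measurable, A, fun z => ?_⟩
  have := norm_integral_le_of_norm_le_const (μ := ν) (f := fun y => f (z, y)) (C := A)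
    (Filter.Eventually.of_forall fun y => hA _)
  simpa using this

variable {μ : Measure Z} [IsProbabilityMeasure μ] {ν : Measure Z'} [IsProbabilityMeasure ν]

lemma int_mono {f g : Z → ℝ} (hf : BM f) (hg : BM g) (h : ∀ z, f z ≤ g z) :
    ∫ z, f z ∂μ ≤ ∫ z, g z ∂μ := integral_mono hf.integrable hg.integrable h

lemma int_add {f g : Z → ℝ} (hf : BM f) (hg : BM g) :
    ∫ z, f z + g z ∂μ = ∫ z, f z ∂μ + ∫ z, g z ∂μ := integral_add hf.integrable hg.integrable

lemma int_sub {f g : Z → ℝ} (hf : BM f) (hg : BM g) :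
    ∫ z, f z - g z ∂μ = ∫ z, f z ∂μ - ∫ z, g z ∂μ := integral_sub hf.integrable hg.integrable

lemma int_sum {ι : Type} {s : Finset ι} {f : ι → Z → ℝ} (hf : ∀ i ∈ s, BM (f i)) :
    ∫ z, ∑ i ∈ s, f i z ∂μ = ∑ i ∈ s, ∫ z, f i z ∂μ :=
  integral_finsetSum s fun i hi => (hf i hi).integrable

lemma int_const (c : ℝ) : ∫ _, c ∂μ = c := by simp

lemma int_prod {f : Z × Z' → ℝ} (hf : BM f) :
    ∫ z, f z ∂(μ.prod ν) = ∫ x, ∫ y, f (x, y) ∂ν ∂μ := integral_prod f hf.integrable

lemma int_map {T : Z → Z'} (hT : MeasurePreserving T μ ν) {f : Z' → ℝ} (hf : Measurable f) :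
    ∫ z, f (T z) ∂μ = ∫ z, f z ∂ν := by
  rw [← hT.map_eq, integral_map hT.measurable.aemeasurable hf.aestronglyMeasurable]

lemma Pr_eq {E : Z → Prop} (h : Measurable E) : Pr μ E = ∫ z, ind (E z) ∂μ := by
  unfold Pr
  rw [← integral_indicator_one (measurableSet_setOfPred.2 h)]
  congr 1

omit [IsProbabilityMeasure μ] in
lemma Pr_nonneg (E : Z → Prop) : 0 ≤ Pr μ E := measureReal_nonneg
lemma Pr_le_one (E : Z → Prop) : Pr μ E ≤ 1 := measureReal_le_one
lemma Pr_mono {E E' : Z → Prop} (h : ∀ z, E z → E' z) : Pr μ E ≤ Pr μ E' :=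
  measureReal_mono h
omit [IsProbabilityMeasure μ] in
lemma Pr_congr {E E' : Z → Prop} (h : ∀ z, E z ↔ E' z) : Pr μ E = Pr μ E' := by
  congr 1; funext z; exact propext (h z)
omit [IsProbabilityMeasure μ] in
lemma Pr_false {E : Z → Prop} (h : ∀ z, ¬ E z) : Pr μ E = 0 := by
  unfold Pr
  have : {z | E z} = ∅ := by ext z; simp [h z]
  simp [this]
lemma Pr_true {E : Z → Prop} (h : ∀ z, E z) : Pr μ E = 1 := by
  unfold Pr
  have : {z | E z} = Set.univ := by ext z; simp [h z]
  simp [this]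
lemma Pr_or_le {E E₁ E₂ : Z → Prop} (h : ∀ z, E z → E₁ z ∨ E₂ z) :
    Pr μ E ≤ Pr μ E₁ + Pr μ E₂ :=
  (Pr_mono h).trans (measureReal_union_le _ _)
lemma Pr_le_sum {ι : Type} {s : Finset ι} {E : Z → Prop} {F : ι → Z → Prop}
    (h : ∀ z, E z → ∃ i ∈ s, F i z) : Pr μ E ≤ ∑ i ∈ s, Pr μ (F i) := by
  refine le_trans (measureReal_mono (s₂ := ⋃ i ∈ s, {z | F i z}) (fun z hz => ?_) (measure_ne_top _ _))
    (measureReal_biUnion_finset_le _ _)
  simpa using h z hz
lemma Pr_not {E : Z → Prop} (h : Measurable E) : Pr μ (fun z => ¬ E z) = 1 - Pr μ E := by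
  rw [Pr_eq h.not, Pr_eq h]
  simp only [ind_not]
  rw [int_sub (BM.const 1) (BM.ind h), int_const]
lemma one_sub_Pr_le {E E' : Z → Prop} (h : ∀ z, ¬ E z → E' z) : 1 - Pr μ E ≤ Pr μ E' := by
  have := Pr_or_le (μ := μ) (E := fun _ => True) (E₁ := E) (E₂ := E') (fun z _ => by
    by_cases hz : E z
    · exact Or.inl hz
    · exact Or.inr (h z hz))
  rw [Pr_true fun _ => trivial] at this
  linarith
lemma sum_Pr_le {ι : Type} {s : Finset ι} {E : Z → Prop} {F : ι → Z → Prop} (hE : Measurable E)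
    (hF : ∀ i ∈ s, Measurable (F i)) (h : ∀ z, ∀ i ∈ s, F i z → E z)
    (hu : ∀ z, ∀ i ∈ s, ∀ j ∈ s, F i z → F j z → i = j) :
    ∑ i ∈ s, Pr μ (F i) ≤ Pr μ E := by
  rw [Finset.sum_congr rfl fun i hi => Pr_eq (μ := μ) (hF i hi), Pr_eq hE,
    ← int_sum fun i hi => BM.ind (hF i hi)]
  exact int_mono (BM.sum fun i hi => BM.ind (hF i hi)) (BM.ind hE)
    fun z => sum_ind_le (h z) (hu z)
lemma Pr_map {T : Z → Z'} (hT : MeasurePreserving T μ ν) {E : Z' → Prop} (h : Measurable E) :
    Pr μ (fun z => E (T z)) = Pr ν E := by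
  rw [Pr_eq (E := fun z => E (T z)) (h.comp hT.measurable), Pr_eq h]
  exact int_map hT (meas_ind h)
lemma BM.Pr {E : Z × Z' → Prop} (h : Measurable E) (ν : Measure Z') [IsProbabilityMeasure ν] :
    BM (fun z => Pr ν (fun y => E (z, y))) := by
  have := (BM.ind h).integral ν
  convert this using 2 with z
  exact Pr_eq (h.comp measurable_prodMk_left)
lemma Pr_prod {E : Z × Z' → Prop} (h : Measurable E) :
    Pr (μ.prod ν) E = ∫ x, Pr ν (fun y => E (x, y)) ∂μ := by
  rw [Pr_eq h, int_prod (BM.ind h)]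
  congr 1; funext x
  exact (Pr_eq (h.comp measurable_prodMk_left)).symm
lemma Pr_fst {E : Z → Prop} (h : Measurable E) :
    Pr (μ.prod ν) (fun z => E z.1) = Pr μ E := Pr_map measurePreserving_fst h

/-- Lower bound for a probability on a product space from a conditional lower bound. -/
lemma Pr_prod_ge {E : Z × Z' → Prop} {A : Z → Prop} (h : Measurable E) (hA : Measurable A)
    {c : ℝ} (hc : ∀ x, A x → c ≤ Pr ν (fun y => E (x, y))) :
    c * Pr μ A ≤ Pr (μ.prod ν) E := by
  rw [Pr_prod h, Pr_eq hA, ← integral_const_mul]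
  refine int_mono ((BM.const c).mul (BM.ind hA)) (BM.Pr h ν) fun x => ?_
  by_cases hx : A x
  · rw [ind_pos hx, mul_one]; exact hc x hx
  · rw [ind_neg hx, mul_zero]; exact Pr_nonneg _

/-- Upper bound for a probability on a product space from a conditional upper bound. -/
lemma Pr_prod_le {E : Z × Z' → Prop} {f : Z → ℝ} (h : Measurable E) (hf : BM f)
    (hc : ∀ x, Pr ν (fun y => E (x, y)) ≤ f x) :
    Pr (μ.prod ν) E ≤ ∫ x, f x ∂μ := by
  rw [Pr_prod h]
  exact int_mono (BM.Pr h ν) hf hc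

lemma Pr_prod_le_const {E : Z × Z' → Prop} (h : Measurable E) {c : ℝ}
    (hc : ∀ x, Pr ν (fun y => E (x, y)) ≤ c) : Pr (μ.prod ν) E ≤ c := by
  have := Pr_prod_le (μ := μ) h (BM.const c) hc
  rwa [int_const] at this

end general

end Pool.Agent.MP_93f6c7_pr
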