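import Pool.Agent.MP_93f6c7_pr.ChainGlobal

/-! The main probabilistic lemma. -/

set_option autoImplicit false
set_option linter.unusedSectionVars false
set_option linter.unusedVariables false
open MeasureTheory Function
open scoped Classical

namespace Pool.Agent.MP_93f6c7_pr

lemma core_num {f ps r hb s2 κ ρ g0 a cf Z T Sh m : ℝ} (hκ : 0 < κ) (hρ : 0 < ρ)
    (hf : f = ps * r) (hps : 0 ≤ ps) (hr : 0 ≤ r) (hb0 : 0 ≤ hb) (c1 : κ ≤ g0)
    (c2 : κ ^ 2 * ρ ≤ g0 ^ 2 * r) (c3 : 40 ≤ m * κ * ρ) (hZ : 0 ≤ Z) (c4 : T ≤ 8 * ρ)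
    (c5 : 3376 * Z * f ≤ κ ^ 2 * ρ) (h1 : g0 * s2 ≤ 2 * hb * f + ps * f / g0)
    (h2 : κ * (hb ^ 2 * ρ) ≤ 2 * hb * f + κ * s2) (h3 : m * a ≤ hb)
    (h4 : cf ≤ Z * (2 * hb ^ 2 * T + 2 * s2)) (h5 : ps / 2 * r ≤ Sh + a + cf) : f / 4 ≤ Sh := by
  have hg : 0 < g0 := hκ.trans_le c1
  have hf0 : 0 ≤ f := by rw [hf]; positivity
  obtain ⟨u, hu⟩ : ∃ u, u = f / (κ * ρ) := ⟨_, rfl⟩
  have hu0 : 0 ≤ u := by rw [hu]; positivity
  have hfu : f = u * κ * ρ := by rw [hu]; field_simp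
  have e1 : ps * f / g0 ≤ g0 * (u ^ 2 * ρ) := by
    rw [div_le_iff₀ hg]
    have : κ ^ 2 * ρ * (ps * f) ≤ κ ^ 2 * ρ * (g0 * (u ^ 2 * ρ) * g0) := by
      calc κ ^ 2 * ρ * (ps * f) ≤ g0 ^ 2 * r * (ps * f) := by gcongr
        _ = g0 ^ 2 * f ^ 2 := by rw [hf]; ring
        _ = _ := by rw [hfu]; ring
    exact le_of_mul_le_mul_left this (by positivity)
  have e2 : s2 ≤ 2 * hb * u * ρ + u ^ 2 * ρ := by
    have : g0 * s2 ≤ g0 * (2 * hb * u * ρ + u ^ 2 * ρ) := by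
      have : 2 * hb * f ≤ g0 * (2 * hb * u * ρ) := by
        rw [hfu]
        calc 2 * hb * (u * κ * ρ) = κ * (2 * hb * u * ρ) := by ring
          _ ≤ _ := by gcongr
      linarith
    exact le_of_mul_le_mul_left this hg
  have e3 : hb ^ 2 ≤ 4 * hb * u + u ^ 2 := by
    have : κ * (hb ^ 2 * ρ) ≤ κ * (2 * hb * u * ρ + s2) := by
      rw [hfu] at h2; linarith
    have := le_of_mul_le_mul_left this hκ
    have : ρ * hb ^ 2 ≤ ρ * (4 * hb * u + u ^ 2) := by linarith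
    exact le_of_mul_le_mul_left this hρ
  have e4 : hb ≤ 5 * u := by nlinarith
  have e5 : s2 ≤ 11 * (u ^ 2 * ρ) := by
    have : hb * (u * ρ) ≤ 5 * u * (u * ρ) := by gcongr
    nlinarith
  have hm : 0 < m := by
    by_contra hn
    have : m * κ * ρ ≤ 0 := by
      have := mul_pos hκ hρ
      nlinarith
    linarith
  have e6 : a ≤ f / 8 := by
    have : m * a ≤ m * (f / 8) := by
      have : 40 * u ≤ m * κ * ρ * u := by gcongr
      rw [hfu]; linarith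
    exact le_of_mul_le_mul_left this hm
  have e7 : cf ≤ f / 8 := by
    have t1 : hb ^ 2 ≤ 25 * u ^ 2 := by nlinarith
    have t2 : hb ^ 2 * T ≤ 25 * u ^ 2 * (8 * ρ) :=
      (mul_le_mul_of_nonneg_left c4 (sq_nonneg _)).trans (by gcongr)
    have t3 : cf ≤ Z * (422 * (u ^ 2 * ρ)) := h4.trans (by gcongr; linarith)
    have t4 : κ ^ 2 * ρ * (Z * (422 * (u ^ 2 * ρ))) ≤ κ ^ 2 * ρ * (f / 8) := by
      calc κ ^ 2 * ρ * (Z * (422 * (u ^ 2 * ρ))) = 3376 * Z * f * (f / 8) := by rw [hfu]; ring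
        _ ≤ _ := by gcongr
    exact t3.trans (le_of_mul_le_mul_left t4 (by positivity))
  have : ps / 2 * r = f / 2 := by rw [hf]; ring
  linarith

variable {V : Type} [MeasurableSpace V] [DiscreteMeasurableSpace V] [Countable V]
  {G : SimpleGraph V} [G.LocallyFinite] {Δ : ℕ}

lemma Setup.sh_ge {S : Setup G Δ} {o : V} (hG : G.IsAcyclic) (hs : HasSwaps G)
    (hF : FlipStmt G Δ o) (hL2 : L2Stmt G Δ o) (h : S.Num) (n : ℕ)
    (hn : 3 * S.W + 3 + 2 * n ≤ S.L) (hn' : S.L + 1 ≤ 8 * n) (hW : 1 ≤ S.W) (hs0 : 0 < S.s0 o)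
    (c1 : (S.W : ℝ) / (32 * S.L) ≤ (S.q / 4) ^ 2 / (200 * (Δ : ℝ) ^ 2))
    (c2 : ((S.W : ℝ) / (32 * S.L)) ^ 2 * (n * S.s0 o) ≤
      ((S.q / 4) ^ 2 / (200 * (Δ : ℝ) ^ 2)) ^ 2 * S.c.Dn o S.α S.β)
    (c3 : 40 ≤ S.m * ((S.W : ℝ) / (32 * S.L)) * (n * S.s0 o))
    (c5 : 3376 * ((2 * S.W + 3) * ((S.W + 2 : ℕ) / (16 * S.L))) * (S.ps * S.c.Dn o S.α S.β) ≤
      ((S.W : ℝ) / (32 * S.L)) ^ 2 * (n * S.s0 o)) :
    S.ps * S.c.Dn o S.α S.β / 4 ≤ (FC.ofEC (S.ec_fin hF)).Sh o S.α S.γ S.β (2 * S.m + 1) := by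
  have hL : (0 : ℝ) < S.L := by exact_mod_cast h.L1
  have hW' : (0 : ℝ) < S.W := by exact_mod_cast hW
  have hn0 : (0 : ℝ) < n := by exact_mod_cast (show 0 < n by omega)
  have hq := h.q0
  obtain ⟨l1, l2, l3⟩ := hL2 S.c.σ S.A S.C S.Wn S.Act S.ΩA S.ΩB S.c.ec (S.markov hG hF) S.a S.b S.γ
    S.γa S.γb (S.q / 4) (by positivity) (fun x p hp => Setup.pr_A hF h x o p hp)
    (fun x p ha hb => Setup.pr_C hF h x o p ha hb) S.ps
    (fun x v => by
      rw [Setup.pr_Act h]; exact mul_le_of_le_one_right h.ps0 (ind_le_one _))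
    S.m _ _ _ _ rfl rfl rfl rfl
  rw [Setup.pr_act_eq h] at l1 l2
  have hb0 : 0 ≤ ∫ x, S.H x o ∂(nu V) := integral_nonneg fun x => occ_nonneg _ _ _
  have w := Setup.window_le hs hF h n hn hb0
  refine core_num (hb := ∫ x, S.H x o ∂(nu V)) (by positivity) (by positivity) rfl h.ps0
    (Pr_nonneg _) hb0 c1 c2 c3 (by positivity) ?_ c5 l1 ?_ l3
    (Setup.conf_le hG hs hF h (by omega) _) (Setup.sh_fin hs hF h)
  · have : (S.L : ℝ) + 1 ≤ 8 * n := by exact_mod_cast hn'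
    nlinarith
  · refine w.trans (add_le_add_left ?_ _)
    exact mul_le_mul_of_nonneg_left l2 (by positivity)

/-- The random matching restricted to uncoloured edges. -/
noncomputable def mu2 (c : FC G Δ) (z : Y V × Y V) (v : V) : V :=
  if Unc G (c.σ z.1) v (mat G z.2 v) then mat G z.2 v else v

lemma mu2_unc (c : FC G Δ) (z : Y V × Y V) (v : V) (h : mu2 c z v ≠ v) :
    Unc G (c.σ z.1) v (mu2 c z v) := by
  unfold mu2 at h ⊢
  split_ifs at h ⊢ with hu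
  · exact hu
  · exact absurd rfl h

lemma mu2_ei (c : FC G Δ) : EI (G := G) act2 (mu2 c) := by
  refine { EM.ite (IP.unc c.ec.fst mat_ei.toEM.snd) mat_ei.toEM.snd EM.id with
    inv := fun z v => ?_, adj := fun z v h => (mu2_unc c z v h).1 }
  by_cases hu : Unc G (c.σ z.1) v (mat G z.2 v)
  · have e : mu2 c z v = mat G z.2 v := if_pos hu
    rw [e, mu2, mat_invol G z.2 v, if_pos (hu.symm (c.proper _))]
  · have e : mu2 c z v = v := if_neg hu
    rw [e, e]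

lemma src_ge (h : RT G Δ) (c : FC G Δ) (o : V) (a b : Fin Δ) (L : ℕ) :
    (1 / 2 : ℝ) ^ (2 * Δ) * c.Lg o a b (2 * L + 1) ≤
      Pr (nu V) (fun x => Src (c.σ (split x).1) a b L (mu2 c (split x)) o) := by
  have ip := (IP.src c.ec.fst a b L (mu2_ei c).toEM).at o
  rw [Pr_map split_mp ip]
  refine Pr_prod_ge ip ((IP.lg c.ec a b _).at o) ?_
  rintro x ⟨h1, h2, u, h3, h4⟩
  refine (Pr_mat h h3.1).trans (Pr_mono fun y hy => ?_)
  have e : mu2 c (x, y) o = u := by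
    unfold mu2
    simp only [hy, if_pos h3]
  exact ⟨by rw [e]; exact h3.1.ne', h1, by rw [e]; exact h4, h2⟩

lemma dn_le_hol (c : FC G Δ) (o : V) (α β : Fin Δ) : c.Dn o α β ≤ c.hol o :=
  (Pr_mono fun x hx => hx.1).trans (Finset.single_le_sum
    (f := fun p => Pr (nu V) (fun y => c.σ y p o = o)) (fun _ _ => Pr_nonneg _)
    (Finset.mem_univ α))

theorem runStmt (h : RT G Δ) (hs : HasSwaps G) (o : V) (hF : FlipStmt G Δ o)
    (hL2 : L2Stmt G Δ o) : RunStmt G Δ o := by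
  intro δ hδ
  obtain ⟨d, hd⟩ : ∃ d : ℝ, d = (1 / 2) ^ (2 * Δ) * min δ 1 := ⟨_, rfl⟩
  have hp1 : (1 / 2 : ℝ) ^ (2 * Δ) ≤ 1 := pow_le_one₀ (by norm_num) (by norm_num)
  have hp0 : (0 : ℝ) < (1 / 2) ^ (2 * Δ) := by positivity
  have hm0 : 0 < min δ 1 := lt_min hδ one_pos
  have hd0 : 0 < d := by rw [hd]; positivity
  have hd1 : d ≤ 1 := by rw [hd]; exact mul_le_one₀ hp1 hm0.le (min_le_right _ _)
  have hdδ : d ≤ δ := by
    rw [hd]; exact (mul_le_of_le_one_left hm0.le hp1).trans (min_le_left _ _)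
  have hdδ' : d ≤ (1 / 2) ^ (2 * Δ) * δ := by
    rw [hd]; exact mul_le_mul_of_nonneg_left (min_le_left _ _) hp0.le
  have hΔ : (3 : ℝ) ≤ Δ := by exact_mod_cast h.three
  refine ⟨d / 30000000 * d / 4, by positivity, 21 * Δ + 40 + 20480 / d,
    ⌈5000 * (Δ : ℝ) ^ 4 / d⌉₊, fun N hN e he0 he => ?_⟩
  have hNd : 5000 * (Δ : ℝ) ^ 4 ≤ N * d := by
    have := Nat.ceil_le.1 hN
    rwa [div_le_iff₀ hd0] at this
  have hN1 : 5000 * (Δ : ℝ) ^ 4 ≤ N :=
    hNd.trans (mul_le_of_le_one_right (Nat.cast_nonneg N) hd1)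
  have hΔ2 : (9 : ℝ) ≤ (Δ : ℝ) ^ 2 := by nlinarith
  have hΔ4 : (Δ : ℝ) ^ 4 = ((Δ : ℝ) ^ 2) ^ 2 := by ring
  have hNΔ : 400 * (Δ : ℝ) ≤ N := by nlinarith
  have hNΔ2 : 200 * (Δ : ℝ) ^ 2 ≤ N := by nlinarith
  have hN100 : (100 : ℝ) ≤ N := by linarith
  have hN0 : (0 : ℝ) < N := by linarith
  have hN1' : (1 : ℝ) ≤ N := by linarith
  have heN : e * (N : ℝ) ^ 8 ≤ 1 := by rwa [le_div_iff₀ (by positivity)] at he
  have heN1 : e * N ≤ 1 :=
    le_trans (mul_le_mul_of_nonneg_left (le_self_pow₀ hN1' (by norm_num)) he0.le) heN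
  have he1 : e ≤ 1 / N := by rwa [le_div_iff₀ hN0]
  obtain ⟨L, hL⟩ : ∃ L : ℕ, L = ⌊1 / (N * e)⌋₊ := ⟨_, rfl⟩
  obtain ⟨m, hm⟩ : ∃ m : ℕ, m = ⌈10240 / (d * N * e)⌉₊ := ⟨_, rfl⟩
  obtain ⟨R, hR⟩ : ∃ R : ℕ, R = ⌈1 / e⌉₊ := ⟨_, rfl⟩
  have hLu : (L : ℝ) ≤ 1 / (N * e) := by rw [hL]; exact Nat.floor_le (by positivity)
  have hLe : (L : ℝ) * e ≤ 1 / N := by
    rw [le_div_iff₀ (by positivity)] at hLu
    rw [le_div_iff₀ hN0]; linarith
  have hN7 : (N : ℝ) ^ 7 ≤ 1 / (N * e) := by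
    rw [le_div_iff₀ (by positivity)]; linarith [show (N : ℝ) ^ 7 * (N * e) = e * N ^ 8 by ring]
  have hLl : N ^ 7 ≤ L := by rw [hL]; exact Nat.le_floor (by exact_mod_cast hN7)
  have hLl' : (N : ℝ) ^ 7 ≤ L := by exact_mod_cast hLl
  have hN2 : 100 * (N : ℝ) ≤ (N : ℝ) ^ 7 := by
    have : (N : ℝ) ^ 2 ≤ (N : ℝ) ^ 7 := pow_le_pow_right₀ hN1' (by norm_num)
    nlinarith
  have hLN : 100 * N ≤ L := by exact_mod_cast hN2.trans hLl'
  have hNn : 100 ≤ N := by exact_mod_cast hN100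
  have hL0 : (0 : ℝ) < L := by linarith
  have hRl : 1 / e ≤ R := by rw [hR]; exact Nat.le_ceil _
  have hRe : 1 ≤ R * e := by rwa [div_le_iff₀ he0] at hRl
  have hR0 : (0 : ℝ) < R := lt_of_lt_of_le (by positivity) hRl
  have hLR : (L : ℝ) ≤ R := by
    refine hLu.trans (le_trans ?_ hRl)
    exact one_div_le_one_div_of_le he0 (le_mul_of_one_le_left he0.le hN1')
  have hml : 10240 / (d * N * e) ≤ m := by rw [hm]; exact Nat.le_ceil _
  have hmu : (m : ℝ) ≤ 10240 / (d * N * e) + 1 := by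
    rw [hm]; exact (Nat.ceil_lt_add_one (by positivity)).le
  have hdN : 0 ≤ 20480 / d / N := by positivity
  have hC : ∀ t : ℝ, t ≤ 21 * Δ + 40 → t * (1 / N) ≤ (21 * Δ + 40 + 20480 / d) / N := by
    intro t ht
    have : t * (1 / N) ≤ (21 * Δ + 40) * (1 / N) := by gcongr
    rw [add_div (21 * (Δ : ℝ) + 40), div_eq_mul_one_div (21 * (Δ : ℝ) + 40)]
    linarith
  refine ⟨2 * L + 1, 2 * m + 1, ?_, ?_, fun c a b γ α β hab hγa hγb hα hhol hLg hDn => ?_⟩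
  · refine le_trans ?_ (hC 3 (by linarith))
    push_cast; linarith
  · have h1 : (m : ℝ) * e ≤ 10240 / d / N + e := by
      refine (mul_le_mul_of_nonneg_right hmu he0.le).trans (le_of_eq ?_)
      field_simp
    have h2 : 3 * (1 / (N : ℝ)) ≤ (21 * Δ + 40) / N := by
      rw [div_eq_mul_one_div (21 * (Δ : ℝ) + 40)]; gcongr; linarith
    have h3 : 20480 / d / N = 2 * (10240 / d / N) := by ring
    rw [add_div (21 * (Δ : ℝ) + 40), h3]
    push_cast; linarith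
  let c₀ : FC G Δ := FC.ofEC c.ec.fst
  have e1 : c₀.hol o = c.hol o := by
    rw [FC.ofEC_hol, FC.hol_eq]
    exact int_map measurePreserving_fst ((IF.holes c.ec).bm o).meas
  have e2 : ∀ p p', c₀.Dn o p p' = c.Dn o p p' := fun p p' => by
    rw [FC.ofEC_dn]
    exact Pr_fst ((IP.dn c.ec p p').at o)
  have e3 : c.Near c₀ o 0 := c.ofEC_near _ o (Pr_false fun z ⟨p, hp⟩ => hp rfl).le
  let S : Setup G Δ :=
    { c := c₀, mu := fun x => mu2 c (split x), a := a, b := b, γ := γ, α := α, β := β,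
      l := (List.finRange Δ).filter fun p => p ≠ a ∧ p ≠ b ∧ p ≠ γ,
      L := L, W := N, R := R, m := m, θ := 1 / N / R, q := 1 / N, ps := d / 30000000,
      hmu := (mu2_ei c).pull meas_split fun _ _ => rfl,
      hunc := fun x v => mu2_unc c (split x) v, ab := hab, hα := hα,
      hl := fun p => by
        by_cases hp : p = γ
        · simp [hp, hγa, hγb]
        · simp [hp]
      hγl := by simp
      nodup := (List.nodup_finRange Δ).filter _ }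
  have hnum : S.Num :=
    { θ0 := by show 0 ≤ 1 / (N : ℝ) / R; positivity
      q0 := by show 0 < 1 / (N : ℝ); positivity
      θR := by show 1 / (N : ℝ) / R * R = 1 / N; field_simp
      R1 := by show 1 ≤ R; exact_mod_cast (show (0 : ℝ) < R from hR0)
      LR := by show L ≤ R; exact_mod_cast hLR
      L1 := by show 1 ≤ L; omega
      qΔ := by
        show 400 * (1 / (N : ℝ)) * Δ ≤ 1
        rw [show 400 * (1 / (N : ℝ)) * Δ = 400 * Δ / N by ring, div_le_one hN0]; exact hNΔ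
      three := h.three
      ps0 := by show 0 ≤ d / 30000000; positivity
      ps1 := by show d / 30000000 ≤ 1; linarith }
  have hsl : d * e ≤ S.s0 o := by
    refine le_trans ?_ (src_ge h c o a b L)
    calc d * e ≤ (1 / 2) ^ (2 * Δ) * δ * e := by gcongr
      _ = (1 / 2) ^ (2 * Δ) * (δ * e) := by ring
      _ ≤ _ := by gcongr
  have hsu : S.s0 o ≤ e := (S.s0_le o).trans (e1.trans_le hhol)
  have hs0 : 0 < S.s0 o := lt_of_lt_of_le (by positivity) hsl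
  have hrl : d * e ≤ c.Dn o α β := le_trans (by gcongr) hDn
  have hru : c.Dn o α β ≤ e := (dn_le_hol c o α β).trans hhol
  refine ⟨FC.ofEC (S.ec_fin hF), ?_, ?_, ?_, ?_⟩
  · refine (e3.trans (c₀.ofEC_near _ o (Setup.cost_fin hs hF hnum))).mono ?_
    refine le_trans ?_ (hC (21 * Δ + 29) (by linarith))
    show 0 + (21 * (1 / (N : ℝ)) * Δ + 21 * (1 / N) + (3 * L + 5) * S.s0 o) ≤ _
    have : (3 * (L : ℝ) + 5) * S.s0 o ≤ (3 * L + 5) * e := by gcongr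
    linarith
  · refine (Setup.hol_fin hs hF hnum (e1.trans_le hhol) ?_).trans ?_
    · show 1 / (N : ℝ) / R ≤ 1 / N * e
      rw [div_le_iff₀ hR0, mul_assoc, mul_comm e]
      exact le_mul_of_one_le_right (by positivity) hRe
    · show c₀.hol o + (16 * Δ + 8) * (1 / (N : ℝ)) * e ≤ _
      rw [e1]
      have := hC (16 * Δ + 8) (by linarith)
      gcongr
  · obtain ⟨n, hn⟩ : ∃ n : ℕ, n = L / 4 := ⟨_, rfl⟩
    have hn1 : (n : ℝ) * 4 ≤ L := by exact_mod_cast (show n * 4 ≤ L by omega)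
    have hn2 : (L : ℝ) ≤ 8 * n := by exact_mod_cast (show L ≤ 8 * n by omega)
    have hn0 : (0 : ℝ) < n := by linarith
    have hκρ : (N : ℝ) * (d * e) / 256 ≤ N / (32 * L) * (n * S.s0 o) := by
      calc (N : ℝ) * (d * e) / 256 = N / (32 * L) * (L / 8 * (d * e)) := by field_simp; ring
        _ ≤ _ := by gcongr; linarith
    have key := Setup.sh_ge (S := S) h.tree.isAcyclic hs hF hL2 hnum n
      (by show 3 * N + 3 + 2 * n ≤ L; omega) (by show L + 1 ≤ 8 * n; omega)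
      (by show 1 ≤ N; omega) hs0 ?_ ?_ ?_ ?_
    · refine le_trans ?_ key
      show _ ≤ d / 30000000 * c₀.Dn o α β / 4
      rw [e2]
      calc d / 30000000 * d / 4 * e = d / 30000000 * (d * e) / 4 := by ring
        _ ≤ _ := by gcongr
    · show (N : ℝ) / (32 * L) ≤ (1 / (N : ℝ) / 4) ^ 2 / (200 * (Δ : ℝ) ^ 2)
      rw [div_le_div_iff₀ (by positivity) (by positivity)]
      calc (N : ℝ) * (200 * (Δ : ℝ) ^ 2) ≤ N * N := by gcongr
        _ = (1 / (N : ℝ) / 4) ^ 2 * (16 * N ^ 4) := by field_simp; ring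
        _ ≤ _ := by
          have : (N : ℝ) ^ 4 ≤ (N : ℝ) ^ 7 := pow_le_pow_right₀ hN1' (by norm_num)
          exact mul_le_mul_of_nonneg_left (by linarith) (by positivity)
    · show ((N : ℝ) / (32 * L)) ^ 2 * (n * S.s0 o) ≤
        ((1 / (N : ℝ) / 4) ^ 2 / (200 * (Δ : ℝ) ^ 2)) ^ 2 * c₀.Dn o α β
      rw [e2]
      calc ((N : ℝ) / (32 * L)) ^ 2 * (n * S.s0 o) ≤ ((N : ℝ) / (32 * L)) ^ 2 * (L / 4 * e) := by
            gcongr; linarith
        _ = N ^ 2 * e / 4096 / L := by field_simp; ring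
        _ ≤ N ^ 2 * e / 4096 / N ^ 7 := by gcongr
        _ = ((1 / (N : ℝ) / 4) ^ 2 / (200 * (Δ : ℝ) ^ 2)) ^ 2 *
            (2500 * (Δ : ℝ) ^ 4 / N * e) := by field_simp; ring
        _ ≤ ((1 / (N : ℝ) / 4) ^ 2 / (200 * (Δ : ℝ) ^ 2)) ^ 2 * (d * e) := by
            gcongr
            rw [div_le_iff₀ hN0]
            nlinarith
        _ ≤ _ := by gcongr
    · show 40 ≤ (m : ℝ) * ((N : ℝ) / (32 * L)) * (n * S.s0 o)
      calc (40 : ℝ) = 10240 / (d * N * e) * (N * (d * e) / 256) := by field_simp; norm_num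
        _ ≤ m * (N / (32 * L) * (n * S.s0 o)) := by gcongr
        _ = _ := by ring
    · show 3376 * ((2 * (N : ℝ) + 3) * ((N + 2 : ℕ) / (16 * L))) * (d / 30000000 * c₀.Dn o α β) ≤
        ((N : ℝ) / (32 * L)) ^ 2 * (n * S.s0 o)
      rw [e2]
      push_cast
      have hr0 : 0 ≤ c.Dn o α β := Pr_nonneg _
      calc 3376 * ((2 * (N : ℝ) + 3) * ((N + 2) / (16 * L))) * (d / 30000000 * c.Dn o α β) ≤
            3376 * ((5 * (N : ℝ)) * ((3 * N) / (16 * L))) * (d / 30000000 * e) := by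
            gcongr <;> linarith
        _ = 3376 * 15 * 8192 / (16 * 30000000) *
            (N / (32 * L) * (N * (d * e) / 256)) := by field_simp; ring
        _ ≤ 1 * (N / (32 * L) * (N / (32 * L) * (n * S.s0 o))) := by
            gcongr; norm_num
        _ = _ := by ring
  · rw [← e2]
    exact Setup.dn_fin (S := S) hF hnum b a

end Pool.Agent.MP_93f6c7_pr
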