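import Mathlib

/-! Splitting a uniform label; approximation of an event under small moves of the labels. -/

set_option autoImplicit false
open MeasureTheory Filter Topology Set
open scoped Classical ENNReal

namespace Pool.Agent.MP_93f6c7_pr

namespace Stab

/-- The affine map onto the `k`-th of `n` equal pieces. -/
noncomputable def aff (n k : ℕ) (s : unitInterval) : unitInterval :=
  projIcc 0 1 zero_le_one (((k : ℝ) + s) / n)

theorem aff_meas (n k : ℕ) : Measurable (aff n k) :=
  continuous_projIcc.measurable.comp (by fun_prop)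

theorem aff_coe {n k : ℕ} (hk : k < n) (s : unitInterval) :
    (aff n k s : ℝ) = ((k : ℝ) + s) / n := by
  have hn : (0 : ℝ) < n := by exact_mod_cast (Nat.zero_le k).trans_lt hk
  have h1 : (k : ℝ) + 1 ≤ n := by exact_mod_cast hk
  have h2 := s.2.1
  have h3 := s.2.2
  rw [aff, projIcc_of_mem _ ⟨by positivity, by rw [div_le_one hn]; linarith⟩]

theorem vol_le (c : ℝ) :
    volume {s : unitInterval | (s : ℝ) ≤ c} = ENNReal.ofReal (min c 1) := by
  have h := unitInterval.measurePreserving_coe.measure_preimage
    (measurableSet_Iic (a := c)).nullMeasurableSet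
  have e : Iic c ∩ unitInterval = Icc 0 (min c 1) := by
    ext x
    simp only [mem_inter_iff, mem_Iic, mem_Icc, le_min_iff]
    tauto
  rw [Measure.restrict_apply measurableSet_Iic, e, Real.volume_Icc, sub_zero] at h
  exact h

theorem sum_min (x : ℝ) (n : ℕ) :
    ∑ k ∈ Finset.range n, ENNReal.ofReal (min (x - k) 1) = ENNReal.ofReal (min x n) := by
  induction n with
  | zero => simp
  | succ n ih =>
    rw [Finset.sum_range_succ, ih]
    push_cast
    rcases le_total x n with h | h
    · rw [ENNReal.ofReal_of_nonpos (p := min (x - n) 1) (min_le_of_left_le (by linarith)),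
        add_zero, min_eq_left h, min_eq_left (by linarith)]
    · rw [← ENNReal.ofReal_add (le_min (le_trans n.cast_nonneg h) n.cast_nonneg)
        (le_min (by linarith) zero_le_one), min_eq_right h]
      congr 1
      rcases le_total x (n + 1) with h' | h'
      · rw [min_eq_left h', min_eq_left (by linarith)]
        ring
      · rw [min_eq_right h', min_eq_right (by linarith)]

theorem vol_split {n : ℕ} (hn : 0 < n) {A : Set unitInterval} (hA : MeasurableSet A) :
    ∑ k ∈ Finset.range n, volume (aff n k ⁻¹' A) = n * volume A := by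
  have hn' : (0 : ℝ) < n := by exact_mod_cast hn
  have key : ∑ k ∈ Finset.range n, (volume : Measure unitInterval).map (aff n k) =
      (n : ℝ≥0∞) • (volume : Measure unitInterval) := by
    refine Measure.ext_of_Iic _ _ fun a => ?_
    rw [Measure.finsetSum_apply, Measure.smul_apply, unitInterval.volume_Iic, smul_eq_mul]
    have : ∀ k ∈ Finset.range n, (volume : Measure unitInterval).map (aff n k) (Iic a) =
        ENNReal.ofReal (min (n * a - k) 1) := by
      intro k hk
      rw [Measure.map_apply (aff_meas n k) measurableSet_Iic, ← vol_le]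
      congr 1
      ext s
      simp only [mem_preimage, mem_Iic, mem_ofPred_eq]
      rw [← Subtype.coe_le_coe, aff_coe (Finset.mem_range.1 hk), div_le_iff₀ hn']
      constructor <;> intro h <;> linarith
    rw [Finset.sum_congr rfl this, sum_min, min_eq_left (by nlinarith [a.2.2]),
      ENNReal.ofReal_mul hn'.le, ENNReal.ofReal_natCast]
  have := congrArg (fun m : Measure unitInterval => m A) key
  simp only [Measure.finsetSum_apply, Measure.smul_apply, smul_eq_mul] at this
  rw [← this]
  exact Finset.sum_congr rfl fun k _ => (Measure.map_apply (aff_meas n k) hA).symm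

/-- One label is split into independent labels, one of which is close to the given label. -/
theorem exists_split {K : Type} [Countable K] (i0 : K) {n : ℕ} (hn : 0 < n) :
    ∃ g : unitInterval → K → unitInterval, Measurable g ∧
      volume.map g = (Measure.infinitePi fun _ : K => (volume : Measure unitInterval)) ∧
      ∀ t, |(g t i0 : ℝ) - t| ≤ 1 / n := by
  have hn' : (0 : ℝ) < n := by exact_mod_cast hn
  obtain ⟨g, hg, hg'⟩ := Measure.exists_measurable_map_eq
    (Measure.infinitePi fun _ : K => (volume : Measure unitInterval))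
  let fl : unitInterval → ℕ := fun t => ⌊(n : ℝ) * t⌋₊
  let fr : unitInterval → unitInterval := fun t => projIcc 0 1 zero_le_one ((n : ℝ) * t - fl t)
  have hfl : Measurable fun t => (fl t : ℝ) :=
    (Measurable.of_discrete (f := fun k : ℕ => (k : ℝ))).comp
      (Nat.measurable_floor.comp (by fun_prop))
  have hfr : Measurable fr :=
    continuous_projIcc.measurable.comp (Measurable.sub (by fun_prop) hfl)
  let U : ℕ → (K → unitInterval) → K → unitInterval := fun k z i =>
    if i = i0 then aff n k (z i) else z i
  have hm : Measurable fun t => U (fl t) (g (fr t)) := by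
    refine measurable_pi_lambda _ fun i => ?_
    have h1 : Measurable fun t => g (fr t) i := (measurable_pi_apply i).comp (hg.comp hfr)
    by_cases hi : i = i0
    · simp only [U, if_pos hi, aff]
      exact continuous_projIcc.measurable.comp
        ((hfl.add (measurable_subtype_coe.comp h1)).div_const _)
    · simpa only [U, if_neg hi] using h1
  refine ⟨fun t => U (fl t) (g (fr t)), hm, ?_, fun t => ?_⟩
  · refine Measure.eq_infinitePi _ fun s B hB => ?_
    have hS : MeasurableSet (Set.pi (s : Set K) B) :=
      MeasurableSet.pi s.countable_toSet fun i _ => hB i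
    rw [Measure.map_apply hm hS]
    have h1 := vol_split hn (hm hS)
    have h2 : ∀ k ∈ Finset.range n,
        volume (aff n k ⁻¹' ((fun t => U (fl t) (g (fr t))) ⁻¹' Set.pi (s : Set K) B)) =
          ∏ i ∈ s, volume (if i = i0 then aff n k ⁻¹' B i else B i) := by
      intro k hk
      have hB' : ∀ i, MeasurableSet (if i = i0 then aff n k ⁻¹' B i else B i) := fun i => by
        split_ifs
        exacts [aff_meas n k (hB i), hB i]
      rw [← Measure.infinitePi_pi _ fun i _ => hB' i, ← hg',
        Measure.map_apply hg (MeasurableSet.pi s.countable_toSet fun i _ => hB' i)]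
      refine measure_congr ?_
      have h3 : ∀ᵐ t : unitInterval, t ≠ 1 :=
        compl_mem_ae_iff.2 (measure_singleton (μ := volume) (1 : unitInterval))
      filter_upwards [h3] with t ht
      have h4 : (t : ℝ) < 1 := lt_of_le_of_ne t.2.2 fun h => ht (Subtype.ext h)
      have h5 : (n : ℝ) * aff n k t = k + t := by
        rw [aff_coe (Finset.mem_range.1 hk)]
        field_simp
      have h6 : fl (aff n k t) = k := by
        simp only [fl, h5]
        rw [Nat.floor_eq_iff (by have := t.2.1; positivity)]
        exact ⟨by linarith [t.2.1], by linarith⟩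
      have h7 : fr (aff n k t) = t := by
        simp only [fr, h5, h6, add_sub_cancel_left]
        exact projIcc_val _ t
      apply propext
      change U (fl (aff n k t)) (g (fr (aff n k t))) ∈ Set.pi (s : Set K) B ↔ g t ∈ Set.pi _ _
      rw [h6, h7]
      refine forall₂_congr fun i _ => ?_
      simp only [U]
      split_ifs <;> rfl
    rw [Finset.sum_congr rfl h2] at h1
    have hn0 : (n : ℝ≥0∞) ≠ 0 := by exact_mod_cast hn.ne'
    refine (ENNReal.mul_right_inj hn0 (ENNReal.natCast_ne_top n)).1 ?_
    rw [← h1]
    by_cases hi : i0 ∈ s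
    · have h8 : ∀ k, ∏ i ∈ s, volume (if i = i0 then aff n k ⁻¹' B i else B i) =
          volume (aff n k ⁻¹' B i0) * ∏ i ∈ s.erase i0, volume (B i) := by
        intro k
        rw [← Finset.mul_prod_erase _ _ hi, if_pos rfl]
        congr 1
        exact Finset.prod_congr rfl fun i hi => by rw [if_neg (Finset.ne_of_mem_erase hi)]
      simp only [h8]
      rw [← Finset.sum_mul, vol_split hn (hB i0), mul_assoc,
        Finset.mul_prod_erase s (fun i => volume (B i)) hi]
    · have h8 : ∀ k, ∏ i ∈ s, volume (if i = i0 then aff n k ⁻¹' B i else B i) =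
          ∏ i ∈ s, volume (B i) := fun k =>
        Finset.prod_congr rfl fun i hi' => by rw [if_neg (by rintro rfl; exact hi hi')]
      simp only [h8]
      rw [Finset.sum_const, Finset.card_range, nsmul_eq_mul]
  · simp only [U, if_true, aff]
    have h1 : (t : ℝ) = projIcc 0 1 zero_le_one (t : ℝ) := by rw [projIcc_val]
    rw [h1]
    refine (abs_projIcc_sub_projIcc _).trans ?_
    have h2 : (fl t : ℝ) ≤ n * t := Nat.floor_le (by have := t.2.1; positivity)
    have h3 : (n : ℝ) * t < fl t + 1 := Nat.lt_floor_add_one _
    have h4 := (g (fr t) i0).2.1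
    have h5 := (g (fr t) i0).2.2
    rw [abs_le, le_sub_iff_add_le, le_div_iff₀ hn', sub_le_iff_le_add, div_le_iff₀ hn']
    constructor
    · rw [add_mul, neg_mul, one_div, inv_mul_cancel₀ hn'.ne']
      linarith
    · rw [add_mul, one_div, inv_mul_cancel₀ hn'.ne']
      linarith

theorem approx {Z : Type} [TopologicalSpace Z] [MeasurableSpace Z] [OpensMeasurableSpace Z]
    (μ : Measure Z) [IsFiniteMeasure μ] [μ.OuterRegular] {f : ℕ → Z → Z}
    (hf : ∀ n, MeasurePreserving (f n) μ μ) (ht : ∀ x, Tendsto (fun n => f n x) atTop (𝓝 x))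
    {A : Set Z} (hA : MeasurableSet A) :
    Tendsto (fun n => μ {x | x ∈ A ∧ f n x ∉ A}) atTop (𝓝 0) := by
  refine ENNReal.tendsto_nhds_zero.2 fun δ hδ => ?_
  have hδ' : δ / 2 ≠ 0 := (ENNReal.half_pos hδ.ne').ne'
  obtain ⟨U, hAU, hU, -, hUA⟩ := hA.exists_isOpen_sdiff_lt (measure_ne_top μ A) hδ'
  let B : ℕ → Set Z := fun n => U ∩ ⋃ m, ⋃ _ : n ≤ m, f m ⁻¹' Uᶜ
  have hB : ∀ n, MeasurableSet (B n) := fun n => hU.measurableSet.inter
    (MeasurableSet.iUnion fun m => MeasurableSet.iUnion fun _ =>
      (hf m).measurable hU.measurableSet.compl)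
  have hanti : Antitone B := fun a b hab => inter_subset_inter_right _
    (iUnion_mono fun m => iUnion_subset fun h => subset_iUnion_of_subset (hab.trans h) le_rfl)
  have h0 : ⋂ n, B n = ∅ := by
    refine eq_empty_of_forall_notMem fun x hx => ?_
    rw [mem_iInter] at hx
    obtain ⟨n, hn⟩ := eventually_atTop.1 ((ht x).eventually (hU.mem_nhds (hx 0).1))
    obtain ⟨m, hm⟩ := mem_iUnion.1 (hx n).2
    obtain ⟨h1, h2⟩ := mem_iUnion.1 hm
    exact h2 (hn m h1)
  have h1 := tendsto_measure_iInter_atTop (μ := μ) (fun n => (hB n).nullMeasurableSet) hanti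
    ⟨0, measure_ne_top _ _⟩
  rw [h0, measure_empty] at h1
  filter_upwards [ENNReal.tendsto_nhds_zero.1 h1 _ (pos_iff_ne_zero.2 hδ')] with n hn
  have h2 : {x | x ∈ A ∧ f n x ∉ A} ⊆ B n ∪ f n ⁻¹' (U \ A) := by
    rintro x ⟨h3, h4⟩
    by_cases h5 : f n x ∈ U
    · exact Or.inr ⟨h5, h4⟩
    · exact Or.inl ⟨hAU h3, mem_iUnion.2 ⟨n, mem_iUnion.2 ⟨le_rfl, h5⟩⟩⟩
  refine (measure_mono h2).trans ((measure_union_le _ _).trans ?_)
  rw [← ENNReal.add_halves δ]
  exact add_le_add hn (((hf n).measure_preimage_le _).trans hUA.le)

end Stab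

end Pool.Agent.MP_93f6c7_pr
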