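import Pool.Agent.Mg.S19483.G2d2f3f
import Pool.Agent.MP_93f6c7_pr.StabA

/-! Stability: an almost proper factor colouring is close to a proper one. -/

set_option autoImplicit false
open MeasureTheory Filter Topology Set
open scoped Classical ENNReal

namespace Pool.Agent.MP_93f6c7_pr

namespace Stab

theorem exists_seq {A : Type} (R : A → A → ℝ → Prop) (h : A → ℝ) (h0 : ∀ c, 0 ≤ h c)
    (hR : ∀ c c' ε ε', R c c' ε → ε ≤ ε' → R c c' ε') {κ : ℝ} (hκ : 0 < κ) (C : ℝ) (N₀ : ℕ)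
    (H2 : ∀ N : ℕ, N₀ ≤ N → ∀ c, h c ≤ 1 / (N : ℝ) ^ 9 →
      ∃ c', R c c' (C / N) ∧ h c' ≤ (1 - κ) * h c) :
    ∃ K : ℝ, 0 ≤ K ∧ ∀ a : ℝ, 0 < a → a ≤ 1 / ((N₀ : ℝ) + 1) → ∀ c0, h c0 ≤ a ^ 9 →
      ∃ (c : ℕ → A) (ε : ℕ → ℝ), c 0 = c0 ∧ Summable ε ∧ ∑' n, ε n ≤ K * a ∧
        Summable (fun n => h (c n)) ∧ ∀ n, R (c n) (c (n + 1)) (ε n) := by
  set ρ : ℝ := 1 - min κ 1 / 9 with hρ
  have hm0 : 0 < min κ 1 := lt_min hκ one_pos
  have hm1 := min_le_right κ 1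
  have hρ0 : 0 < ρ := by linarith
  have hρ1 : ρ < 1 := by linarith
  have hρκ : 1 - κ ≤ ρ ^ 9 := by
    have h1 := one_add_mul_le_pow (a := -(min κ 1 / 9)) (by linarith) 9
    have h2 := min_le_left κ 1
    rw [← sub_eq_add_neg, ← hρ] at h1
    push_cast at h1
    linarith
  refine ⟨2 * |C| * (1 - ρ)⁻¹, by have := sub_pos.2 hρ1; positivity, fun a ha ha' c0 hc0 => ?_⟩
  have step : ∀ (n : ℕ) (c : A), h c ≤ (a * ρ ^ n) ^ 9 →
      ∃ c', R c c' (2 * |C| * a * ρ ^ n) ∧ h c' ≤ (a * ρ ^ (n + 1)) ^ 9 := by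
    intro n c hc
    have hb0 : 0 < a * ρ ^ n := by positivity
    have hb1 : a * ρ ^ n ≤ 1 / ((N₀ : ℝ) + 1) :=
      (mul_le_of_le_one_right ha.le (pow_le_one₀ hρ0.le hρ1.le)).trans ha'
    have e1 : a * ρ ^ (n + 1) = ρ * (a * ρ ^ n) := by ring
    rw [e1, mul_assoc (2 * |C|)]
    generalize a * ρ ^ n = b at *
    have h1 : ((N₀ + 1 : ℕ) : ℝ) ≤ 1 / b := by
      push_cast
      rwa [le_one_div (by positivity) hb0]
    have h2 : N₀ + 1 ≤ ⌊1 / b⌋₊ := Nat.le_floor h1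
    have h3 : (⌊1 / b⌋₊ : ℝ) ≤ 1 / b := Nat.floor_le (by positivity)
    have h4 : 1 / b < ⌊1 / b⌋₊ + 1 := Nat.lt_floor_add_one _
    generalize ⌊1 / b⌋₊ = N at *
    have h5 : (1 : ℝ) ≤ N := by exact_mod_cast (Nat.le_add_left 1 N₀).trans h2
    have h6 : b ≤ 1 / N := by rwa [le_one_div hb0 (by positivity)]
    obtain ⟨c', h7, h8⟩ := H2 N (by omega) c (hc.trans (by
      rw [← one_div_pow]
      exact pow_le_pow_left₀ hb0.le h6 9))
    refine ⟨c', hR _ _ _ _ h7 ?_, ?_⟩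
    · rw [div_lt_iff₀ hb0] at h4
      rw [div_le_iff₀ (by positivity)]
      have h9 : 1 ≤ 2 * (b * N) := by nlinarith
      have := le_abs_self C
      have := abs_nonneg C
      nlinarith
    · rw [mul_pow]
      exact h8.trans ((mul_le_mul_of_nonneg_right hρκ (h0 c)).trans
        (mul_le_mul_of_nonneg_left hc (by positivity)))
  choose f hf1 hf2 using step
  let u : (n : ℕ) → {c : A // h c ≤ (a * ρ ^ n) ^ 9} := fun n =>
    Nat.rec ⟨c0, by simpa using hc0⟩ (fun n c => ⟨f n c.1 c.2, hf2 n c.1 c.2⟩) n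
  refine ⟨fun n => (u n).1, fun n => 2 * |C| * a * ρ ^ n, rfl,
    (summable_geometric_of_lt_one hρ0.le hρ1).mul_left _, ?_, ?_, fun n => hf1 n (u n).1 (u n).2⟩
  · rw [tsum_mul_left, tsum_geometric_of_lt_one hρ0.le hρ1]
    exact le_of_eq (by ring)
  · refine Summable.of_nonneg_of_le (fun n => h0 _) (fun n => (u n).2) ?_
    refine ((summable_geometric_of_lt_one (r := ρ ^ 9) (by positivity)
      (pow_lt_one₀ hρ0.le hρ1 (by norm_num))).mul_left (a ^ 9)).congr fun n => ?_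
    rw [mul_pow, ← pow_mul, ← pow_mul, mul_comm 9 n]

variable {V : Type} {G : SimpleGraph V} {Δ : ℕ}

/-- Two edges at `v` have the same colour. -/
def Cf (G : SimpleGraph V) (s : Sym2 V → Fin Δ) (v : V) : Prop :=
  ∃ u w, G.Adj v u ∧ G.Adj v w ∧ u ≠ w ∧ s s(v, u) = s s(v, w)

/-- `v w` is the only edge of colour `p` at `v`. -/
def Un (G : SimpleGraph V) (s : Sym2 V → Fin Δ) (p : Fin Δ) (v w : V) : Prop :=
  G.Adj v w ∧ s s(v, w) = p ∧ ∀ u, G.Adj v u → s s(v, u) = p → u = w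

/-- `v w` is the only edge of colour `p` at both ends. -/
def Pp (G : SimpleGraph V) (s : Sym2 V → Fin Δ) (p : Fin Δ) (v w : V) : Prop :=
  Un G s p v w ∧ Un G s p w v

/-- The proper part of a colouring. -/
noncomputable def sg (G : SimpleGraph V) (s : Sym2 V → Fin Δ) (p : Fin Δ) (v : V) : V :=
  Fin'.pick v (Pp G s p v)

variable {s s' : Sym2 V → Fin Δ} {p : Fin Δ} {v w : V}

theorem sg_of (h : Pp G s p v w) : sg G s p v = w :=
  have := Fin'.pick_spec v ⟨w, h⟩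
  h.1.2.2 _ this.1.1 this.1.2.1

theorem sg_not (h : ¬ ∃ u, Pp G s p v u) : sg G s p v = v := by
  rw [sg, Fin'.pick, dif_neg h]

theorem sg_ne (h : sg G s p v ≠ v) : Pp G s p v (sg G s p v) := by
  by_cases h' : ∃ u, Pp G s p v u
  · exact Fin'.pick_spec v h'
  · exact (h (sg_not h')).elim

theorem sg_iff : sg G s p v = w ↔ Pp G s p v w ∨ (v = w ∧ ¬ ∃ u, Pp G s p v u) := by
  constructor
  · rintro rfl
    by_cases h' : ∃ u, Pp G s p v u
    · exact Or.inl (Fin'.pick_spec v h')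
    · exact Or.inr ⟨(sg_not h').symm, h'⟩
  · rintro (h | ⟨rfl, h⟩)
    exacts [sg_of h, sg_not h]

theorem sg_proper : Proper G (sg G s) := by
  refine ⟨fun p v => ?_, fun p v h => (sg_ne h).1.1, fun p q v hpq h e => ?_⟩
  · by_cases h : sg G s p v = v
    · rw [h, h]
    · exact sg_of (sg_ne h).symm
  · have h1 := (sg_ne h).1.2.1
    rw [e] at h h1
    exact hpq (h1.symm.trans (sg_ne h).1.2.1)

theorem Un_map (φ : G ≃g G) (h : ∀ e, s' e = s (Sym2.map φ e)) :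
    Un G s' p v w ↔ Un G s p (φ v) (φ w) := by
  simp only [Un, h, Sym2.map_mk, φ.map_adj_iff]
  refine and_congr Iff.rfl (and_congr Iff.rfl ⟨fun H u h1 h2 => ?_, fun H u h1 h2 => ?_⟩)
  · obtain ⟨u, rfl⟩ := φ.surjective u
    rw [H u (φ.map_adj_iff.1 h1) h2]
  · exact φ.injective (H _ (φ.map_adj_iff.2 h1) h2)

theorem Cf_map (φ : G ≃g G) (h : ∀ e, s' e = s (Sym2.map φ e)) : Cf G s' v ↔ Cf G s (φ v) := by
  simp only [Cf, h, Sym2.map_mk]
  constructor
  · rintro ⟨a, b, h1, h2, h3, h4⟩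
    exact ⟨_, _, φ.map_adj_iff.2 h1, φ.map_adj_iff.2 h2, φ.injective.ne h3, h4⟩
  · rintro ⟨a, b, h1, h2, h3, h4⟩
    obtain ⟨a, rfl⟩ := φ.surjective a
    obtain ⟨b, rfl⟩ := φ.surjective b
    exact ⟨a, b, φ.map_adj_iff.1 h1, φ.map_adj_iff.1 h2, fun e => h3 (by rw [e]), h4⟩

theorem sg_map (φ : G ≃g G) (h : ∀ e, s' e = s (Sym2.map φ e)) :
    φ (sg G s' p v) = sg G s p (φ v) := by
  by_cases h' : ∃ u, Pp G s' p v u
  · obtain ⟨u, hu⟩ := h'
    rw [sg_of hu, sg_of ⟨(Un_map φ h).1 hu.1, (Un_map φ h).1 hu.2⟩]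
  · rw [sg_not h', sg_not]
    rintro ⟨u, hu⟩
    obtain ⟨u, rfl⟩ := φ.surjective u
    exact h' ⟨u, (Un_map φ h).2 hu.1, (Un_map φ h).2 hu.2⟩

theorem Un_of (h : ¬ Cf G s v) (hw : G.Adj v w) : Un G s (s s(v, w)) v w :=
  ⟨hw, rfl, fun u h1 h2 => by_contra fun h3 => h ⟨u, w, h1, hw, h3, h2⟩⟩

theorem sg_good (h : ¬ Cf G s v) (h' : ¬ Cf G s w) (hw : G.Adj v w) :
    sg G s (s s(v, w)) v = w :=
  sg_of ⟨Un_of h hw, by rw [Sym2.eq_swap]; exact Un_of h' hw.symm⟩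

theorem exists_col [G.LocallyFinite] (hd : G.degree v = Δ) (h : ¬ Cf G s v) (p : Fin Δ) :
    ∃ w, G.Adj v w ∧ s s(v, w) = p := by
  let f : G.neighborSet v → Fin Δ := fun w => s s(v, w)
  have hf : Function.Injective f := fun a b hab =>
    by_contra fun hc => h ⟨a, b, a.2, b.2, fun e => hc (Subtype.ext e), hab⟩
  have hb : Function.Bijective f := (Fintype.bijective_iff_injective_and_card f).2
    ⟨hf, by rw [Fintype.card_fin, SimpleGraph.card_neighborSet_eq_degree, hd]⟩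
  obtain ⟨w, hw⟩ := hb.2 p
  exact ⟨w, w.2, hw⟩

theorem meas_Un [Countable V] {Z : Type} [MeasurableSpace Z] {F : Z → Sym2 V → Fin Δ}
    (hF : Measurable F) (p : Fin Δ) (v w : V) : Measurable fun z => Un G (F z) p v w :=
  measurable_const.and ((((measurable_pi_apply _).comp hF).eq_const p).and
    (Measurable.forall fun _ => measurable_const.imp
      ((((measurable_pi_apply _).comp hF).eq_const p).imp measurable_const)))

theorem meas_sg [Countable V] [MeasurableSpace V] {Z : Type} [MeasurableSpace Z]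
    {F : Z → Sym2 V → Fin Δ} (hF : Measurable F) : Measurable fun z => sg G (F z) := by
  refine measurable_pi_lambda _ fun p => measurable_pi_lambda _ fun v => ?_
  refine measurable_to_countable' fun w => ?_
  have h : ∀ w, Measurable fun z => Pp G (F z) p v w := fun w =>
    (meas_Un hF p v w).and (meas_Un hF p w v)
  have : Measurable fun z => Pp G (F z) p v w ∨ (v = w ∧ ¬ ∃ u, Pp G (F z) p v u) :=
    (h w).or (measurable_const.and (Measurable.exists h).not)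
  convert measurableSet_setOfPred.2 this using 1
  ext z
  exact sg_iff

/-- Equivariance. -/
def Eqv (G : SimpleGraph V) (F : (V → unitInterval) → Sym2 V → Fin Δ) : Prop :=
  ∀ (φ : G ≃g G) (x : V → unitInterval) (e : Sym2 V),
    F (fun i : V => x (φ i)) e = F x (Sym2.map φ e)

theorem move (hc : G.Connected) (hs : HasSwaps G) {E : (V → unitInterval) → V → Prop}
    (hE : ∀ (φ : G ≃g G) x v, E (fun i => x (φ i)) v ↔ E x (φ v)) (v w : V) :
    Fin'.mu V {x | E x w} ≤ Fin'.mu V {x | E x v} := by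
  obtain ⟨l⟩ := hc v w
  obtain ⟨φ, rfl⟩ := Fin'.exists_iso hs l
  refine le_trans (measure_mono fun x hx => ?_)
    ((Fin'.mp_perm (φ := φ) φ.injective).measure_preimage_le _)
  exact (hE φ x v).2 hx

instance mu_prob : IsProbabilityMeasure (Fin'.mu V) := by
  unfold Fin'.mu; infer_instance

theorem near_le [G.LocallyFinite] (hG : RT G Δ) (hs : HasSwaps G)
    {F : (V → unitInterval) → Sym2 V → Fin Δ} (hF : Eqv G F) (o : V) :
    Fin'.mu V {x | Cf G (F x) o ∨ ∃ w, G.Adj o w ∧ Cf G (F x) w} ≤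
      (Δ + 1) * Fin'.mu V {x | Cf G (F x) o} := by
  have h1 : {x | Cf G (F x) o ∨ ∃ w, G.Adj o w ∧ Cf G (F x) w} ⊆
      (⋃ w ∈ G.neighborFinset o, {x | Cf G (F x) w}) ∪ {x | Cf G (F x) o} := by
    rintro x (h | ⟨w, h, h'⟩)
    · exact Or.inr h
    · exact Or.inl (mem_biUnion (by simpa using h) h')
  refine (measure_mono h1).trans ((measure_union_le _ _).trans ?_)
  rw [add_mul, one_mul]
  refine add_le_add ((measure_biUnion_finset_le _ _).trans ?_) le_rfl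
  refine (Finset.sum_le_card_nsmul _ _ _ fun w _ => move hG.tree.connected hs
    (E := fun x v => Cf G (F x) v) (fun φ x v => Cf_map φ (hF φ x)) o w).trans ?_
  rw [SimpleGraph.card_neighborFinset_eq_degree, hG.reg, nsmul_eq_mul]

end Stab

end Pool.Agent.MP_93f6c7_pr
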