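import Pool.Agent.MP_93f6c7_pr.StabB

/-! Stability: the limit of the iteration and the assembly. -/

set_option autoImplicit false
set_option linter.unusedSectionVars false
open MeasureTheory Filter Topology Set
open scoped Classical ENNReal

namespace Pool.Agent.MP_93f6c7_pr

namespace Stab

open Fin'

variable {V : Type} [MeasurableSpace V] [DiscreteMeasurableSpace V] [Countable V]
  {G : SimpleGraph V} [G.LocallyFinite] {Δ : ℕ}

/-- Almost surely proper. -/
def Prp (G : SimpleGraph V) (F : (V → unitInterval) → Sym2 V → Fin Δ) : Prop :=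
  ∀ᵐ x ∂(mu V), ∀ u v w : V, G.Adj u v → G.Adj u w → v ≠ w → F x s(u, v) ≠ F x s(u, w)

theorem limit (hG : RT G Δ) (hs : HasSwaps G) (o : V) {c : ℕ → FC G Δ} {ε : ℕ → ℝ}
    (hε : Summable ε) (hh : Summable fun n => (c n).hol o) {j : ℕ → ℕ → ℕ}
    (hj' : ∀ n, Pr (nu V) (fun y => ∃ p, (c (n + 1)).σ y p o ≠ (c n).σ (reix (j n) y) p o) ≤ ε n)
    {J : ℕ → ℕ → ℕ × ℕ} (hJ : ∀ n, Function.Injective (J n))
    (hJj : ∀ n m, J (n + 1) (j n m) = J n m) {g : unitInterval → ℕ × ℕ → unitInterval}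
    (hg : Measurable g)
    (hg' : volume.map g = Measure.infinitePi fun _ : ℕ × ℕ => (volume : Measure unitInterval)) :
    ∃ F : (V → unitInterval) → (Sym2 V → Fin Δ), Measurable F ∧ Eqv G F ∧ Prp G F ∧
      mu V {x | ∃ v p, v ≠ o ∧ (c 0).σ (fun i => g (x i.1) (J 0 i.2)) p o = v ∧ F x s(o, v) ≠ p} ≤
        ENNReal.ofReal (∑' n, ε n) := by
  let r : ℕ → (V → unitInterval) → Y V := fun n x i => g (x i.1) (J n i.2)
  have hr : ∀ n, MeasurePreserving (r n) (mu V) (nu V) := fun n => mp_r V hg hg' (hJ n)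
  have hre : ∀ n x, reix (j n) (r (n + 1) x) = r n x := fun n x => by
    funext i
    simp only [reix, r, hJj]
  let t : (V → unitInterval) → ℕ → Fin Δ → V → V := fun x n => (c n).σ (r n x)
  have hte : ∀ (φ : G ≃g G) (x : V → unitInterval) n p v,
      φ (t (fun i => x (φ i)) n p v) = t x n p (φ v) := fun φ x n p v =>
    (c n).eqv φ (r n x) p v
  have htp : ∀ x n, Proper G (t x n) := fun x n => (c n).proper _
  have htm : ∀ n p u, Measurable fun x => t x n p u := fun n p u =>
    (measurable_pi_apply u).comp ((measurable_pi_apply p).comp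
      ((c n).meas.comp (hr n).measurable))
  have go : ∀ᵐ x ∂(mu V), GoodAt (t x) o := by
    have h1 := ae_eventually_not (fun n => hr (n + 1))
      (fun n y => ∃ p, (c (n + 1)).σ y p o ≠ (c n).σ (reix (j n) y) p o) hε hj'
    have h2 := ae_eventually_not hr (fun n y => ∃ p, (c n).σ y p o = o) hh
      fun n => Pr_hole_le (c n) o
    filter_upwards [h1, h2] with x hx1 hx2
    refine ⟨?_, hx2⟩
    simpa only [hre] using hx1
  have ga : ∀ᵐ x ∂(mu V), ∀ v, GoodAt (t x) v := by
    rw [ae_all_iff]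
    intro v
    obtain ⟨w⟩ := hG.tree.connected o v
    obtain ⟨φ, rfl⟩ := exists_iso hs w
    filter_upwards [(mp_perm (φ := φ) φ.injective).quasiMeasurePreserving.ae go] with x hx
    exact hx.map φ (hte φ x)
  let b : Fin Δ := ⟨0, by have := hG.three; omega⟩
  refine ⟨fun x e => pick b (Q (t x) e), ?_, fun φ x e => ?_, ?_, ?_⟩
  · refine measurable_pi_lambda _ fun e => ?_
    refine (Measurable.of_discrete (f := pick b)).comp (measurable_pi_lambda _ fun p => ?_)
    exact Measurable.exists fun u => Measurable.exists fun v => measurable_const.and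
      (Measurable.exists fun N => Measurable.forall fun n => measurable_const.imp
        ((htm n p u).eq_const v))
  · exact congrArg (pick b) (Q_map φ (hte φ x) e)
  · filter_upwards [ga] with x hx u v w huv huw hvw he
    have h1 := pick_spec b ((hx u).exists_Q (htp x) (hG.reg u) huv)
    have h2 := pick_spec b ((hx u).exists_Q (htp x) (hG.reg u) huw)
    rw [← he] at h2
    obtain ⟨n, hn1, hn2⟩ := ((h1.ev (htp x)).and (h2.ev (htp x))).exists
    exact hvw (hn1.symm.trans hn2)
  · refine le_trans (measure_mono (t := ⋃ n, r (n + 1) ⁻¹'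
      {y | ∃ p, (c (n + 1)).σ y p o ≠ (c n).σ (reix (j n) y) p o}) ?_) ?_
    · rintro x ⟨v, p, hv, h0, hne⟩
      by_contra hc
      have h1 : ∀ n q, t x (n + 1) q o = t x n q o := fun n q => by
        by_contra h
        exact hc (mem_iUnion.2 ⟨n, q, by rwa [hre]⟩)
      have h2 : ∀ n, t x n p o = v := fun n => by
        induction n with
        | zero => exact h0
        | succ n ih => rw [h1, ih]
      have h3 := pick_spec b (P := Q (t x) s(o, v)) ⟨p, o, v, rfl, 0, fun n _ => h2 n⟩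
      obtain ⟨n, hn⟩ := (h3.ev (htp x)).exists
      exact (htp x n).disj _ p o hne (by rwa [hn]) (hn.trans (h2 n).symm)
    · refine (measure_iUnion_le _).trans ?_
      rw [ENNReal.ofReal_tsum_of_nonneg (fun n => le_trans measureReal_nonneg (hj' n)) hε]
      refine ENNReal.tsum_le_tsum fun n => ((hr _).measure_preimage_le _).trans ?_
      rw [← ofReal_measureReal (measure_ne_top (nu V) _)]
      exact ENNReal.ofReal_le_ofReal (hj' n)

/-- The proper part of a factor colouring. -/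
noncomputable def start {F : (V → unitInterval) → Sym2 V → Fin Δ} (hm : Measurable F)
    (hF : Eqv G F) : FC G Δ where
  σ := fun y => sg G (F fun v => y (v, 0))
  meas := meas_sg (hm.comp (by fun_prop))
  proper := fun _ => sg_proper
  eqv := fun φ y _ _ => sg_map φ (hF φ fun v => y (v, 0))

theorem mp_fst : MeasurePreserving (fun (y : Y V) (v : V) => y (v, 0)) (nu V) (mu V) :=
  ⟨by fun_prop, Measure.map_infinitePi_infinitePi_of_inj (f := fun v : V => (v, 0))
    fun _ _ h => (Prod.ext_iff.1 h).1⟩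

theorem start_hol (hG : RT G Δ) (hs : HasSwaps G) {F : (V → unitInterval) → Sym2 V → Fin Δ}
    (hm : Measurable F) (hF : Eqv G F) (o : V) :
    (start hm hF).hol o ≤ Δ * ((Δ + 1) * (mu V).real {x | Cf G (F x) o}) := by
  refine (Finset.sum_le_card_nsmul _ _ _ fun p _ => ?_).trans
    (by rw [Finset.card_univ, Fintype.card_fin, nsmul_eq_mul])
  have h1 : nu V {y | (start hm hF).σ y p o = o} ≤ (Δ + 1) * mu V {x | Cf G (F x) o} := by
    refine le_trans (measure_mono fun y hy => ?_)
      ((mp_fst.measure_preimage_le _).trans (near_le hG hs hF o))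
    by_contra hc
    simp only [mem_preimage, mem_ofPred_eq, not_or, not_exists, not_and] at hc
    obtain ⟨w, hw, rfl⟩ := exists_col (hG.reg o) hc.1 p
    exact hw.ne (hy.symm.trans (sg_good hc.1 (hc.2 w hw) hw))
  have h2 := ENNReal.toReal_mono (by finiteness) h1
  rw [ENNReal.toReal_mul, ENNReal.toReal_add (by finiteness) (by finiteness)] at h2
  simpa [Pr, Measure.real] using h2

theorem close {F : (V → unitInterval) → Sym2 V → Fin Δ} (hm : Measurable F) (o : V)
    (i0 : ℕ × ℕ) {δ : ℝ≥0∞} (hδ : 0 < δ) :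
    ∃ g : unitInterval → ℕ × ℕ → unitInterval, Measurable g ∧
      volume.map g = (Measure.infinitePi fun _ : ℕ × ℕ => (volume : Measure unitInterval)) ∧
      mu V {x | ∃ v, G.Adj o v ∧ F (fun w => g (x w) i0) s(o, v) ≠ F x s(o, v)} ≤ δ := by
  choose g hg hg' hgc using fun n : ℕ => exists_split i0 n.succ_pos
  let f : ℕ → (V → unitInterval) → V → unitInterval := fun n x w => g n (x w) i0
  have hf : ∀ n, MeasurePreserving (f n) (mu V) (mu V) := fun n =>
    mp_fst.comp (mp_r V (hg n) (hg' n) (J := fun m => (i0.1, i0.2 + m))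
      fun a b h => Nat.add_left_cancel (Prod.ext_iff.1 h).2)
  have ht : ∀ x, Tendsto (fun n => f n x) atTop (𝓝 x) := fun x => by
    refine tendsto_pi_nhds.2 fun w => tendsto_subtype_rng.2 ?_
    rw [tendsto_iff_dist_tendsto_zero]
    refine squeeze_zero (fun _ => dist_nonneg) (fun n => hgc n (x w)) ?_
    exact_mod_cast tendsto_one_div_add_atTop_nhds_zero_nat (𝕜 := ℝ)
  have : (mu V).OuterRegular := by
    unfold mu
    infer_instance
  have h1 : Tendsto (fun n => ∑ v ∈ G.neighborFinset o, ∑ p : Fin Δ,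
      mu V {x | x ∈ {x | F x s(o, v) = p} ∧ f n x ∉ {x | F x s(o, v) = p}}) atTop (𝓝 0) := by
    have := tendsto_finsetSum (G.neighborFinset o) fun v _ =>
      tendsto_finsetSum Finset.univ fun (p : Fin Δ) _ => approx (mu V) hf ht
        (measurableSet_setOfPred.2 (((measurable_pi_apply s(o, v)).comp hm).eq_const p))
    simpa using this
  obtain ⟨n, hn⟩ := (ENNReal.tendsto_nhds_zero.1 h1 δ hδ).exists
  refine ⟨g n, hg n, hg' n, le_trans ?_ hn⟩
  refine le_trans (measure_mono ?_) ((measure_biUnion_finset_le _ _).trans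
    (Finset.sum_le_sum fun v _ => measure_biUnion_finset_le _ _))
  rintro x ⟨v, hv, h⟩
  exact mem_biUnion (x := v) (by simpa using hv) (mem_biUnion (Finset.mem_univ _) ⟨rfl, h⟩)

theorem main (hG : RT G Δ) (hs : HasSwaps G) (o : V) (hI : ImproveStmt G Δ o) :
    ∃ C : ℝ, ∀ F : (V → unitInterval) → Sym2 V → Fin Δ, Measurable F → Eqv G F →
      ∃ F' : (V → unitInterval) → Sym2 V → Fin Δ, Measurable F' ∧ Eqv G F' ∧ Prp G F' ∧
        (mu V).real {x | ∃ v, G.Adj o v ∧ F' x s(o, v) ≠ F x s(o, v)} ≤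
          C * (mu V).real {x | Cf G (F x) o} ^ (1 / 9 : ℝ) := by
  obtain ⟨F₀, h01, h02, h03⟩ := Fin'.main hG hs o hI
  obtain ⟨κ, hκ, -, C, N₀, H2⟩ := hI
  obtain ⟨K, hK, H⟩ := exists_seq (fun (c c' : FC G Δ) ε => c.Near c' o ε) (fun c => c.hol o)
    (fun c => hol_nonneg c o) (fun _ _ _ _ ⟨j, hj, h⟩ h' => ⟨j, hj, h.trans h'⟩) hκ C N₀ H2
  refine ⟨(K + N₀ + 1) * (Δ + 1) + Δ + 2, fun F hm hF => ?_⟩
  set e := (mu V).real {x | Cf G (F x) o} with he
  have he0 : 0 ≤ e := measureReal_nonneg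
  have he1 : e ≤ 1 := measureReal_le_one
  rcases he0.eq_or_lt with h0 | h0
  · refine ⟨F, hm, hF, ?_, ?_⟩
    swap
    · simp only [ne_eq, not_true, and_false, exists_false, ofPred_false, measureReal_empty]
      positivity
    have h1 : mu V {x | Cf G (F x) o} = 0 := (measureReal_eq_zero_iff (by finiteness)).1 h0.symm
    have h2 : ∀ᵐ x ∂(mu V), ∀ u, ¬ Cf G (F x) u := ae_all_iff.2 fun u =>
      measure_eq_zero_iff_ae_notMem.1 (le_zero_iff.1 ((move hG.tree.connected hs
        (E := fun x v => Cf G (F x) v) (fun φ x v => Cf_map φ (hF φ x)) o u).trans h1.le))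
    filter_upwards [h2] with x hx u v w h3 h4 h5 h6
    exact hx u ⟨v, w, h3, h4, h5, h6⟩
  have hb0 : 0 < e ^ (1 / 9 : ℝ) := Real.rpow_pos_of_pos h0 _
  have hb1 : e ≤ e ^ (1 / 9 : ℝ) := Real.self_le_rpow_of_le_one he0 he1 (by norm_num)
  have hb9 : (e ^ (1 / 9 : ℝ)) ^ 9 = e := by
    rw [← Real.rpow_natCast, ← Real.rpow_mul he0]
    norm_num
  generalize e ^ (1 / 9 : ℝ) = b at *
  have hΔ : (0 : ℝ) ≤ Δ := Δ.cast_nonneg
  have hN : (0 : ℝ) ≤ N₀ := N₀.cast_nonneg
  by_cases ha : (Δ + 1) * b ≤ 1 / ((N₀ : ℝ) + 1)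
  swap
  · refine ⟨F₀, h01, h02, h03, measureReal_le_one.trans ?_⟩
    rw [not_le, div_lt_iff₀ (by positivity)] at ha
    have : 0 ≤ K * (Δ + 1) * b := by positivity
    nlinarith
  obtain ⟨c, ε, hc0, hε, hεK, hh, hc⟩ := H ((Δ + 1) * b) (by positivity) ha (start hm hF) (by
    refine (start_hol hG hs hm hF o).trans ?_
    rw [mul_pow, hb9, ← he, ← mul_assoc]
    refine mul_le_mul_of_nonneg_right ?_ he0
    have : ((Δ : ℝ) + 1) ^ 2 ≤ (Δ + 1) ^ 9 := pow_le_pow_right₀ (by linarith) (by norm_num)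
    nlinarith)
  choose j hj hj' using hc
  obtain ⟨J, hJ, hJj⟩ := exists_J j hj
  obtain ⟨g, hg, hg', hcl⟩ := close (G := G) hm o (J 0 0) (ENNReal.ofReal_pos.2 hb0)
  obtain ⟨F', h1, h2, h3, h4⟩ := limit hG hs o hε hh hj' hJ hJj hg hg'
  refine ⟨F', h1, h2, h3, ?_⟩
  have hf : MeasurePreserving (fun (x : V → unitInterval) w => g (x w) (J 0 0)) (mu V) (mu V) :=
    mp_fst.comp (mp_r V hg hg' (hJ 0))
  have h5 := (hf.measure_preimage_le _).trans (near_le hG hs hF o)
  have h6 : mu V {x | ∃ v, G.Adj o v ∧ F' x s(o, v) ≠ F x s(o, v)} ≤ ENNReal.ofReal b +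
      ((Δ + 1) * mu V {x | Cf G (F x) o} + ENNReal.ofReal (∑' n, ε n)) := by
    refine le_trans (measure_mono ?_) ((measure_union_le _ _).trans (add_le_add hcl
      ((measure_union_le _ _).trans (add_le_add h5 h4))))
    rintro x ⟨v, hv, h⟩
    by_contra hn
    simp only [mem_union, mem_preimage, mem_ofPred_eq, not_or, not_exists, not_and, not_not] at hn
    obtain ⟨n1, ⟨n2, n3⟩, n4⟩ := hn
    refine h ((n4 v _ hv.ne' ?_).trans (n1 v hv))
    rw [hc0]
    exact sg_good n2 (n3 v hv) hv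
  have h7 := ENNReal.toReal_mono (by finiteness) h6
  rw [ENNReal.toReal_add (by finiteness) (by finiteness),
    ENNReal.toReal_add (by finiteness) (by finiteness), ENNReal.toReal_mul,
    ENNReal.toReal_add (by finiteness) (by finiteness), ENNReal.toReal_ofReal hb0.le,
    ENNReal.toReal_natCast, ENNReal.toReal_one, ENNReal.toReal_ofReal'] at h7
  refine h7.trans ?_
  have h8 : max (∑' n, ε n) 0 ≤ K * ((Δ + 1) * b) := max_le hεK (by positivity)
  have h9 : (Δ + 1) * e ≤ (Δ + 1) * b := mul_le_mul_of_nonneg_left hb1 (by positivity)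
  have h10 : 0 ≤ ((N₀ : ℝ) + 1) * (Δ + 1) * b := by positivity
  change b + ((Δ + 1) * e + _) ≤ _
  nlinarith

end Stab

end Pool.Agent.MP_93f6c7_pr
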