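import Pool.Agent.MP_93f6c7_pr.Defs

set_option autoImplicit false
open SimpleGraph

namespace Pool.Agent.MP_93f6c7_pr

namespace Swap

variable {V : Type} {G : SimpleGraph V}

/-- A map of a tree to itself that is bijective on neighbourhoods is an automorphism. -/
theorem iso_of_local (hG : G.IsTree) (φ : V → V)
    (h : ∀ v, Set.BijOn φ (G.neighborSet v) (G.neighborSet (φ v))) :
    ∃ ψ : G ≃g G, ∀ v, ψ v = φ v := by
  let f : G →g G := ⟨φ, fun {a b} hab => (h a).mapsTo hab⟩
  have hpath : ∀ (x y : V) (p : G.Walk x y), p.IsPath → (p.map f).IsPath := by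
    intro x y p
    induction p with
    | nil => intro _; simp
    | @cons x z y hxz q ih =>
      intro hp
      rw [Walk.cons_isPath_iff] at hp
      rw [Walk.map_cons, Walk.cons_isPath_iff]
      refine ⟨ih hp.1, fun hmem => ?_⟩
      have h1 := hG.isAcyclic.eq_snd_of_adj_start (ih hp.1) (f.map_adj hxz).symm hmem
      cases q with
      | nil =>
        simp only [Walk.map_nil, Walk.support_nil, List.mem_singleton] at hmem
        exact (f.map_adj hxz).ne hmem
      | @cons _ t _ hzt r =>
        simp only [Walk.map_cons, Walk.snd_cons] at h1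
        have : x = t := (h z).injOn hxz.symm hzt h1
        exact hp.2 (by rw [this]; simp)
  have hinj : Function.Injective φ := by
    intro x y hxy
    obtain ⟨p, hp, -⟩ := hG.existsUnique_path x y
    have h1 := hpath x y p hp
    cases p with
    | nil => rfl
    | cons hxz q =>
      exfalso
      rw [Walk.map_cons, Walk.cons_isPath_iff] at h1
      refine h1.2 ?_
      have e : f x = f y := hxy
      have e2 : ∀ t, t = f y → t ∈ (Walk.map f q).support := by
        rintro t rfl
        exact Walk.end_mem_support _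
      exact e2 _ e
  have hsurj : Function.Surjective φ := by
    intro y
    obtain ⟨x0⟩ := hG.connected.nonempty
    have : ∀ (a b : V) (p : G.Walk a b), (∃ x, φ x = a) → ∃ x, φ x = b := by
      intro a b p
      induction p with
      | nil => exact id
      | cons hab q ih =>
        rintro ⟨x, rfl⟩
        obtain ⟨t, -, ht⟩ := (h x).surjOn hab
        exact ih ⟨t, ht⟩
    obtain ⟨p⟩ := hG.connected.preconnected (φ x0) y
    exact this _ _ p ⟨x0, rfl⟩
  refine ⟨⟨Equiv.ofBijective φ ⟨hinj, hsurj⟩, fun {a b} => ⟨fun hab => ?_, fun hab =>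
    (h a).mapsTo hab⟩⟩, fun _ => rfl⟩
  obtain ⟨t, ht, htb⟩ := (h a).surjOn hab
  rw [← hinj htb]
  exact ht

theorem exists_bij [G.LocallyFinite] {Δ : ℕ} (hr : ∀ v, G.degree v = Δ) (v z v' z' : V) :
    ∃ f : V → V, Set.BijOn f (G.neighborSet v) (G.neighborSet v') ∧
      (G.Adj v z → G.Adj v' z' → f z = z') := by
  classical
  have e : G.neighborSet v ≃ G.neighborSet v' :=
    Fintype.equivOfCardEq (by rw [card_neighborSet_eq_degree, card_neighborSet_eq_degree, hr, hr])
  have key : ∀ e : G.neighborSet v ≃ G.neighborSet v',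
      Set.BijOn (fun x => if hx : x ∈ G.neighborSet v then (e ⟨x, hx⟩ : V) else x)
        (G.neighborSet v) (G.neighborSet v') := by
    intro e
    refine ⟨fun x hx => ?_, fun x hx y hy hxy => ?_, fun y hy => ?_⟩
    · simp only [dif_pos hx]; exact (e ⟨x, hx⟩).2
    · simp only [dif_pos hx, dif_pos hy] at hxy
      exact congrArg Subtype.val (e.injective (Subtype.ext hxy))
    · refine ⟨(e.symm ⟨y, hy⟩).1, (e.symm ⟨y, hy⟩).2, ?_⟩
      simp only [dif_pos (e.symm ⟨y, hy⟩).2, Subtype.coe_eta, Equiv.apply_symm_apply]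
  by_cases hz : G.Adj v z ∧ G.Adj v' z'
  · refine ⟨_, key (e.trans (Equiv.swap (e ⟨z, hz.1⟩) ⟨z', hz.2⟩)), fun h1 _ => ?_⟩
    have hm : z ∈ G.neighborSet v := h1
    simp only [dif_pos hm, Equiv.trans_apply, Equiv.swap_apply_left]
  · exact ⟨_, key e, fun h1 h2 => absurd ⟨h1, h2⟩ hz⟩

/-- The image vertex and the local map, transported along a walk to the root. -/
def tr (B : V → V → V → V → V → V) (u : V) (s : V × (V → V)) :
    {v : V} → G.Walk v u → V × (V → V)
  | _, .nil => s
  | v, @Walk.cons _ _ _ z _ _ p =>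
    ((tr B u s p).2 v, B v z ((tr B u s p).2 v) (tr B u s p).1)

end Swap

open Swap in
theorem hasSwaps {V : Type} {G : SimpleGraph V} [G.LocallyFinite] {Δ : ℕ} (h : RT G Δ) :
    HasSwaps G := by
  intro u w huw
  choose B hB1 hB2 using exists_bij (G := G) h.reg
  choose P hP hPu using fun v => h.tree.existsUnique_path v u
  let s : V × (V → V) := (w, B u w w u)
  have hbij : ∀ (v : V) (p : G.Walk v u),
      Set.BijOn (tr B u s p).2 (G.neighborSet v) (G.neighborSet (tr B u s p).1) := by
    intro v p
    cases p with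
    | nil => exact hB1 _ _ _ _
    | cons hvz q => exact hB1 _ _ _ _
  let φ : V → V := fun v => (tr B u s (P v)).1
  have hstep : ∀ (v x : V) (hxv : G.Adj x v), x ∉ (P v).support → P x = Walk.cons hxv (P v) :=
    fun v x hxv hx => (hPu x _ ((Walk.cons_isPath_iff _ _).mpr ⟨hP v, hx⟩)).symm
  have hloc : ∀ v x, G.Adj v x → φ x = (tr B u s (P v)).2 x := by
    intro v x hvx
    by_cases hx : x ∈ (P v).support
    · have hv : v ∉ (P x).support := by
        intro hv
        have h1 := h.tree.isAcyclic.eq_snd_of_adj_start (hP v) hvx hx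
        have h2 : P x = ((P v).tail.copy h1.symm rfl) :=
          (hPu x _ (by simpa using (hP v).tail)).symm
        rw [h2, Walk.support_copy] at hv
        have hn : ¬ (P v).Nil := by
          intro hnil
          have := hnil.eq
          subst this
          rw [Walk.isPath_iff_eq_nil.mp (hP v)] at hx
          simp only [Walk.support_nil, List.mem_singleton] at hx
          exact hvx.ne hx.symm
        have h3 := (hP v).support_nodup
        rw [← Walk.cons_support_tail hn] at h3
        exact (List.nodup_cons.mp h3).1 hv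
      have e := hstep x v hvx hv
      rw [e]
      refine (hB2 _ _ _ _ hvx ?_).symm
      exact ((hbij x (P x)).mapsTo hvx.symm).symm
    · have e := hstep v x hvx.symm hx
      simp only [φ]
      rw [e]
      rfl
  obtain ⟨ψ, hψ⟩ := iso_of_local h.tree φ fun v =>
    (hbij v (P v)).congr fun x hx => (hloc v x hx).symm
  have hPu0 : P u = Walk.nil := Walk.isPath_iff_eq_nil.mp (hP u)
  refine ⟨ψ, ?_, ?_⟩
  · rw [hψ]; simp only [φ]; rw [hPu0]; rfl
  · rw [hψ, hloc u w huw, hPu0]
    exact hB2 _ _ _ _ huw huw.symm

end Pool.Agent.MP_93f6c7_pr
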